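import Pool.Agent.P.MP_3c2f8c_gt.Ex.MDefs

/-! Ex-Mt-Asm: abstract assembly of a matching. -/

namespace Pool.Agent.P.MP_3c2f8c_gt.Ex

open Matrix Polynomial Pool.Agent.Lib.CFT
open scoped TensorProduct

variable {P : Type} {U : P → Type} [∀ p, Group (U p)] {G G' : Type} [Group G] [Group G']
  {Φ : G →* ∀ p, U p} {Φ' : G' →* ∀ p, U p} {ρ : G →* E6} {ρ' : G' →* E6}
  {K₀ : ∀ p, Subgroup (U p)} {ε : P → ℤ} {Rg : G → Prop}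

theorem AsmAux.conj {γ : G} {γ' : G'} (h : Mat Φ Φ' ρ ρ' K₀ ε γ γ') :
    IsConj (ρ γ) (ρ' γ') ∧ ∀ p, IsConj (Φ γ p ^ ε p) (Φ' γ' p) := by
  obtain ⟨τ, u, g, h1, -, -, h2, h3⟩ := h
  have hγ : γ ∈ Subgroup.centralizer {γ} := Subgroup.mem_centralizer_singleton_iff.2 rfl
  have e := h1 ⟨γ, hγ⟩ rfl
  refine ⟨isConj_iff.2 ⟨g, ?_⟩, fun p => isConj_iff.2 ⟨u p, ?_⟩⟩
  · have h4 := h3 ⟨γ, hγ⟩
    rw [e] at h4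
    rw [← h4, mul_inv_cancel_right]
  · have h4 := h2 p ⟨γ, hγ⟩
    rw [e] at h4
    rw [← h4, mul_inv_cancel_right]

theorem adMatch_of_class (hε : ∀ p, ε p = 1 ∨ ε p = -1)
    (h : ∀ γ₀, Rg γ₀ → ∃ f : G → G',
      (∀ γ, IsConj (ρ γ) (ρ γ₀) → (∀ p, IsConj (Φ γ p) (Φ γ₀ p)) → Mat Φ Φ' ρ ρ' K₀ ε γ (f γ)) ∧
      ∀ γ₁ γ₂, IsConj (ρ γ₁) (ρ γ₀) → (∀ p, IsConj (Φ γ₁ p) (Φ γ₀ p)) → IsConj (ρ γ₂) (ρ γ₀) →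
        (∀ p, IsConj (Φ γ₂ p) (Φ γ₀ p)) → IsConj (f γ₁) (f γ₂) → IsConj γ₁ γ₂) :
    AdMatch Φ Φ' ρ ρ' K₀ ε Rg := by
  choose! f hf hf' using h
  let Pr : G → G → Prop := fun γ γ₀ =>
    Rg γ₀ ∧ IsConj (ρ γ) (ρ γ₀) ∧ ∀ p, IsConj (Φ γ p) (Φ γ₀ p)
  let rep : G → G := fun γ => Classical.epsilon (Pr γ)
  have hrep : ∀ γ, Rg γ → Pr γ (rep γ) := fun γ hγ =>
    Classical.epsilon_spec (p := Pr γ) ⟨γ, hγ, IsConj.refl _, fun _ => IsConj.refl _⟩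
  have hm : ∀ γ, Rg γ → Mat Φ Φ' ρ ρ' K₀ ε γ (f (rep γ) γ) := fun γ hγ =>
    hf _ (hrep γ hγ).1 γ (hrep γ hγ).2.1 (hrep γ hγ).2.2
  refine ⟨fun γ => f (rep γ) γ, hm, fun γ₁ γ₂ h₁ h₂ hc => ?_⟩
  obtain ⟨a₁, b₁⟩ := AsmAux.conj (hm γ₁ h₁)
  obtain ⟨a₂, b₂⟩ := AsmAux.conj (hm γ₂ h₂)
  have c₁ : IsConj (ρ γ₁) (ρ γ₂) := a₁.trans ((ρ'.map_isConj hc).trans a₂.symm)
  have c₂ : ∀ p, IsConj (Φ γ₁ p) (Φ γ₂ p) := fun p => by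
    have h3 : IsConj (Φ γ₁ p ^ ε p) (Φ γ₂ p ^ ε p) := (b₁ p).trans
      ((((Pi.evalMonoidHom U p).comp Φ').map_isConj hc).trans (b₂ p).symm)
    rcases hε p with e | e
    · rwa [e, zpow_one, zpow_one] at h3
    · rw [e, _root_.zpow_neg_one, _root_.zpow_neg_one] at h3
      obtain ⟨c, hc'⟩ := isConj_iff.1 h3
      refine isConj_iff.2 ⟨c, inv_injective ?_⟩
      rw [← hc']
      group
  have e : rep γ₁ = rep γ₂ := by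
    refine congrArg Classical.epsilon (funext fun γ₀ => propext ⟨fun h => ?_, fun h => ?_⟩)
    · exact ⟨h.1, c₁.symm.trans h.2.1, fun p => (c₂ p).symm.trans (h.2.2 p)⟩
    · exact ⟨h.1, c₁.trans h.2.1, fun p => (c₂ p).trans (h.2.2 p)⟩
  have r₁ := hrep γ₁ h₁
  have r₂ := hrep γ₂ h₂
  dsimp only at hc
  rw [e] at r₁ hc
  exact hf' _ r₂.1 γ₁ γ₂ r₁.2.1 r₁.2.2 r₂.2.1 r₂.2.2 hc

end Pool.Agent.P.MP_3c2f8c_gt.Ex
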