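import Pool.Agent.P.MP_3c2f8c_gt.Ex.Mt.Tor
import Pool.Agent.P.MP_3c2f8c_gt.Ex.Al.B1
import Pool.Agent.P.MP_3c2f8c_gt.Ex.Mt.Basea

/-! Ex-Mt-Base: the base tensor. -/

namespace Pool.Agent.P.MP_3c2f8c_gt.Ex

open Matrix Polynomial Pool.Agent.Lib.CFT
open scoped TensorProduct

variable {F : Type} [Field F] [CharZero F] {lam : I → Fˣ}

namespace BaseAux

/-- The multiplicative extension of a function on the primes. -/
noncomputable def H (g : ℕ → F) : ℤ →* F where
  toFun n := (n.sign : F) * n.natAbs.factorization.prod fun p k => g p ^ k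
  map_one' := by simp
  map_mul' m n := by
    by_cases hm : m = 0
    · simp [hm]
    by_cases hn : n = 0
    · simp [hn]
    rw [Int.sign_mul, Int.natAbs_mul, Nat.factorization_mul (Int.natAbs_ne_zero.2 hm)
      (Int.natAbs_ne_zero.2 hn), Finsupp.prod_add_index' (fun _ => pow_zero _)
      (fun _ _ _ => pow_add _ _ _), Int.cast_mul]
    ring

omit [CharZero F] in
theorem H_prime (g : ℕ → F) {n : ℤ} (h : n.natAbs.Prime) : H g n = (n.sign : F) * g n.natAbs := by
  show (n.sign : F) * n.natAbs.factorization.prod _ = _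
  rw [h.factorization, Finsupp.prod_single_index (h := fun p k => g p ^ k) (pow_zero _), pow_one]

omit [CharZero F] in
theorem H_unit (g : ℕ → F) {n : ℤ} (h : n = 1 ∨ n = -1) : H g n = (n : F) := by
  rcases h with rfl | rfl
  · rw [map_one, Int.cast_one]
  · show (((-1 : ℤ).sign : ℤ) : F) * (-1 : ℤ).natAbs.factorization.prod _ = _
    simp

omit [CharZero F] in
theorem ff_swap (a d : I) : ff lam a d = -ff lam d a := by
  simp [ff]

omit [CharZero F] in
theorem ff_ne (hne : ∀ a b, a ≠ b → (lam a).1 ^ 2 ≠ (lam b).1 ^ 2) {a d : I} (h : a ≠ d) :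
    ff lam a d ≠ 0 := by
  intro h0
  rw [ff, sub_eq_zero, div_eq_div_iff (lam d).ne_zero (lam a).ne_zero] at h0
  exact hne a d h (by rw [sq, sq, h0])

omit [CharZero F] in
theorem exists_G (hT : InT lam) : ∃ g : ℕ → F, ∀ a d, Rt a d → ff lam a d = H g (zz a d) := by
  obtain ⟨ν, h⟩ := hT
  let y : Fin 7 → Fˣ := Fin.snoc (α := fun _ => Fˣ) (fun i : Fin 6 => lam (wb i)) ν
  have e : ∀ a, lam a = ∏ j, y j ^ wt a j := by
    intro a
    rw [Fin.prod_univ_castSucc, eq_prod_wt h a]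
    simp only [y, Fin.snoc_castSucc, Fin.snoc_last]
    rfl
  let u : ℕ → Fˣ := fun k => ∏ j, y j ^ W k j
  have e2 : ∀ a d k, (∀ j, W k j = wt a j - wt d j) → ff lam a d = (u k).1 - ((u k).1)⁻¹ := by
    intro a d k hk
    have e3 : u k = lam a / lam d := by
      rw [e a, e d, ← Finset.prod_div_distrib]
      exact Finset.prod_congr rfl fun j _ => by rw [hk, _root_.zpow_sub, div_eq_mul_inv]
    rw [e3, Units.val_div_eq_div_val, inv_div, ff]
  refine ⟨fun k => (u k).1 - ((u k).1)⁻¹, fun a d had => ?_⟩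
  obtain ⟨h1, h2⟩ := hW a d had
  have hp := pl_prime _ h1
  rw [H_prime _ hp]
  rcases lt_trichotomy (zz a d) 0 with h0 | h0 | h0
  · rw [Int.sign_eq_neg_one_of_neg h0] at h2 ⊢
    rw [ff_swap, e2 d a _ fun j => by linarith [h2 j], Int.cast_neg, Int.cast_one, neg_one_mul]
  · rw [h0] at hp
    exact absurd hp Nat.not_prime_zero
  · rw [Int.sign_eq_one_of_pos h0] at h2 ⊢
    rw [e2 a d _ fun j => by linarith [h2 j], Int.cast_one, one_mul]

omit [CharZero F] in
theorem prod_ff {g : ℕ → F} (hG : ∀ a d, Rt a d → ff lam a d = H g (zz a d)) (a : I)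
    {S : Finset I} (hS : ∀ d ∈ S, Rt a d) : ∏ d ∈ S, ff lam a d = H g (ZP a S) := by
  rw [ZP, map_prod]
  exact Finset.prod_congr rfl fun d hd => hG a d (hS d hd)

theorem rt_SR {a b : I} (h : Adj a b) : ∀ d ∈ SR a b, Rt a d := by
  intro d hd
  obtain ⟨h1, h2, h3⟩ := (Finset.mem_filter.1 hd).2
  refine ⟨h2.symm, fun h4 => ?_⟩
  have h5 : d ≠ thd a b := fun h5 => not_adj_self d (h5 ▸ h1)
  rcases gq a b d h h2 h3 h5 with h6 | h6 | h6
  · exact h6.2.2 h1
  · exact h6.2.2 h1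
  · exact h6.1 h4.symm

omit [CharZero F] in
theorem RR_eq {g : ℕ → F} (hG : ∀ a d, Rt a d → ff lam a d = H g (zz a d)) {a b : I}
    (h : Adj a b) : RR lam a b = H g (ZP a (SR a b)) := prod_ff hG a (rt_SR h)

omit [CharZero F] in
theorem RR_symm (hT : InT lam) {a b : I} (h : Adj a b) : RR lam a b = RR lam b a := by
  obtain ⟨g, hG⟩ := exists_G hT
  rw [RR_eq hG h, RR_eq hG h.symm, (sym_chk a b h).1]

omit [CharZero F] in
theorem dl_eq (hT : InT lam) {a b : I} (h : Adj a b) :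
    dl lam a = RR lam a b * RR lam a (thd a b) := by
  obtain ⟨g, hG⟩ := exists_G hT
  rw [RR_eq hG h, RR_eq hG (thd_spec a b h).2.1, ← map_mul, ← (sym_chk a b h).2]
  exact prod_ff hG a fun d hd => (Finset.mem_filter.1 hd).2

omit [CharZero F] in
theorem RR_ne (hne : ∀ a b, a ≠ b → (lam a).1 ^ 2 ≠ (lam b).1 ^ 2) (a b : I) : RR lam a b ≠ 0 :=
  Finset.prod_ne_zero_iff.2 fun _ hd => ff_ne hne (Finset.mem_filter.1 hd).2.2.1.symm

omit [CharZero F] in
theorem eT_tr {a b : I} (h : Adj a b) :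
    eT lam a b (thd a b) = RR lam a b * RR lam b (thd a b) * RR lam (thd a b) a :=
  if_pos ⟨h, rfl⟩

omit [CharZero F] in
theorem ff_perm (s : F →+* F) {w : Equiv.Perm I} (hs : ∀ a, s (lam a).1 = (lam (w a)).1)
    (a d : I) : s (ff lam a d) = ff lam (w a) (w d) := by
  simp only [ff, map_sub, map_div₀, hs]

omit [CharZero F] in
theorem RR_perm (s : F →+* F) {w : Equiv.Perm I} (hw : ∀ a b, Adj (w a) (w b) ↔ Adj a b)
    (hs : ∀ a, s (lam a).1 = (lam (w a)).1) {a b : I} (h : Adj a b) :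
    s (RR lam a b) = RR lam (w a) (w b) := by
  rw [RR, RR, map_prod]
  refine Finset.prod_equiv w (fun d => ?_) fun d _ => ff_perm s hs a d
  simp only [Finset.mem_filter, Finset.mem_univ, true_and, thd_perm hw h, hw, ne_eq,
    w.injective.eq_iff]

end BaseAux

open BaseAux

omit [CharZero F] in
theorem supp_eT : Supp (eT lam) := fun _ _ _ h => if_neg h

omit [CharZero F] in
theorem supp_eT' : Supp (eT' lam) := fun a b c h => by
  rw [eT', supp_eT a b c h, _root_.inv_zero]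

omit [CharZero F] in
theorem exists_eT (hT : InT lam) (hne : ∀ a b, a ≠ b → (lam a).1 ^ 2 ≠ (lam b).1 ^ 2) :
    ∃ x : I → Fˣ, eT lam = (nZ F).pull (dg x) ∧ eT' lam = (nZ F).pull (dg x⁻¹) := by
  obtain ⟨g, hG⟩ := exists_G hT
  have hx : ∀ a, (ep a : F) * ∏ d ∈ SP a, ff lam a d ≠ 0 := by
    intro a
    refine mul_ne_zero ?_
      (Finset.prod_ne_zero_iff.2 fun d hd => ff_ne hne (Finset.mem_filter.1 hd).2.1.1)
    rcases ep_sq a with h | h <;> simp [h]
  let x : I → Fˣ := fun a => Units.mk0 _ (hx a)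
  have e0 : ∀ a, (x a).1 = H g (ep a * ZP a (SP a)) := by
    intro a
    rw [map_mul, H_unit g (ep_sq a), ← prod_ff hG a fun d hd => (Finset.mem_filter.1 hd).2.1]
    rfl
  have e : ∀ a b c, eT lam a b c = nZ F a b c * ((x a).1 * (x b).1 * (x c).1) := by
    intro a b c
    rw [nZ_eq]
    split_ifs with h
    · obtain ⟨h, rfl⟩ := h
      rw [eT_tr h, RR_eq hG h, RR_eq hG (adj3 a b h).1, RR_eq hG (adj3 a b h).2, ← map_mul,
        ← map_mul, chk1 a b h, e0, e0, e0, ← map_mul, ← map_mul, ← H_unit g (sg_cases a b),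
        ← map_mul]
    · rw [supp_eT a b c h, zero_mul]
  refine ⟨x, ?_, ?_⟩
  · funext a b c
    rw [pull_dg, e]
  · funext a b c
    have h1 : (nZ F a b c)⁻¹ = nZ F a b c := by
      rw [nZ_eq]
      split_ifs
      · refine inv_eq_of_mul_eq_one_right ?_
        rw [← Int.cast_mul, sg_sq, Int.cast_one]
      · exact _root_.inv_zero
    rw [pull_dg, eT', e, mul_inv, h1]
    simp only [Pi.inv_apply, Units.val_inv_eq_inv_val, mul_inv]

omit [CharZero F] in
theorem isAlb_eT (hT : InT lam) (hne : ∀ a b, a ≠ b → (lam a).1 ^ 2 ≠ (lam b).1 ^ 2) :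
    IsAlb (eT lam) (eT' lam) := by
  obtain ⟨x, h1, h2⟩ := exists_eT hT hne
  have e : (dag (dgU x)).1 = dg x⁻¹ := diagonal_transpose _
  rw [h1, h2, ← e]
  exact (isAlb_nZ F).pull (dgU x)

omit [CharZero F] in
theorem eT_ne_zero (hne : ∀ a b, a ≠ b → (lam a).1 ^ 2 ≠ (lam b).1 ^ 2) {a b : I} (h : Adj a b) :
    eT lam a b (thd a b) ≠ 0 := by
  rw [eT_tr h]
  exact mul_ne_zero (mul_ne_zero (RR_ne hne _ _) (RR_ne hne _ _)) (RR_ne hne _ _)

omit [CharZero F] in
theorem dl_ne_zero (hne : ∀ a b, a ≠ b → (lam a).1 ^ 2 ≠ (lam b).1 ^ 2) (a : I) : dl lam a ≠ 0 :=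
  Finset.prod_ne_zero_iff.2 fun _ hd => ff_ne hne (Finset.mem_filter.1 hd).2.1

omit [CharZero F] in
theorem sim_dl (hT : InT lam) (hne : ∀ a b, a ≠ b → (lam a).1 ^ 2 ≠ (lam b).1 ^ 2) :
    Sim (eT lam) (eT' lam) (diagonal (dl lam)) 1 := by
  have e : diagonal (dl lam) = dg fun a => Units.mk0 _ (dl_ne_zero hne a) := rfl
  rw [sim_iff_pull, one_smul, e]
  funext a b c
  rw [pull_dg]
  by_cases h : Tr a b c
  · obtain ⟨h, rfl⟩ := h
    obtain ⟨h1, h2, h3, -, -⟩ := thd_spec a b h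
    have h4 : thd (thd a b) a = b := (thd_spec _ _ h2).1.trans h3
    have e4 : dl lam a * dl lam b * dl lam (thd a b) =
        eT lam a b (thd a b) * eT lam a b (thd a b) := by
      rw [dl_eq hT h, dl_eq hT h.symm, dl_eq hT h2.symm, h1, h4, eT_tr h, RR_symm hT h.symm,
        RR_symm hT h2, RR_symm hT (adj3 a b h).1.symm]
      ring
    simp only [Units.val_mk0]
    rw [e4, eT', inv_mul_cancel_left₀ (eT_ne_zero hne h)]
  · rw [supp_eT' a b c h, supp_eT a b c h, zero_mul]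

omit [CharZero F] in
theorem eT_perm (s : F →+* F) {w : Equiv.Perm I} (hw : ∀ a b, Adj (w a) (w b) ↔ Adj a b)
    (hs : ∀ a, s (lam a).1 = (lam (w a)).1) (a b c : I) :
    s (eT lam a b c) = eT lam (w a) (w b) (w c) := by
  by_cases h : Tr a b c
  · rw [eT, eT, if_pos h, if_pos ((tr_perm hw a b c).2 h)]
    obtain ⟨h, rfl⟩ := h
    rw [map_mul, map_mul, RR_perm s hw hs h, RR_perm s hw hs (adj3 a b h).1,
      RR_perm s hw hs (adj3 a b h).2]
  · rw [supp_eT a b c h, supp_eT _ _ _ fun h' => h ((tr_perm hw a b c).1 h'), map_zero]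

omit [CharZero F] in
theorem dl_perm (s : F →+* F) {w : Equiv.Perm I} (hw : ∀ a b, Adj (w a) (w b) ↔ Adj a b)
    (hs : ∀ a, s (lam a).1 = (lam (w a)).1) (a : I) : s (dl lam a) = dl lam (w a) := by
  rw [dl, dl, map_prod]
  refine Finset.prod_equiv w (fun d => ?_) fun d _ => ff_perm s hs a d
  simp only [Finset.mem_filter, Finset.mem_univ, true_and, Rt, hw, ne_eq, w.injective.eq_iff]

end Pool.Agent.P.MP_3c2f8c_gt.Ex
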