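import Pool.Agent.P.MP_3c2f8c_gt.Ex.Mt.Spec

/-! Ex-Mt-Fr: properties of frames. -/

namespace Pool.Agent.P.MP_3c2f8c_gt.Ex

open Matrix Polynomial Pool.Agent.Lib.CFT
open scoped TensorProduct

variable {F : Type} [Field F] [NumberField F]

namespace FrAux

theorem sim_ph_pow (b : ℚ) (k : ℕ) :
    Sim (nJ F) (nJ F) (ph b F ^ k) ((algebraMap ℚ F b ^ 2) ^ k) := by
  induction k with
  | zero => simpa using sim_one _
  | succ k ih => rw [pow_succ, pow_succ]; exact ih.mul (sim_phi _)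

theorem ph_pow_three (b : ℚ) (k : ℕ) :
    ph b F ^ (3 * k) = ((b : F) ^ (2 * k)) • (1 : Matrix I I F) := by
  have h : ph b F ^ 3 = (b : F) ^ 2 • (1 : Matrix I I F) := by
    rw [pow_three', ph, phi_cube, eq_ratCast]
  rw [pow_mul, h, _root_.smul_pow, one_pow, ← pow_mul]

theorem cancel {P : GL I F} {X Y : Matrix I I F} (h : P.1 * X = P.1 * Y) : X = Y :=
  (Units.mul_right_inj P).1 h

end FrAux

variable {D : Spec F} {b : ℚ} {γ : UG b ℚ} {P : GL I F} {a : Aut F → I → Fˣ}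

theorem Frame.inT (hb : b ≠ 0) (h : Frame D b γ P a) (s : Aut F) : InT (a s) := by
  obtain ⟨ν, hν⟩ := h.sim
  obtain ⟨u, rfl⟩ := Sim.isUnit (isAlb_nJ F) hν
  have h1 := hν.map (s : F →+* F)
  rw [nJ_map] at h1
  have h2 := hν.inv.mul ((FrAux.sim_ph_pow b (D.ix s)).mul h1)
  have e : (P⁻¹).1 * (ph b F ^ D.ix s * P.1.map (s : F →+* F)) = dg (a s) * pm F (D.w s) := by
    have h3 : ph b F ^ D.ix s * P.1.map (s : F →+* F) = _ := h.coc s
    rw [h3, ← Matrix.mul_assoc, ← Units.val_mul, inv_mul_cancel, Units.val_one, Matrix.one_mul]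
  rw [e] at h2
  have h4 := D.sim_pm s
  have hp : ∀ x : I → F, pm F (D.w s) *ᵥ (pm F (D.w s)⁻¹ *ᵥ x) = x := fun x => by
    rw [mulVec_mulVec, ← pm_mul, mul_inv_cancel, pm_one, one_mulVec]
  refine inT_of_sim (n := eT D.lam) (fun x y hxy => (eT_ne_zero D.sq_ne hxy).isUnit)
    (ν := (u⁻¹).1 * ((algebraMap ℚ F b ^ 2) ^ D.ix s * (s : F →+* F) u.1)) fun x y z => ?_
  have h5 := h2 (pm F (D.w s)⁻¹ *ᵥ x) (pm F (D.w s)⁻¹ *ᵥ y) (pm F (D.w s)⁻¹ *ᵥ z)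
  have h6 := h4 (pm F (D.w s)⁻¹ *ᵥ x) (pm F (D.w s)⁻¹ *ᵥ y) (pm F (D.w s)⁻¹ *ᵥ z)
  simp only [← mulVec_mulVec, hp] at h5
  simp only [hp, one_mul] at h6
  rw [h5, h6]
  rfl

theorem Frame.cocycle (hb : b ≠ 0) (h : Frame D b γ P a) (s t : Aut F) (x : I) :
    (a s x).1 * s (a t ((D.w s)⁻¹ x)).1 = (b : F) ^ (2 * D.cy s t) * (a (s * t) x).1 := by
  have hbF : (b : F) ^ (2 * D.cy s t) ≠ 0 := pow_ne_zero _ (Rat.cast_ne_zero.2 hb)
  have h1 := congrArg (fun X : Matrix I I F => ph b F ^ D.ix s * X.map (s : F →+* F)) (h.coc t)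
  have e1 : (P.1.map t).map (s : F →+* F) = P.1.map (s * t) := rfl
  have e2 : ph b F ^ D.ix s * P.1.map (s : F →+* F) = _ := h.coc s
  simp only [Matrix.map_mul, Matrix.map_pow, ph_map, dg_map, pm_map] at h1
  rw [e1, ← Matrix.mul_assoc, ← pow_add, D.ix_add, add_comm, pow_add, FrAux.ph_pow_three,
    Matrix.mul_assoc, h.coc, ← Matrix.mul_assoc (ph b F ^ D.ix s), e2, Matrix.smul_mul,
    Matrix.one_mul, ← Matrix.mul_smul, Matrix.mul_assoc P.1] at h1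
  have h2 := FrAux.cancel h1
  rw [Matrix.mul_assoc, ← Matrix.mul_assoc (pm F (D.w s)), pm_dg, Matrix.mul_assoc, ← pm_mul,
    ← map_mul, ← Matrix.mul_assoc, ← dg_mul, ← Matrix.smul_mul] at h2
  have e3 : (b : F) ^ (2 * D.cy s t) • dg (a (s * t)) =
      dg ((fun _ => Units.mk0 _ hbF) * a (s * t)) := by
    rw [dg_mul, dg_const, Matrix.smul_mul, Matrix.one_mul, Units.val_mk0]
  rw [e3] at h2
  exact (congrArg (fun d : I → Fˣ => (d x).1) (dg_pm_cancel h2)).symm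

end Pool.Agent.P.MP_3c2f8c_gt.Ex
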