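import Pool.Agent.P.MP_3c2f8c_gt.Ex.Mt.Desc2
import Pool.Agent.P.MP_3c2f8c_gt.Ex.Mt.Fr
import Pool.Agent.P.MP_3c2f8c_gt.Ex.Al.Spl

/-! Ex-Mt-Cent: centralisers of regular elements. -/

namespace Pool.Agent.P.MP_3c2f8c_gt.Ex

open Matrix Polynomial Pool.Agent.Lib.CFT
open scoped TensorProduct

variable {F : Type} [Field F] [NumberField F]


variable [IsGalois ℚ F] {D : Spec F} {b : ℚ} {γ : UG b ℚ} {P : GL I F} {a : Aut F → I → Fˣ}

namespace CentAux

omit [NumberField F] [IsGalois ℚ F] in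
theorem pp (P : GL I F) : P.1 * (P⁻¹).1 = 1 := P.mul_inv

omit [NumberField F] [IsGalois ℚ F] in
theorem pp' (P : GL I F) : (P⁻¹).1 * P.1 = 1 := P.inv_mul

omit [NumberField F] [IsGalois ℚ F] in
theorem cancel_left (P : GL I F) {X Y : Matrix I I F} (h : P.1 * X = P.1 * Y) : X = Y := by
  rw [← Matrix.one_mul X, ← Matrix.one_mul Y, ← pp' P, Matrix.mul_assoc, Matrix.mul_assoc, h]

omit [NumberField F] [IsGalois ℚ F] in
theorem cancel_right (P : GL I F) {X Y : Matrix I I F} (h : X * P.1 = Y * P.1) : X = Y := by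
  rw [← Matrix.mul_one X, ← Matrix.mul_one Y, ← pp P, ← Matrix.mul_assoc, ← Matrix.mul_assoc, h]

omit [NumberField F] [IsGalois ℚ F] in
theorem dg_comm (x y : I → Fˣ) : dg x * dg y = dg y * dg x := by
  rw [← dg_mul, ← dg_mul, mul_comm]

omit [IsGalois ℚ F] in
theorem dg_aut (s : Aut F) {x y : I → Fˣ} (h : ∀ i, s (x i).1 = (y i).1) :
    (dg x).map s = dg y := by
  rw [dg, dg, diagonal_map (map_zero s)]
  congr 1
  funext i
  exact h i

omit [IsGalois ℚ F] in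
theorem map_inj (D : Spec F) {X Y : Matrix I I (Cub ℚ)} (h : X.map D.j = Y.map D.j) : X = Y :=
  Matrix.map_injective D.j.injective h

omit [IsGalois ℚ F] in
theorem gt_ext (D : Spec F) (P : GL I F) {g g' : Gt b ℚ}
    (h : g.1.1.map D.j * P.1 = g'.1.1.map D.j * P.1) : g = g' :=
  Subtype.ext (Units.ext (map_inj D (cancel_right P h)))

omit [IsGalois ℚ F] in
theorem map_smul_j (D : Spec F) (t : ℚ) (X : Matrix I I (Cub ℚ)) :
    (t • X).map D.j = (t : F) • X.map D.j := by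
  ext i k
  rw [Matrix.map_apply, Matrix.smul_apply, Matrix.smul_apply, Matrix.map_apply, map_rat_smul,
    smul_eq_mul, Rat.smul_def]

omit [IsGalois ℚ F] in
theorem map_mul_j (D : Spec F) (g g' : Gt b ℚ) :
    (g * g').1.1.map D.j = g.1.1.map D.j * g'.1.1.map D.j := Matrix.map_mul

omit [IsGalois ℚ F] in
theorem sim_unit (h : Frame D b γ P a) : ∃ ν : Fˣ, Sim (eT D.lam) (nJ F) P.1 ν.1 := by
  obtain ⟨ν, hν⟩ := h.sim
  obtain ⟨u, rfl⟩ := hν.isUnit (isAlb_nJ F)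
  exact ⟨u, hν⟩

theorem exists_gt (h : Frame D b γ P a) (x : D.Tor) :
    ∃ g : Gt b ℚ, g.1.1.map D.j * P.1 = P.1 * dg x.1 := by
  obtain ⟨ν, hν⟩ := sim_unit h
  obtain ⟨μ, hμ⟩ := x.2.1.sim (supp_eT (lam := D.lam))
  have e : (P * dgU x.1 * P⁻¹).1 * P.1 = P.1 * dg x.1 := by
    rw [← Units.val_mul, inv_mul_cancel_right]
    rfl
  obtain ⟨g, hg⟩ := D.descend₀ (b := b) (P * dgU x.1 * P⁻¹) ⟨_, (hν.mul hμ).mul hν.inv⟩ (by
    intro s
    have h1 : (dg x.1).map s = dg (x.1 ∘ D.w s) := dg_aut s fun i => x.2.2 s i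
    have h2 : pm F (D.w s) * dg (x.1 ∘ D.w s) = dg x.1 * pm F (D.w s) := by
      rw [pm_dg]
      congr 2
      funext i
      simp
    have h3 : (P * dgU x.1 * P⁻¹).1.map s * P.1.map s = P.1.map s * dg (x.1 ∘ D.w s) := by
      rw [← Matrix.map_mul, e, Matrix.map_mul, h1]
    refine cancel_right (glmap (s : F →+* F) P) ?_
    change _ * P.1.map s = _ * P.1.map s
    rw [Matrix.mul_assoc, h3, ← Matrix.mul_assoc, h.coc, Matrix.mul_assoc _ _ (P.1.map s), h.coc,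
      ← Matrix.mul_assoc _ P.1, e, Matrix.mul_assoc, Matrix.mul_assoc, h2, Matrix.mul_assoc,
      ← Matrix.mul_assoc (dg (a s)), dg_comm, Matrix.mul_assoc])
  exact ⟨g, by rw [hg, e]⟩

/-- The point of the twisted group with given eigenvalues. -/
noncomputable def lift (h : Frame D b γ P a) : D.Tor →* Gt b ℚ :=
  MonoidHom.mk' (fun x => (exists_gt h x).choose) fun x y => gt_ext D P (by
    rw [(exists_gt h (x * y)).choose_spec, map_mul_j, Matrix.mul_assoc,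
      (exists_gt h y).choose_spec, ← Matrix.mul_assoc, (exists_gt h x).choose_spec,
      Matrix.mul_assoc, ← dg_mul]
    rfl)

theorem lift_spec (h : Frame D b γ P a) (x : D.Tor) :
    (lift h x).1.1.map D.j * P.1 = P.1 * dg x.1 := (exists_gt h x).choose_spec

omit [IsGalois ℚ F] in
theorem mem_tor (h : Frame D b γ P a) (k : Gt b ℚ) {x : I → Fˣ}
    (e : k.1.1.map D.j * P.1 = P.1 * dg x) : x ∈ D.Tor := by
  obtain ⟨ν, hν⟩ := sim_unit h
  obtain ⟨μ, hμ⟩ := k.2.1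
  have h1 := hμ.map D.j
  rw [nJ_map] at h1
  have h2 := hν.inv.mul (h1.mul hν)
  rw [e, ← Matrix.mul_assoc, pp', Matrix.one_mul] at h2
  refine ⟨inT_of_sim (fun _ _ hab => (eT_ne_zero D.sq_ne hab).isUnit) h2, fun s i => ?_⟩
  let y : I → Fˣ := fun i => Units.map (s : F →+* F).toMonoidHom (x i)
  have h3 : (dg x).map s = dg y := dg_aut s fun _ => rfl
  have h4 : (k.1.1.map D.j).map s * P.1.map s = P.1.map s * dg y := by
    rw [← Matrix.map_mul, e, Matrix.map_mul, h3]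
  have h5 : ph b F ^ D.ix s * ((k.1.1.map D.j).map s * P.1.map s) =
      ph b F ^ D.ix s * (P.1.map s * dg y) := by rw [h4]
  rw [← Matrix.mul_assoc, D.map_gt, Matrix.mul_assoc, h.coc, ← Matrix.mul_assoc, e,
    ← Matrix.mul_assoc (ph b F ^ D.ix s), h.coc, Matrix.mul_assoc, Matrix.mul_assoc] at h5
  have h6 := cancel_left P h5
  rw [Matrix.mul_assoc, pm_dg, ← Matrix.mul_assoc, ← Matrix.mul_assoc, ← dg_mul, ← dg_mul,
    mul_comm x] at h6
  have h7 := congrFun (mul_left_cancel (dg_pm_cancel h6)) (D.w s i)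
  rw [h7]
  simp [y]

omit [IsGalois ℚ F] in
theorem trace_ne (D : Spec F) (P : GL I F) {G : Matrix I I F} (e : G * P.1 = P.1 * dg D.lam) :
    G.trace ≠ 0 := by
  have h1 : G = P.1 * dg D.lam * (P⁻¹).1 := by
    rw [← e, Matrix.mul_assoc, pp, Matrix.mul_one]
  rw [h1, Matrix.trace_mul_cycle, pp', Matrix.one_mul, dg, Matrix.trace_diagonal]
  exact D.sum_ne

theorem exists_of_comm (h : Frame D b γ P a) {g k : Gt b ℚ}
    (hg : g.1.1.map D.j * P.1 = P.1 * dg D.lam)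
    (hk : (QuotientGroup.mk (k * g) : UG b ℚ) = QuotientGroup.mk (g * k)) :
    ∃ x, lift h x = k := by
  obtain ⟨t, ht⟩ := Gt.mk_eq_iff.1 hk
  have h1 := congrArg (fun X : Matrix I I (Cub ℚ) => X.map D.j) ht
  rw [map_smul_j, map_mul_j, map_mul_j] at h1
  let K : GL I F := glmap D.j k.1
  have hK : k.1.1.map D.j = K.1 := rfl
  rw [hK] at h1
  have h2 : K.1 * g.1.1.map D.j * (K⁻¹).1 = ((t : ℚ) : F) • g.1.1.map D.j := by
    rw [h1, Matrix.smul_mul, Matrix.mul_assoc, pp, Matrix.mul_one]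
  have h3 := congrArg Matrix.trace h2
  rw [Matrix.trace_mul_cycle, pp', Matrix.one_mul, Matrix.trace_smul, smul_eq_mul] at h3
  have h4 : ((t : ℚ) : F) = 1 :=
    mul_right_cancel₀ (trace_ne D P hg) (h3.symm.trans (one_mul _).symm)
  rw [h4, one_smul] at h1
  have e : P.1 * (P⁻¹ * K * P).1 = K.1 * P.1 := by
    rw [← Units.val_mul, ← Units.val_mul, mul_assoc, mul_inv_cancel_left]
  obtain ⟨x, hx⟩ := exists_dg_of_commute (l := D.lam)
    (fun a b hab => (sub_ne_zero.2 (D.lam_ne a b hab)).isUnit) (P⁻¹ * K * P) (cancel_left P (by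
      rw [← Matrix.mul_assoc, e, Matrix.mul_assoc, ← hg, ← Matrix.mul_assoc, h1,
        ← Matrix.mul_assoc, ← hg, Matrix.mul_assoc, Matrix.mul_assoc, e]))
  have e' : k.1.1.map D.j * P.1 = P.1 * dg x := by rw [hK, ← e, hx]
  exact ⟨⟨x, mem_tor h k e'⟩, gt_ext D P ((lift_spec h _).trans e'.symm)⟩

end CentAux

theorem Frame.exists_zeta (hb : b ≠ 0) (h : Frame D b γ P a) : ∃ ζ : D.Tor →* UG b ℚ,
    ζ.range = Subgroup.centralizer {γ} ∧ ζ ⟨D.lam, D.lam_mem⟩ = γ ∧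
    (∀ x, ζ x = 1 ↔ ∃ z : Fˣ, ∀ y, x.1 y = z) ∧
    ∀ x, ∃ g : Gt b ℚ, QuotientGroup.mk g = ζ x ∧ g.1.1.map D.j * P.1 = P.1 * dg x.1 := by
  obtain ⟨g, hγ, hg⟩ := h.eig
  have hlam : CentAux.lift h ⟨D.lam, D.lam_mem⟩ = g :=
    CentAux.gt_ext D P ((CentAux.lift_spec h _).trans hg.symm)
  obtain ⟨ζ, hζ⟩ : ∃ ζ : D.Tor →* UG b ℚ, ∀ x, ζ x = QuotientGroup.mk (CentAux.lift h x) :=
    ⟨(QuotientGroup.mk' _).comp (CentAux.lift h), fun _ => rfl⟩
  have hz : ζ ⟨D.lam, D.lam_mem⟩ = γ := by rw [hζ, hlam, hγ]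
  refine ⟨ζ, ?_, hz, fun x => ?_,
    fun x => ⟨CentAux.lift h x, (hζ x).symm, CentAux.lift_spec h x⟩⟩
  · ext u
    rw [Subgroup.mem_centralizer_singleton_iff]
    constructor
    · rintro ⟨x, rfl⟩
      rw [← hz, ← map_mul, ← map_mul, mul_comm]
    · intro hu
      obtain ⟨k, rfl⟩ := QuotientGroup.mk_surjective u
      rw [← hγ, ← QuotientGroup.mk_mul, ← QuotientGroup.mk_mul] at hu
      obtain ⟨x, hx⟩ := CentAux.exists_of_comm h hg hu
      exact ⟨x, by rw [hζ, hx]⟩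
  · have e := CentAux.lift_spec h x
    have h1 : (1 : Matrix I I (Cub ℚ)).map D.j = 1 := Matrix.map_one _ (map_zero _) (map_one _)
    rw [hζ, QuotientGroup.eq_one_iff]
    constructor
    · rintro ⟨t, ht⟩
      let z : Fˣ := Units.map (algebraMap ℚ F).toMonoidHom t
      have hz1 : ((t : ℚ) : F) = z.1 := rfl
      rw [ht, CentAux.map_smul_j, h1, hz1, Matrix.smul_mul, Matrix.one_mul] at e
      have h2 : dg x.1 = dg fun _ => z := CentAux.cancel_left P (by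
        rw [← e, dg_const, Matrix.mul_smul, Matrix.mul_one])
      exact ⟨z, congrFun (dg_injective h2)⟩
    · rintro ⟨z, hx⟩
      obtain ⟨t, ht⟩ := (IsGalois.mem_range_algebraMap_iff_fixed (F := ℚ) z.1).2 fun s => by
        have h2 := x.2.2 s (.inl 0)
        rwa [hx, hx] at h2
      have ht0 : t ≠ 0 := by
        rintro rfl
        exact z.ne_zero (ht.symm.trans (map_zero _))
      refine ⟨Units.mk0 t ht0, CentAux.map_inj D (CentAux.cancel_right P ?_)⟩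
      have hz1 : (t : F) = z.1 := ht
      rw [e, funext hx, dg_const, Units.val_mk0, CentAux.map_smul_j, h1, hz1, Matrix.mul_smul,
        Matrix.smul_mul, Matrix.mul_one, Matrix.one_mul]

end Pool.Agent.P.MP_3c2f8c_gt.Ex
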