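import Pool.Agent.P.MP_3c2f8c_gt.Ex.Mt.Cent

/-! Ex-Mt-Cent2: conjugacy and cohomology of frames. -/

namespace Pool.Agent.P.MP_3c2f8c_gt.Ex

open Matrix Polynomial Pool.Agent.Lib.CFT
open scoped TensorProduct

namespace Cent2Aux

theorem trace_eq {R : Type} [CommRing R] {P : GL I R} {G H : Matrix I I R}
    (h : G * P.1 = P.1 * H) : G.trace = H.trace := by
  have e : G = P.1 * H * (P⁻¹).1 := by
    rw [← h, Matrix.mul_assoc, ← Units.val_mul, mul_inv_cancel, Units.val_one, Matrix.mul_one]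
  rw [e, Matrix.trace_mul_comm, ← Matrix.mul_assoc, ← Units.val_mul, inv_mul_cancel,
    Units.val_one, Matrix.one_mul]

theorem cancel {R : Type} [CommRing R] (P : GL I R) {G H : Matrix I I R}
    (h : P.1 * G = P.1 * H) : G = H :=
  (Units.mul_right_inj P).1 h

theorem key {R ι : Type} [CommRing R] (f : ι → R →+* R) (φ : ι → Matrix I I R)
    (w : ι → Equiv.Perm I) {n n' : T3 R} {l : I → Rˣ}
    (hl : ∀ a b, a ≠ b → IsUnit ((l a).1 - (l b).1)) (hs : IsUnit (∑ a, (l a).1))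
    (hn : ∀ a b, Adj a b → IsUnit (n a b (thd a b))) {P P' K : GL I R} {G G' : Matrix I I R}
    {z : R} (hG : G * P.1 = P.1 * dg l) (hG' : G' * P'.1 = P'.1 * dg l)
    (hK : K.1 * G = z • (G' * K.1)) {ν μ : R} {ν' : Rˣ} (sP : Sim n n' P.1 ν)
    (sP' : Sim n n' P'.1 ν'.1) (sK : Sim n' n' K.1 μ) {a a' : ι → I → Rˣ}
    (cP : ∀ s, φ s * P.1.map (f s) = P.1 * (dg (a s) * pm R (w s)))
    (cP' : ∀ s, φ s * P'.1.map (f s) = P'.1 * (dg (a' s) * pm R (w s)))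
    (cK : ∀ s, φ s * K.1.map (f s) = K.1 * φ s) :
    ∃ t : I → Rˣ, InT t ∧
      ∀ s x, a s x * t x = a' s x * Units.map (f s).toMonoidHom (t ((w s)⁻¹ x)) := by
  have tr : (dg l).trace = ∑ a, (l a).1 := by simp [dg]
  have h1 : G.trace = ∑ a, (l a).1 := (trace_eq hG).trans tr
  have h2 : G'.trace = ∑ a, (l a).1 := (trace_eq hG').trans tr
  have h3 : (z • G').trace = G.trace := trace_eq (P := K) (by rw [Matrix.smul_mul, hK])
  have hz : z = 1 := by
    rw [Matrix.trace_smul, h1, h2, smul_eq_mul] at h3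
    exact hs.mul_right_cancel (by rw [h3, one_mul])
  rw [hz, one_smul] at hK
  have hPY : P'.1 * (P'⁻¹ * K * P).1 = K.1 * P.1 := by
    rw [← Units.val_mul, ← Units.val_mul, mul_assoc, mul_inv_cancel_left]
  obtain ⟨t, ht⟩ := exists_dg_of_commute hl (P'⁻¹ * K * P) (cancel P' (by
    rw [← Matrix.mul_assoc, ← Matrix.mul_assoc, hPY, ← hG', Matrix.mul_assoc, ← hG,
      ← Matrix.mul_assoc, hK, Matrix.mul_assoc, Matrix.mul_assoc, hPY]))
  refine ⟨t, ?_, fun s x => ?_⟩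
  · have := (sP'.inv.mul sK).mul sP
    rw [← Units.val_mul, ← Units.val_mul, ht] at this
    exact inT_of_sim hn this
  · rw [ht] at hPY
    have e := congrArg (fun X => φ s * X.map (f s)) hPY
    simp only [Matrix.map_mul] at e
    rw [← Matrix.mul_assoc, ← Matrix.mul_assoc, cP', cK, Matrix.mul_assoc K.1, cP,
      ← Matrix.mul_assoc K.1, ← hPY, dg_map, Matrix.mul_assoc, Matrix.mul_assoc,
      Matrix.mul_assoc, pm_dg] at e
    have e' := cancel P' e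
    rw [← Matrix.mul_assoc, ← Matrix.mul_assoc, ← dg_mul, ← dg_mul] at e'
    have := congrFun (dg_pm_cancel e') x
    simp only [Pi.mul_apply, Function.comp_apply] at this
    rw [mul_comm, ← this]

theorem nu_ne {F : Type} [Field F] {n : T3 F} {P : GL I F} {ν : F}
    (h : Sim n (nJ F) P.1 ν) : ν ≠ 0 := by
  rintro rfl
  have e : ∀ x, P.1 *ᵥ ((P⁻¹).1 *ᵥ x) = x := fun x => by
    rw [mulVec_mulVec, ← Units.val_mul, mul_inv_cancel, Units.val_one, one_mulVec]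
  have h1 := h ((P⁻¹).1 *ᵥ Pi.single (.inl 0) 1) ((P⁻¹).1 *ᵥ Pi.single (.inl 1) 1)
    ((P⁻¹).1 *ᵥ Pi.single (.inl 2) 1)
  rw [e, e, e, tri_single, nJ_base, zero_mul] at h1
  exact one_ne_zero h1

theorem conj_rep {b : ℚ} {R : Type} [CommRing R] [Algebra ℚ R] {g g' : Gt b R}
    (h : IsConj (QuotientGroup.mk g : UG b R) (QuotientGroup.mk g')) :
    ∃ (k : Gt b R) (z : R), k.1.1 * g.1.1 = z • (g'.1.1 * k.1.1) := by
  obtain ⟨c, hc⟩ := isConj_iff.1 h
  obtain ⟨k, rfl⟩ := QuotientGroup.mk_surjective c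
  have h1 : (QuotientGroup.mk (k * g) : UG b R) = QuotientGroup.mk (g' * k) := by
    rw [QuotientGroup.mk_mul, QuotientGroup.mk_mul, ← hc, inv_mul_cancel_right]
  obtain ⟨t, ht⟩ := Gt.mk_eq_iff.1 h1
  exact ⟨k, t.1, ht⟩

theorem map_smul_C {R S : Type} [CommRing R] [CommRing S] (f : Cub R →+* S) (z : R)
    (X : Matrix I I (Cub R)) : (z • X).map f = f (Cub.C z) • X.map f := by
  ext x y
  simp only [map_apply, Matrix.smul_apply, smul_eq_mul, ← map_mul]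
  congr 1
  ext <;> simp

end Cent2Aux

open Cent2Aux

variable {F : Type} [Field F] [NumberField F] [IsGalois ℚ F] {D : Spec F} {b : ℚ} {γ : UG b ℚ}
  {P : GL I F} {a : Aut F → I → Fˣ}

set_option linter.unusedVariables false in
omit [IsGalois ℚ F] in
/-- Conjugate elements have cohomologous cocycles. -/
theorem Frame.coh_of_isConj (hb : b ≠ 0) {γ' : UG b ℚ} {P' : GL I F} {a' : Aut F → I → Fˣ}
    (h : Frame D b γ P a) (h' : Frame D b γ' P' a') (hc : IsConj γ γ') :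
    ∃ t : I → Fˣ, InT t ∧ ∀ s x, a s x * t x = a' s x * gact s (t ((D.w s)⁻¹ x)) := by
  obtain ⟨g, rfl, hg⟩ := h.eig
  obtain ⟨g', rfl, hg'⟩ := h'.eig
  obtain ⟨k, z, hk⟩ := conj_rep hc
  obtain ⟨ν, hν⟩ := h.sim
  obtain ⟨ν', hν'⟩ := h'.sim
  obtain ⟨μ, hμ⟩ := k.2.1
  have hK := congrArg (fun X => X.map D.j) hk
  simp only [Matrix.map_mul, map_smul_C] at hK
  exact key (fun s : Aut F => s.toRingEquiv.toRingHom) (fun s => ph b F ^ D.ix s) D.w
    (fun x y hxy => (sub_ne_zero.2 (D.lam_ne x y hxy)).isUnit) D.sum_ne.isUnit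
    (fun x y hxy => (eT_ne_zero D.sq_ne hxy).isUnit) (K := glmap D.j k.1) hg hg' hK
    (ν' := Units.mk0 ν' (nu_ne hν')) hν hν' (by simpa using hμ.map D.j) h.coc h'.coc
    (D.map_gt k)

theorem Frame.isConj_of_coh (hb : b ≠ 0) {γ' : UG b ℚ} {P' : GL I F} {a' : Aut F → I → Fˣ}
    (h : Frame D b γ P a) (h' : Frame D b γ' P' a') {t : I → Fˣ} (ht : InT t) (κ : Aut F → Fˣ)
    (e : ∀ s x, a s x * t x = κ s * a' s x * gact s (t ((D.w s)⁻¹ x))) : IsConj γ γ' := by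
  obtain ⟨g, rfl, hg⟩ := h.eig
  obtain ⟨g', rfl, hg'⟩ := h'.eig
  obtain ⟨ν, hν⟩ := h.sim
  obtain ⟨ν', hν'⟩ := h'.sim
  obtain ⟨μ, hμ⟩ := ht.sim (supp_eT (lam := D.lam))
  have hYP : (P' * dgU t * P⁻¹).1 * P.1 = P'.1 * dg t := by
    rw [← Units.val_mul, inv_mul_cancel_right]
    rfl
  obtain ⟨y, k, hk⟩ := D.descend hb (P' * dgU t * P⁻¹)
    ⟨_, (hν'.mul hμ).mul (Sim.inv (ν := Units.mk0 ν (nu_ne hν)) hν)⟩ (fun s => ((κ s)⁻¹).1)
    fun s => by
      refine (Units.mul_left_inj (glmap s.toRingEquiv.toRingHom P)).1 ?_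
      have e1 := congrArg (fun X => X.map s.toRingEquiv.toRingHom) hYP
      simp only [Matrix.map_mul, dg_map] at e1
      have e2 : dg t * dg (a s) = (κ s).1 • (dg (a' s) *
          dg ((fun x => Units.map s.toRingEquiv.toRingHom.toMonoidHom (t x)) ∘ ⇑(D.w s)⁻¹)) := by
        rw [← dg_mul, ← dg_mul, ← Matrix.one_mul (dg (a' s * _)), ← Matrix.smul_mul, ← dg_const,
          ← dg_mul]
        congr 1
        funext x
        simp only [Pi.mul_apply, Function.comp_apply]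
        rw [mul_comm, e, mul_assoc]
        rfl
      change ph b F ^ D.ix s * (P' * dgU t * P⁻¹).1.map s.toRingEquiv.toRingHom *
        P.1.map s.toRingEquiv.toRingHom = ((κ s)⁻¹).1 • ((P' * dgU t * P⁻¹).1 * ph b F ^ D.ix s) *
          P.1.map s
      rw [Matrix.mul_assoc, e1, Matrix.smul_mul, Matrix.mul_assoc, h.coc, ← Matrix.mul_assoc _ P.1,
        hYP, Matrix.mul_assoc, ← Matrix.mul_assoc (dg t), e2, Matrix.smul_mul, Matrix.mul_smul,
        smul_smul, Units.inv_mul, one_smul, Matrix.mul_assoc, ← pm_dg, ← Matrix.mul_assoc,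
        ← Matrix.mul_assoc (dg _), ← Matrix.mul_assoc, ← h'.coc]
      rfl
  have hkg : k * g = g' * k := by
    refine Subtype.ext (Units.ext (Matrix.map_injective D.j.injective ?_))
    refine (Units.mul_left_inj P).1 ?_
    change (k.1.1 * g.1.1).map D.j * P.1 = (g'.1.1 * k.1.1).map D.j * P.1
    rw [Matrix.map_mul, Matrix.map_mul, hk, Matrix.mul_assoc, hg, Matrix.smul_mul,
      Matrix.mul_smul, Matrix.smul_mul, ← Matrix.mul_assoc, hYP, Matrix.mul_assoc _ _ P.1, hYP,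
      ← Matrix.mul_assoc, hg', Matrix.mul_assoc, Matrix.mul_assoc, ← dg_mul, ← dg_mul, mul_comm t]
  refine isConj_iff.2 ⟨QuotientGroup.mk k, ?_⟩
  rw [← QuotientGroup.mk_mul, hkg, QuotientGroup.mk_mul, mul_inv_cancel_right]

set_option linter.unusedVariables false in
omit [IsGalois ℚ F] in
theorem Frame.coh_loc (hb : b ≠ 0) {γ' : UG b ℚ} {P' : GL I F} {a' : Aut F → I → Fˣ}
    (h : Frame D b γ P a) (h' : Frame D b γ' P' a') (p : Nat.Primes)
    (hc : IsConj (Phi b γ p) (Phi b γ' p)) : ∃ t : I → (Ap p.1 F)ˣ, InT t ∧ ∀ s x,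
      incU ℚ_[p] F (a s x) * t x = incU ℚ_[p] F (a' s x) * uact ℚ_[p] s (t ((D.w s)⁻¹ x)) := by
  obtain ⟨g, rfl, hg⟩ := h.eig
  obtain ⟨g', rfl, hg'⟩ := h'.eig
  obtain ⟨k, z, hk⟩ := conj_rep (g := gmap b (algebraMap ℚ ℚ_[p]) g)
    (g' := gmap b (algebraMap ℚ ℚ_[p]) g') hc
  obtain ⟨ν, hν⟩ := h.sim
  obtain ⟨ν', hν'⟩ := h'.sim
  obtain ⟨μ, hμ⟩ := k.2.1
  have hK := congrArg (fun X => X.map (jk ℚ_[p] D.j)) hk
  simp only [Matrix.map_mul, map_smul_C] at hK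
  have eig : ∀ {g : Gt b ℚ} {P : GL I F}, g.1.1.map D.j * P.1 = P.1 * dg D.lam →
      (gmap b (algebraMap ℚ ℚ_[p]) g).1.1.map (jk ℚ_[p] D.j) * (glmap (inc ℚ_[p] F) P).1 =
        (glmap (inc ℚ_[p] F) P).1 * dg fun x => incU ℚ_[p] F (D.lam x) := fun {g P} hg => by
    have e := congrArg (fun X => X.map (inc ℚ_[p] F)) hg
    simp only [Matrix.map_mul, dg_map] at e
    refine Eq.trans ?_ e
    congr 1
    ext1 x y
    exact jk_map _ _ _
  have coc : ∀ {P : GL I F} {a : I → Fˣ} (s : Aut F),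
      ph b F ^ D.ix s * P.1.map s = P.1 * (dg a * pm F (D.w s)) →
      ph b (Ap p.1 F) ^ D.ix s *
        (glmap (inc ℚ_[p] F) P).1.map (lact ℚ_[p] s).toRingEquiv.toRingHom =
        (glmap (inc ℚ_[p] F) P).1 *
          (dg (fun x => incU ℚ_[p] F (a x)) * pm _ (D.w s)) := fun {P a} s hg => by
    have e := congrArg (fun X => X.map (inc ℚ_[p] F)) hg
    simp only [Matrix.map_mul, dg_map, pm_map, Matrix.map_pow, ph_map] at e
    exact e
  have u1 := fun x y hxy => (sub_ne_zero.2 (D.lam_ne x y hxy)).isUnit.map (inc ℚ_[p] F)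
  have u2 := D.sum_ne.isUnit.map (inc ℚ_[p] F)
  have s1 := hν.map (inc ℚ_[p] F)
  have s2 := hν'.map (inc ℚ_[p] F)
  have s3 := hμ.map (jk ℚ_[p] D.j)
  simp only [map_sub, map_sum, nJ_map] at u1 u2 s1 s2 s3
  exact key (fun s : Aut F => (lact ℚ_[p] s).toRingEquiv.toRingHom)
    (fun s => ph b (Ap p.1 F) ^ D.ix s) D.w (l := fun x => incU ℚ_[p] F (D.lam x))
    (n := (eT D.lam).map (inc ℚ_[p] F)) (n' := nJ _) u1 u2
    (fun x y hxy => (eT_ne_zero D.sq_ne hxy).isUnit.map (inc ℚ_[p] F))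
    (K := glmap (jk ℚ_[p] D.j) k.1) (eig hg) (eig hg') hK
    (ν' := incU ℚ_[p] F (Units.mk0 ν' (nu_ne hν'))) s1 s2 s3
    (fun s => coc s (h.coc s)) (fun s => coc s (h'.coc s)) (D.map_gt_loc ℚ_[p] k)

end Pool.Agent.P.MP_3c2f8c_gt.Ex
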