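import Pool.Agent.P.MP_3c2f8c_gt.Ex.Mt.Spec
import Pool.Agent.Lib.CFT.Loc2

/-! Ex-Mt-Desc: Galois descent of similitudes. -/

namespace Pool.Agent.P.MP_3c2f8c_gt.Ex

open Matrix Polynomial Pool.Agent.Lib.CFT
open scoped TensorProduct

variable {F : Type} [Field F] [NumberField F]

namespace DescAux

theorem map_sig_pow {R S : Type} [CommRing R] [CommRing S] (f : R →+* S) (i : ℕ) (x : Cub R) :
    Cub.map f ((Cub.sig ^ i : Cub R ≃+* Cub R) x) =
      (Cub.sig ^ i : Cub S ≃+* Cub S) (Cub.map f x) := by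
  induction i with
  | zero => rfl
  | succ i ih =>
    rw [pow_succ', pow_succ']
    change Cub.map f (Cub.sig ((Cub.sig ^ i : Cub R ≃+* Cub R) x)) =
      Cub.sig ((Cub.sig ^ i : Cub S ≃+* Cub S) (Cub.map f x))
    rw [Cub.map_sig, ih]

theorem sig_pow_C {R : Type} [CommRing R] (i : ℕ) (t : R) :
    (Cub.sig ^ i : Cub R ≃+* Cub R) (Cub.C t) = Cub.C t := by
  induction i with
  | zero => rfl
  | succ i ih =>
    rw [pow_succ']
    change Cub.sig ((Cub.sig ^ i : Cub R ≃+* Cub R) (Cub.C t)) = _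
    rw [ih, Cub.sig_C]

variable {R A : Type} [CommRing R] [Algebra ℚ R] [CommRing A] [Algebra ℚ A] {b : ℚ}

omit [Algebra ℚ A] in
theorem map_inv_eq (τ : A →+* A) (Y : GL I A) (h : Y.1.map τ = Y.1) :
    (Y⁻¹).1.map τ = (Y⁻¹).1 := by
  have e : glmap τ Y = Y := Units.ext h
  have e' : glmap τ Y⁻¹ = Y⁻¹ := by rw [map_inv, e]
  exact congrArg Units.val e'

theorem desc_abs (f : Cub R →+* A) (hf : Function.Injective f) {G : Type} (τ : G → A →+* A)
    (P : G → Prop) (hfix : ∀ y, (∀ s, P s → τ s y = y) → ∃ x, f x = y) (τ₁ : A →+* A)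
    (h1 : ∀ x, τ₁ (f x) = f (Cub.sig x)) (Y : GL I A) (hY : ∃ ν, Sim (nJ A) (nJ A) Y.1 ν)
    (h0 : ∀ s, P s → Y.1.map (τ s) = Y.1) (h1' : ph b A * Y.1.map τ₁ = Y.1 * ph b A) :
    ∃ h : Gt b R, h.1.1.map f = Y.1 := by
  choose X hX using fun a c => hfix (Y.1 a c) fun s hs => congrFun (congrFun (h0 s hs) a) c
  choose X' hX' using fun a c => hfix ((Y⁻¹).1 a c) fun s hs =>
    congrFun (congrFun (map_inv_eq (τ s) Y (h0 s hs)) a) c
  have e : (Matrix.of X).map f = Y.1 := Matrix.ext hX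
  have e' : (Matrix.of X').map f = (Y⁻¹).1 := Matrix.ext hX'
  have inj : ∀ M N : Matrix I I (Cub R), M.map f = N.map f → M = N := fun M N h =>
    Matrix.ext fun a c => hf (congrFun (congrFun h a) c)
  let g : GL I (Cub R) := ⟨Matrix.of X, Matrix.of X', inj _ _ (by
    rw [Matrix.map_mul, e, e', Units.mul_inv, Matrix.map_one f (map_zero f) (map_one f)]),
    inj _ _ (by
    rw [Matrix.map_mul, e, e', Units.inv_mul, Matrix.map_one f (map_zero f) (map_one f)])⟩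
  obtain ⟨ν, hν⟩ := hY
  have hs : Sim (nJ (Cub R)) (nJ (Cub R)) g.1 (nu (nJ (Cub R)) g.1) := by
    refine Sim.of_map hf ?_
    have e1 : f (nu (nJ (Cub R)) g.1) = ν := by
      rw [← hν.nu_eq nJ_base, ← e, ← nJ_map f, nu, nu, T3.pull_map]
      rfl
    rw [nJ_map, e1]
    exact e ▸ hν
  obtain ⟨u, hu⟩ := Sim.isUnit (isAlb_nJ (Cub R)) hs
  refine ⟨⟨g, ⟨u, hu ▸ hs⟩, inj _ _ ?_⟩, e⟩
  have e2 : (g.1.map Cub.sig).map f = Y.1.map τ₁ := by
    rw [← e]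
    exact Matrix.ext fun a c => (h1 _).symm
  rw [Matrix.map_mul, Matrix.map_mul, ph_map, e2, h1']
  exact congrArg (· * ph b A) e

theorem ph_pow_three (k : ℕ) :
    ph b A ^ (3 * k) = (algebraMap ℚ A b ^ 2) ^ k • (1 : Matrix I I A) := by
  rw [pow_mul, pow_three, ← Matrix.mul_assoc, ph, phi_cube, _root_.smul_pow, one_pow]

omit [Algebra ℚ A] in
theorem smul_cancel (U : GL I A) {c c' : A} (h : c • U.1 = c' • U.1) : c = c' := by
  have h1 := congrArg (· * (U⁻¹).1) h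
  simp only [Matrix.smul_mul, Units.mul_inv] at h1
  simpa using congrFun (congrFun h1 (.inl 0)) (.inl 0)

omit [Algebra ℚ A] in
theorem map_smul' (τ : A →+* A) (c : A) (M : Matrix I I A) : (c • M).map τ = τ c • M.map τ :=
  Matrix.ext fun _ _ => map_mul τ _ _

theorem map_ph_pow (τ : A →+* A) (i : ℕ) : (ph b A ^ i).map τ = ph b A ^ i := by
  have := map_pow τ.mapMatrix (ph b A) i
  rwa [RingHom.mapMatrix_apply, RingHom.mapMatrix_apply, ph_map] at this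

theorem coc_abs (D : Spec F) (hb : b ≠ 0) (τ : Aut F → A →+* A) (τ1 : ∀ x, τ 1 x = x)
    (τm : ∀ s t x, τ (s * t) x = τ s (τ t x)) (Y : GL I A) (c : Aut F → A)
    (hc : ∀ s, ph b A ^ D.ix s * Y.1.map (τ s) = c s • (Y.1 * ph b A ^ D.ix s)) :
    ∃ c' : Aut F → Aˣ, (∀ s, (c' s).1 = c s) ∧ ∀ s t, c (s * t) = c s * τ s (c t) := by
  obtain ⟨φ, hφ⟩ := exists_phU hb A
  have h1 : c 1 = 1 := by
    have h := hc 1
    rw [(D.ix_eq_zero 1).2 fun _ => rfl, pow_zero, Matrix.one_mul, Matrix.mul_one,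
      show Y.1.map (τ 1) = Y.1 from Matrix.ext fun _ _ => τ1 _] at h
    exact smul_cancel Y (h.symm.trans (one_smul _ _).symm)
  have h2 : ∀ s t, c (s * t) = c s * τ s (c t) := fun s t => by
    refine smul_cancel (Y * φ ^ (D.ix s + D.ix t)) ?_
    rw [Units.val_mul, Units.val_pow_eq_pow_val, hφ]
    have e1 : ph b A ^ (D.ix s + D.ix t) * Y.1.map (τ (s * t)) =
        c (s * t) • (Y.1 * ph b A ^ (D.ix s + D.ix t)) := by
      rw [D.ix_add, pow_add, ph_pow_three, Matrix.mul_smul, Matrix.mul_one, Matrix.smul_mul, hc,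
        Matrix.mul_smul, smul_comm]
    have e2 := congrArg (fun M : Matrix I I A => ph b A ^ D.ix s * M.map (τ s)) (hc t)
    simp only [Matrix.map_mul, map_smul', map_ph_pow] at e2
    rw [Matrix.mul_smul, ← Matrix.mul_assoc, ← Matrix.mul_assoc, hc s, ← pow_add,
      Matrix.smul_mul, Matrix.mul_assoc, ← pow_add, smul_smul, mul_comm (τ s (c t))] at e2
    rw [← e1, ← e2]
    exact congrArg _ (Matrix.ext fun _ _ => τm _ _ _)
  have h3 : ∀ s, IsUnit (c s) := fun s =>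
    IsUnit.of_mul_eq_one (τ s (c s⁻¹)) (by rw [← h2, mul_inv_cancel, h1])
  exact ⟨fun s => (h3 s).unit, fun _ => rfl, h2⟩

omit [Algebra ℚ A] in
theorem untwist (τ : A →+* A) (Y : GL I A) (P : Matrix I I A) (z : Aˣ) {c : A}
    (hz : c = τ z.1 * (z⁻¹).1) (hc : P * Y.1.map τ = c • (Y.1 * P)) :
    P * ((z⁻¹).1 • Y.1).map τ = ((z⁻¹).1 • Y.1) * P := by
  rw [map_smul', Matrix.mul_smul, hc, smul_smul, hz, ← mul_assoc, ← map_mul, Units.inv_mul,
    map_one, one_mul, Matrix.smul_mul]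

omit [Algebra ℚ A] in
theorem exists_smul (y : Aˣ) (Y : GL I A) :
    ∃ Y' : GL I A, Y'.1 = y.1 • Y.1 ∧ (Y'⁻¹).1 = (y⁻¹).1 • (Y⁻¹).1 :=
  ⟨⟨y.1 • Y.1, (y⁻¹).1 • (Y⁻¹).1, by
    rw [Matrix.smul_mul, Matrix.mul_smul, smul_smul, Units.mul_inv, Units.mul_inv, one_smul], by
    rw [Matrix.smul_mul, Matrix.mul_smul, smul_smul, Units.inv_mul, Units.inv_mul, one_smul]⟩,
    rfl, rfl⟩

end DescAux

open DescAux

section Local

variable (κ : Type) [Field κ] [Algebra ℚ κ]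

theorem jk_C (j : Cub ℚ →+* F) (t : κ) : jk κ j (Cub.C t) = algebraMap κ (κ ⊗[ℚ] F) t := by
  rw [jk, Cub.lift_apply, Cub.C_c0, Cub.C_c1, Cub.C_c2, map_zero, zero_mul, zero_mul, add_zero,
    add_zero]

theorem DescAux.jk_eta (j : Cub ℚ →+* F) : jk κ j Cub.eta = inc κ F (j Cub.eta) := by
  rw [jk, Cub.lift_apply]
  change algebraMap κ _ 0 + algebraMap κ _ 1 * _ + algebraMap κ _ 0 * _ = _
  rw [map_zero, map_one, zero_add, zero_mul, add_zero, one_mul]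

theorem DescAux.map_eta : Cub.map (algebraMap ℚ κ) Cub.eta = Cub.eta := by
  ext <;> simp [Cub.eta]

theorem jk_map (j : Cub ℚ →+* F) (x : Cub ℚ) :
    jk κ j (Cub.map (algebraMap ℚ κ) x) = inc κ F (j x) := by
  have : (jk κ j).comp (Cub.map (algebraMap ℚ κ)) = (inc κ F).comp j := by
    refine Cub.hom_ext (fun t => ?_) ?_
    · exact DFunLike.congr_fun (RingHom.ext_rat
        (((jk κ j).comp (Cub.map (algebraMap ℚ κ))).comp Cub.C) (((inc κ F).comp j).comp Cub.C)) t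
    · rw [RingHom.comp_apply, map_eta, jk_eta, RingHom.comp_apply]
  exact DFunLike.congr_fun this x

theorem DescAux.exists_equiv (j : Cub ℚ →+* F) :
    ∃ e : Cub κ ≃ₐ[κ] κ ⊗[ℚ] Cub ℚ, ∀ x, jk κ j x = lmap κ j (e x) := by
  obtain ⟨e, he⟩ := Cub.exists_tensor κ
  refine ⟨e, fun x => ?_⟩
  have : jk κ j = (lmap κ j).toRingHom.comp e.toRingEquiv.toRingHom := by
    refine Cub.hom_ext (fun t => ?_) ?_
    · rw [jk_C]
      exact (((lmap κ j).comp e.toAlgHom).commutes t).symm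
    · rw [jk_eta]
      change _ = lmap κ j (e Cub.eta)
      rw [← map_eta κ, he]
      rfl
  exact DFunLike.congr_fun this x

theorem jk_injective (j : Cub ℚ →+* F) : Function.Injective (jk κ j) := by
  obtain ⟨e, he⟩ := exists_equiv κ j
  intro x y h
  rw [he, he] at h
  exact e.injective (lmap_injective κ j h)

theorem Spec.lact_jk (D : Spec F) (s : Aut F) (x : Cub κ) :
    lact κ s (jk κ D.j x) = jk κ D.j ((Cub.sig ^ D.ix s : Cub κ ≃+* Cub κ) x) := by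
  have : (lact κ s).toRingEquiv.toRingHom.comp (jk κ D.j) =
      (jk κ D.j).comp (Cub.sig ^ D.ix s : Cub κ ≃+* Cub κ).toRingHom := by
    refine Cub.hom_ext (fun t => ?_) ?_
    · change lact κ s (jk κ D.j (Cub.C t)) =
        jk κ D.j ((Cub.sig ^ D.ix s : Cub κ ≃+* Cub κ) (Cub.C t))
      rw [sig_pow_C, jk_C, AlgEquiv.commutes]
    · change lact κ s (jk κ D.j Cub.eta) =
        jk κ D.j ((Cub.sig ^ D.ix s : Cub κ ≃+* Cub κ) Cub.eta)
      rw [jk_eta, lact_inc, D.hix, ← jk_map, map_sig_pow, map_eta]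
  exact DFunLike.congr_fun this x

theorem Spec.exists_jk [IsGalois ℚ F] (D : Spec F) {y : κ ⊗[ℚ] F}
    (hy : ∀ s, D.ix s = 0 → lact κ s y = y) : ∃ x, jk κ D.j x = y := by
  obtain ⟨N, hN, hN'⟩ := D.exists_fix
  obtain ⟨e, he⟩ := exists_equiv κ D.j
  obtain ⟨x, hx⟩ := hN.exists_lmap (x := y) fun s hs => hy s ((hN' s).1 hs)
  exact ⟨e.symm x, by rw [he, e.apply_symm_apply, hx]⟩

theorem hilbert90_loc (c : Aut F → (κ ⊗[ℚ] F)ˣ)
    (hc : ∀ s t, c (s * t) = c s * uact κ s (c t)) : ∃ z, ∀ s, c s = uact κ s z * z⁻¹ := by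
  have := IsArtinianRing.of_finite κ (κ ⊗[ℚ] F)
  obtain ⟨b, y, hy⟩ := Tr1Aux.exists_unit (inc κ F) (fun s : Aut F => s) (fun _ _ h => h) c
  refine ⟨y⁻¹, fun s => ?_⟩
  rw [map_inv, inv_inv, eq_inv_mul_iff_mul_eq, mul_comm]
  refine Units.ext ?_
  rw [Units.val_mul, uact_val, hy, map_sum, Finset.mul_sum]
  refine Fintype.sum_equiv (Equiv.mulLeft s) _ _ fun t => ?_
  rw [map_mul, ← mul_assoc]
  exact congrArg (fun z : (κ ⊗[ℚ] F)ˣ => z.1 * inc κ F (s (t b))) (hc s t).symm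

theorem Spec.map_gt_loc (D : Spec F) {b : ℚ} (g : Gt b κ) (s : Aut F) :
    ph b _ ^ D.ix s * (g.1.1.map (jk κ D.j)).map (lact κ s) =
      g.1.1.map (jk κ D.j) * ph b _ ^ D.ix s := by
  have h := congrArg (jk κ D.j).mapMatrix (Gt.comm_pow g (D.ix s))
  simp only [map_mul, map_pow, RingHom.mapMatrix_apply, ph_map] at h
  rw [h]
  exact congrArg _ (Matrix.ext fun a c => D.lact_jk κ s _)

theorem Spec.descend_loc [IsGalois ℚ F] (D : Spec F) {b : ℚ} (hb : b ≠ 0) (Y : GL I (κ ⊗[ℚ] F))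
    (hY : ∃ ν, Sim (nJ _) (nJ _) Y.1 ν) (c : Aut F → κ ⊗[ℚ] F)
    (hc : ∀ s, ph b _ ^ D.ix s * Y.1.map (lact κ s) = c s • (Y.1 * ph b _ ^ D.ix s)) :
    ∃ (y : (κ ⊗[ℚ] F)ˣ) (h : Gt b κ), h.1.1.map (jk κ D.j) = y.1 • Y.1 := by
  let τ : Aut F → κ ⊗[ℚ] F →+* κ ⊗[ℚ] F := fun s => (lact κ s).toRingEquiv.toRingHom
  obtain ⟨c', h1, h2⟩ := coc_abs D hb τ (lact_one κ) (lact_mul κ) Y c hc
  obtain ⟨z, hz⟩ := hilbert90_loc κ c' fun s t => Units.ext (by
    rw [Units.val_mul, uact_val, h1, h1, h1]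
    exact h2 s t)
  obtain ⟨Y', hY', -⟩ := exists_smul z⁻¹ Y
  have h3 : ∀ s, ph b _ ^ D.ix s * Y'.1.map (τ s) = Y'.1 * ph b _ ^ D.ix s := fun s => by
    rw [hY']
    exact untwist (τ s) Y _ z ((h1 s).symm.trans (congrArg Units.val (hz s))) (hc s)
  obtain ⟨s₁, hs₁⟩ := D.exists_ix
  obtain ⟨ν, hν⟩ := hY
  obtain ⟨h, hh⟩ := desc_abs (b := b) (jk κ D.j) (jk_injective κ D.j) τ (fun s => D.ix s = 0)
    (fun y hy => D.exists_jk κ hy) (τ s₁) (fun x => by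
      have := D.lact_jk κ s₁ x
      rwa [hs₁, pow_one] at this) Y' ⟨_, hY' ▸ hν.smul _⟩ (fun s hs => by
      have := h3 s
      rwa [hs, pow_zero, Matrix.one_mul, Matrix.mul_one] at this) (by
      have := h3 s₁
      rwa [hs₁, pow_one] at this)
  exact ⟨z⁻¹, h, hh.trans hY'⟩

end Local

end Pool.Agent.P.MP_3c2f8c_gt.Ex
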