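import Pool.Agent.P.MP_3c2f8c_gt.Ex.Mt.Desc
import Pool.Agent.Lib.CFT.Main

/-! Ex-Mt-Desc2: global descent and integrality. -/

namespace Pool.Agent.P.MP_3c2f8c_gt.Ex

open Matrix Polynomial Pool.Agent.Lib.CFT
open scoped TensorProduct

variable {F : Type} [Field F] [NumberField F]

open DescAux

theorem Spec.descend₀ [IsGalois ℚ F] (D : Spec F) {b : ℚ} (Y : GL I F)
    (hY : ∃ ν, Sim (nJ F) (nJ F) Y.1 ν)
    (hc : ∀ s : Aut F, ph b F ^ D.ix s * Y.1.map s = Y.1 * ph b F ^ D.ix s) :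
    ∃ h : Gt b ℚ, h.1.1.map D.j = Y.1 := by
  obtain ⟨s₁, hs₁⟩ := D.exists_ix
  obtain ⟨N, hN, hN'⟩ := D.exists_fix
  exact desc_abs (b := b) D.j D.j.injective (fun s : Aut F => s.toRingEquiv.toRingHom)
    (fun s => D.ix s = 0) (fun y hy => (hN y).1 fun s hs => hy s ((hN' s).1 hs))
    s₁.toRingEquiv.toRingHom (fun x => by
      have := D.hix s₁ x
      rwa [hs₁, pow_one] at this) Y hY (fun s hs => by
      have := hc s
      rwa [hs, pow_zero, Matrix.one_mul, Matrix.mul_one] at this) (by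
      have := hc s₁
      rwa [hs₁, pow_one] at this)

theorem Spec.descend [IsGalois ℚ F] (D : Spec F) {b : ℚ} (hb : b ≠ 0) (Y : GL I F)
    (hY : ∃ ν, Sim (nJ F) (nJ F) Y.1 ν) (c : Aut F → F)
    (hc : ∀ s : Aut F, ph b F ^ D.ix s * Y.1.map s = c s • (Y.1 * ph b F ^ D.ix s)) :
    ∃ (y : Fˣ) (h : Gt b ℚ), h.1.1.map D.j = y.1 • Y.1 := by
  obtain ⟨c', h1, h2⟩ := coc_abs D hb (fun s : Aut F => s.toRingEquiv.toRingHom) (fun _ => rfl)
    (fun _ _ _ => rfl) Y c hc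
  obtain ⟨z, hz⟩ := hilbert90 ⊤ c' fun s _ t _ => Units.ext (by
    rw [Units.val_mul, gact_val, h1, h1, h1]
    exact h2 s t)
  obtain ⟨Y', hY', -⟩ := exists_smul z⁻¹ Y
  obtain ⟨ν, hν⟩ := hY
  obtain ⟨h, hh⟩ := D.descend₀ (b := b) Y' ⟨_, hY' ▸ hν.smul _⟩ fun s => by
    rw [hY']
    exact untwist s.toRingEquiv.toRingHom Y _ z
      ((h1 s).symm.trans (congrArg Units.val (hz s trivial))) (hc s)
  exact ⟨z⁻¹, h, hh.trans hY'⟩

namespace Desc2Aux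

variable {p : ℕ} [Fact p.Prime]

/-- The map `jk` as a homomorphism of algebras. -/
noncomputable def jkA (j : Cub ℚ →+* F) : Cub ℚ_[p] →ₐ[ℤ_[p]] Ap p F :=
  { jk ℚ_[p] j with commutes' := fun _ => jk_C ℚ_[p] j _ }

theorem int_jk (j : Cub ℚ →+* F) (x : Cub ℚ_[p]) :
    IsIntegral ℤ_[p] (jk ℚ_[p] j x) ↔ IsIntegral ℤ_[p] x :=
  isIntegral_algHom_iff (jkA j) (jk_injective ℚ_[p] j)

theorem int_mul {X Y : Matrix I I (Ap p F)} (hX : ∀ a c, IsIntegral ℤ_[p] (X a c))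
    (hY : ∀ a c, IsIntegral ℤ_[p] (Y a c)) (a c : I) : IsIntegral ℤ_[p] ((X * Y) a c) := by
  rw [Matrix.mul_apply]
  exact IsIntegral.sum _ fun k _ => (hX a k).mul (hY k c)

theorem int_rat {q : ℚ} (hq : ‖(q : ℚ_[p])‖ ≤ 1) :
    IsIntegral ℤ_[p] (algebraMap ℚ (Ap p F) q) := by
  have h := isIntegral_algebraMap (R := ℤ_[p]) (A := Ap p F) (x := ⟨q, hq⟩)
  have e : algebraMap ℤ_[p] (Ap p F) ⟨q, hq⟩ = algebraMap ℚ (Ap p F) q := by
    rw [IsScalarTower.algebraMap_apply ℚ ℚ_[p] (Ap p F),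
      IsScalarTower.algebraMap_apply ℤ_[p] ℚ_[p] (Ap p F)]
    rfl
  exact e ▸ h

theorem int_ph {b : ℚ} (hb : ‖(b : ℚ_[p])‖ ≤ 1) (a c : I) :
    IsIntegral ℤ_[p] (ph b (Ap p F) a c) := by
  have h := int_rat (F := F) hb
  rw [ph, phi, Matrix.of_apply]
  split_ifs
  · rcases c with c | ⟨c, u⟩ <;> fin_cases c
    exacts [isIntegral_one, isIntegral_one, h.pow 2, h, h, isIntegral_one]
  · exact isIntegral_zero

end Desc2Aux

open Desc2Aux

theorem intA_jk {p : ℕ} [Fact p.Prime] (j : Cub ℚ →+* F) {m : GL I (Cub ℚ_[p])} (hm : m ∈ IntG p) :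
    IntA (glmap (jk ℚ_[p] j) m) := fun x y =>
  ⟨(int_jk j _).2 (hm.1 x y).isIntegral, by
    rw [← map_inv]
    exact (int_jk j _).2 (hm.2 x y).isIntegral⟩

theorem IntA.mul {p : ℕ} [Fact p.Prime] {g h : GL I (Ap p F)} (hg : IntA g) (hh : IntA h) :
    IntA (g * h) := fun x y =>
  ⟨int_mul (fun a c => (hg a c).1) (fun a c => (hh a c).1) x y, by
    rw [_root_.mul_inv_rev]
    exact int_mul (fun a c => (hh a c).2) (fun a c => (hg a c).2) x y⟩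

theorem IntA.inv {p : ℕ} [Fact p.Prime] {g : GL I (Ap p F)} (hg : IntA g) : IntA g⁻¹ :=
  fun x y => ⟨(hg x y).2, by
    rw [inv_inv]
    exact (hg x y).1⟩

theorem finite_not_intA (g : GL I F) :
    {p : Nat.Primes | ¬ IntA (glmap (inc ℚ_[p] F) g)}.Finite := by
  refine (Set.finite_iUnion fun x => Set.finite_iUnion fun y =>
    (finite_not_isIntegral (g.1 x y)).union (finite_not_isIntegral ((g⁻¹).1 x y))).subset
    fun p hp => ?_
  by_contra h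
  simp only [Set.mem_iUnion, Set.mem_union, Set.mem_ofPred_eq, not_exists, not_or, not_not] at h
  refine hp fun x y => ⟨(h x y).1, ?_⟩
  rw [← map_inv]
  exact (h x y).2

namespace Desc2Aux

variable {p : ℕ} [Fact p.Prime]

theorem intA_one : IntA (1 : GL I (Ap p F)) := fun x y => by
  rw [inv_one, and_self, Units.val_one, Matrix.one_apply]
  split_ifs
  exacts [isIntegral_one, isIntegral_zero]

theorem intA_pow {g : GL I (Ap p F)} (hg : IntA g) (i : ℕ) : IntA (g ^ i) := by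
  induction i with
  | zero => exact intA_one
  | succ i ih => exact pow_succ g i ▸ ih.mul hg

theorem intA_lact {g : GL I (Ap p F)} (hg : IntA g) (s : Aut F) :
    IntA (glmap (lact ℚ_[p] s).toRingEquiv.toRingHom g) := fun x y =>
  ⟨isIntegral_lact s (hg x y).1, by
    rw [← map_inv]
    exact isIntegral_lact s (hg x y).2⟩

theorem intA_ph {b : ℚ} (hb : ‖(b : ℚ_[p])‖ = 1) {φ : GL I (Ap p F)} (hφ : φ.1 = ph b _) :
    IntA φ := by
  have b0 : b ≠ 0 := by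
    rintro rfl
    simp at hb
  have e : (φ⁻¹).1 = algebraMap ℚ (Ap p F) (b⁻¹ ^ 2) • (ph b (Ap p F) * ph b (Ap p F)) := by
    refine Units.inv_eq_of_mul_eq_one_right ?_
    rw [hφ, Matrix.mul_smul, ← Matrix.mul_assoc, ph, phi_cube, smul_smul, ← map_pow, ← map_mul,
      ← mul_pow, inv_mul_cancel₀ b0, one_pow, map_one, one_smul]
  refine fun x y => ⟨hφ ▸ int_ph hb.le x y, ?_⟩
  rw [e]
  exact (int_rat (by simp [hb])).mul (int_mul (int_ph hb.le) (int_ph hb.le) x y)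

theorem mem_IntU_of {u : (Ap p F)ˣ} {M : GL I (Ap p F)} (hM : IntA M)
    (h : M.1 = u.1 • (1 : Matrix I I (Ap p F))) : u ∈ Pool.Agent.Lib.CFT.IntU p F := by
  have e : (M⁻¹).1 = (u⁻¹).1 • (1 : Matrix I I (Ap p F)) := by
    refine Units.inv_eq_of_mul_eq_one_right ?_
    rw [h, Matrix.smul_mul, Matrix.one_mul, smul_smul, Units.mul_inv, one_smul]
  have h1 := hM (.inl 0) (.inl 0)
  rw [h, e] at h1
  exact ⟨by simpa using h1.1, by simpa using h1.2⟩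

theorem exists_pow [IsGalois ℚ F] (hp : Unram p F) {y : (Ap p F)ˣ}
    (hy : ∀ s : Aut F, uact ℚ_[p] s y * y⁻¹ ∈ Pool.Agent.Lib.CFT.IntU p F) :
    ∃ t : ℚ_[p]ˣ, Units.map (algebraMap ℚ_[p] (Ap p F)).toMonoidHom t * y ∈ Pool.Agent.Lib.CFT.IntU p F := by
  obtain ⟨w₀, hw₀⟩ := exists_Ab' p F
  have hp0 : (p : ℚ_[p]) ≠ 0 := Nat.cast_ne_zero.2 (Fact.out : p.Prime).ne_zero
  have hp1 : (p : F) ≠ 0 := Nat.cast_ne_zero.2 (Fact.out : p.Prime).ne_zero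
  refine ⟨Units.mk0 (p : ℚ_[p]) hp0 ^ (-ordA w₀ y), mem_IntU_iff.2 fun w hw => ?_⟩
  have e : Units.map (algebraMap ℚ_[p] (Ap p F)).toMonoidHom (Units.mk0 (p : ℚ_[p]) hp0) =
      incU ℚ_[p] F (Units.mk0 (p : F) hp1) :=
    Units.ext ((map_natCast (algebraMap ℚ_[p] (Ap p F)) p).trans
      (map_natCast (inc ℚ_[p] F) p).symm)
  obtain ⟨s, rfl⟩ := Pool.Agent.P.MP_9ec3f0_nt.SY.exists_cj_eq (F := ℚ)
    (Rec3Aux.ab_rat ((ab_dn w₀).2 hw₀) ((ab_dn w).2 hw))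
  have h1 := mem_IntU_iff.1 (hy s) _ hw
  rw [ordA_mul hw, ordA_inv hw, ordA_uact hw₀] at h1
  rw [ordA_mul hw, map_zpow, ordA_zpow hw, e, ordA_incU hw, Units.val_mk0, hp _ hw]
  omega

end Desc2Aux

theorem Spec.mem_K0 [IsGalois ℚ F] (D : Spec F) {b : ℚ} {p : ℕ} [Fact p.Prime] (h7 : p ≠ 7)
    (hp : Unram p F) (hb : ‖(b : ℚ_[p])‖ = 1) {Y : GL I (Ap p F)} (hY : IntA Y) {y : (Ap p F)ˣ}
    {h : Gt b ℚ_[p]} (e : h.1.1.map (jk ℚ_[p] D.j) = y.1 • Y.1) :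
    (QuotientGroup.mk h : UG b ℚ_[p]) ∈ K0 b p := by
  have b0 : b ≠ 0 := by
    rintro rfl
    simp at hb
  obtain ⟨φ, hφ⟩ := exists_phU b0 (Ap p F)
  have hφ' := intA_ph hb hφ
  obtain ⟨t, ht⟩ := exists_pow hp (y := y) fun s => by
    have h1 := D.map_gt_loc ℚ_[p] h s
    refine mem_IntU_of ((hY.mul (intA_pow hφ' (D.ix s))).mul
      ((intA_pow hφ' (D.ix s)).mul (intA_lact hY s)).inv) ?_
    rw [Units.val_mul, Units.mul_inv_eq_iff_eq_mul, Units.val_mul, Units.val_mul,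
      Units.val_pow_eq_pow_val, hφ, Matrix.smul_mul, Matrix.one_mul, Units.val_mul, mul_comm,
      mul_smul]
    erw [Units.val_pow_eq_pow_val φ, hφ]
    rw [e] at h1
    have h2 : (y.1 • Y.1).map (lact ℚ_[p] s) = lact ℚ_[p] s y.1 • Y.1.map (lact ℚ_[p] s) :=
      map_smul' (lact ℚ_[p] s).toRingEquiv.toRingHom _ _
    rw [h2, Matrix.mul_smul, Matrix.smul_mul] at h1
    exact ((congrArg ((y⁻¹).1 • ·) h1).trans (by rw [smul_smul, Units.inv_mul, one_smul])).symm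
  obtain ⟨g, hg, -, hg'⟩ := Gt.exists_smul h t
  obtain ⟨Y', hY', hY''⟩ :=
    exists_smul (Units.map (algebraMap ℚ_[p] (Ap p F)).toMonoidHom t * y) Y
  have e1 : glmap (jk ℚ_[p] D.j) g.1 = Y' := by
    refine Units.ext (Matrix.ext fun a c => ?_)
    have h3 : jk ℚ_[p] D.j (h.1.1 a c) = y.1 * Y.1 a c := congrFun (congrFun e a) c
    change jk ℚ_[p] D.j (g.1.1 a c) = _
    rw [hg, hY', Matrix.smul_apply, Algebra.smul_def, map_mul, h3, Cub.algebraMap_eq, jk_C,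
      Matrix.smul_apply, smul_eq_mul, Units.val_mul, mul_assoc]
    rfl
  refine Ex.mem_K0.2 ⟨g, ⟨fun a c => intC_of_isIntegral h7 ((int_jk D.j _).1 ?_),
    fun a c => intC_of_isIntegral h7 ((int_jk D.j _).1 ?_)⟩, hg'⟩
  · change IsIntegral ℤ_[p] ((glmap (jk ℚ_[p] D.j) g.1).1 a c)
    rw [e1, hY']
    exact ht.1.mul (hY a c).1
  · change IsIntegral ℤ_[p] ((glmap (jk ℚ_[p] D.j) g.1⁻¹).1 a c)
    rw [map_inv, e1, hY'']
    exact ht.2.mul (hY a c).2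

end Pool.Agent.P.MP_3c2f8c_gt.Ex
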