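import Pool.Agent.P.MP_3c2f8c_gt.Ex.MDefs
import Pool.Agent.P.MP_3c2f8c_gt.Ex.Al.Z1

/-! Ex-Mt-Dg: diagonal and permutation matrices. -/

namespace Pool.Agent.P.MP_3c2f8c_gt.Ex

open Matrix Polynomial Pool.Agent.Lib.CFT
open scoped TensorProduct

variable {R S : Type} [CommRing R] [CommRing S]

theorem dg_mul (x y : I → Rˣ) : dg (x * y) = dg x * dg y := by
  simp [dg, diagonal_mul_diagonal]

theorem dg_one : dg (1 : I → Rˣ) = 1 := by
  simp [dg]

theorem dg_const (z : Rˣ) : dg (fun _ : I => z) = z.1 • (1 : Matrix I I R) := by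
  ext a b
  by_cases h : a = b <;> simp [dg, h]

theorem dg_injective : Function.Injective (dg : (I → Rˣ) → Matrix I I R) := by
  intro x y h
  funext a
  have := congrFun (congrFun h a) a
  exact Units.ext (by simpa [dg] using this)

theorem dg_map (f : R →+* S) (x : I → Rˣ) :
    (dg x).map f = dg fun a => Units.map f.toMonoidHom (x a) := by
  rw [dg, diagonal_map (map_zero f)]
  rfl

theorem pm_mul (w w' : Equiv.Perm I) : pm R (w * w') = pm R w * pm R w' := by
  ext a b
  by_cases h : a = w (w' b) <;> simp [pm, mul_apply, h]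

theorem pm_one : pm R 1 = 1 := by
  ext a b
  by_cases h : a = b
  · subst h
    simp [pm]
  · simp [pm, h]

theorem pm_map (f : R →+* S) (w : Equiv.Perm I) : (pm R w).map f = pm S w := by
  ext a b
  simp only [pm, map_apply, of_apply]
  split_ifs <;> simp

theorem pm_transpose (w : Equiv.Perm I) : (pm R w)ᵀ = pm R w⁻¹ := by
  ext a b
  simp only [pm, transpose_apply, of_apply, Equiv.Perm.eq_inv_iff_eq, eq_comm]

theorem pm_dg (w : Equiv.Perm I) (x : I → Rˣ) : pm R w * dg x = dg (x ∘ ⇑w⁻¹) * pm R w := by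
  ext a b
  simp only [pm, dg, mul_diagonal, diagonal_mul, of_apply, Function.comp_apply]
  split_ifs with h
  · simp [h]
  · simp

theorem dg_pm_cancel {w : Equiv.Perm I} {x y : I → Rˣ} (h : dg x * pm R w = dg y * pm R w) :
    x = y := by
  funext a
  have := congrFun (congrFun h a) (w⁻¹ a)
  exact Units.ext (by simpa [dg, pm] using this)

theorem exists_dg_pm (x : I → Rˣ) (w : Equiv.Perm I) : ∃ g : GL I R, g.1 = dg x * pm R w := by
  refine ⟨dgU x * ⟨pm R w, pm R w⁻¹, ?_, ?_⟩, rfl⟩
  · rw [← pm_mul, mul_inv_cancel, pm_one]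
  · rw [← pm_mul, inv_mul_cancel, pm_one]

theorem exists_dg_of_commute {l : I → Rˣ} (hl : ∀ a b, a ≠ b → IsUnit ((l a).1 - (l b).1))
    (Y : GL I R) (h : Y.1 * dg l = dg l * Y.1) : ∃ t : I → Rˣ, Y.1 = dg t := by
  have h0 : ∀ a b, a ≠ b → Y.1 a b = 0 := fun a b hab => by
    have e := congrFun (congrFun h a) b
    simp only [dg, mul_diagonal, diagonal_mul] at e
    refine (hl a b hab).mul_right_eq_zero.1 ?_
    linear_combination -e
  have h1 : ∀ a, Y.1 a a * (Y⁻¹).1 a a = 1 := fun a => by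
    have e := congrFun (congrFun Y.mul_inv a) a
    rw [mul_apply, Finset.sum_eq_single a (fun b _ hb => by rw [h0 a b hb.symm, zero_mul])
      (by simp), one_apply_eq] at e
    exact e
  refine ⟨fun a => Units.mkOfMulEqOne _ _ (h1 a), ?_⟩
  ext a b
  by_cases hab : a = b
  · subst hab
    simp [dg]
  · rw [h0 a b hab, dg, diagonal_apply_ne _ hab]

theorem pull_dg (n : T3 R) (x : I → Rˣ) (a b c : I) :
    n.pull (dg x) a b c = n a b c * ((x a).1 * (x b).1 * (x c).1) := by
  have e : ∀ a, (fun i => dg x i a) = (x a).1 • (Pi.single a 1 : I → R) := fun a => by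
    funext i
    by_cases h : i = a
    · subst h
      simp [dg]
    · simp [dg, h]
  rw [T3.pull, e, e, e, tri_smul₁, tri_smul₂, tri_smul₃, tri_single]
  ring

theorem pull_pm (n : T3 R) (w : Equiv.Perm I) (a b c : I) :
    n.pull (pm R w) a b c = n (w a) (w b) (w c) := by
  have e : ∀ a, (fun i => pm R w i a) = (Pi.single (w a) 1 : I → R) := fun a => by
    funext i
    simp [pm, Pi.single_apply]
  rw [T3.pull, e, e, e, tri_single]

theorem inT_of_sim {n : T3 R} (hn : ∀ a b, Adj a b → IsUnit (n a b (thd a b))) {x : I → Rˣ}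
    {ν : R} (h : Sim n n (dg x) ν) : InT x := by
  have key : ∀ a b, Adj a b → (x a * x b * x (thd a b)).1 = ν := fun a b hab => by
    have e := congrFun (congrFun (congrFun (sim_iff_pull.1 h) a) b) (thd a b)
    rw [pull_dg] at e
    simp only [Pi.smul_apply, smul_eq_mul] at e
    refine (hn a b hab).mul_left_cancel ?_
    rw [Units.val_mul, Units.val_mul, e, mul_comm]
  have h0 : Adj (.inl 0) (.inl 1) := by decide +kernel
  exact ⟨_, fun a b hab => Units.ext ((key a b hab).trans (key _ _ h0).symm)⟩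

theorem InT.sim {n : T3 R} (hn : Supp n) {x : I → Rˣ} (h : InT x) :
    ∃ ν : Rˣ, Sim n n (dg x) ν.1 := by
  obtain ⟨ν, hν⟩ := h
  refine ⟨ν, sim_iff_pull.2 ?_⟩
  funext a b c
  rw [pull_dg]
  simp only [Pi.smul_apply, smul_eq_mul]
  by_cases ht : Tr a b c
  · obtain ⟨h1, rfl⟩ := ht
    rw [← hν a b h1, mul_comm]
    rfl
  · simp [hn a b c ht]

end Pool.Agent.P.MP_3c2f8c_gt.Ex
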