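import Pool.Agent.P.MP_3c2f8c_gt.Ex.Mt.Lat
import Pool.Agent.Lib.CFT.Main
import Pool.Agent.Lib.CFT.Tr2

/-! Ex-Mt-Eta: the twisting cochain from Tate-Nakayama. -/

namespace Pool.Agent.P.MP_3c2f8c_gt.Ex

open Matrix Polynomial Pool.Agent.Lib.CFT
open scoped TensorProduct

variable {F : Type} [Field F] [NumberField F]

namespace EtaAux

/-- The character lattice. -/
abbrev L : Type := Fin 7 → ℤ

variable {A B : Type} [AddCommGroup A] [AddCommGroup B]

theorem wt_wb' (i : Fin 6) : wt (wb i) = Pi.single i.castSucc 1 :=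
  funext fun j => by rw [wt_wb, Pi.single_apply]

theorem ts (φ : L →+ A) (a b : I) (h : Adj a b) :
    φ (wt a) + φ (wt b) + φ (wt (thd a b)) = φ (Pi.single (Fin.last 6) 1) := by
  rw [← map_add, ← map_add]
  congr 1
  funext j
  exact (wt_tr a b h j).trans (Pi.single_apply _ _ _).symm

theorem ext' {φ ψ : L →+ A} (h : ∀ i, φ (Pi.single i 1) = ψ (Pi.single i 1)) : φ = ψ :=
  AddMonoidHom.functions_ext' _ _ _ fun i => AddMonoidHom.ext_int (h i)

theorem hom_ext {φ ψ : L →+ A} (h : ∀ a, φ (wt a) = ψ (wt a)) : φ = ψ := by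
  have hab : Adj (.inl 0) (.inl 1) := by decide +kernel
  refine ext' (Fin.lastCases ?_ fun i => ?_)
  · rw [← ts φ _ _ hab, ← ts ψ _ _ hab, h, h, h]
  · rw [← wt_wb', h]

theorem exists_lin (r : Fin 7 → A) : ∃ φ : L →+ A, ∀ i, φ (Pi.single i 1) = r i :=
  ⟨(Fintype.linearCombination ℤ r).toAddMonoidHom, fun i => by simp⟩

theorem exists_hom {d : I → A} {ν : A} (h : ∀ a b, Adj a b → d a + d b + d (thd a b) = ν) :
    ∃ φ : L →+ A, ∀ a, φ (wt a) = d a := by
  obtain ⟨φ, hφ⟩ := exists_lin (Fin.snoc (fun i => d (wb i)) ν : Fin 7 → A)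
  refine ⟨φ, TorAux.ind (fun i => by rw [wt_wb', hφ, Fin.snoc_castSucc]) fun a b hab ha hb => ?_⟩
  have := ts φ a b hab
  rw [hφ, Fin.snoc_last, ha, hb, ← h a b hab] at this
  exact add_left_cancel this

theorem exists_lift {C D : Type} [CommGroup C] [CommGroup D] (g : C →* D) (ψ : L →+ Additive D)
    (h : ∀ x, ∃ y, g y = (ψ x).toMul) : ∃ φ : L →+ Additive C, ∀ x, g (φ x).toMul = (ψ x).toMul := by
  choose r hr using h
  obtain ⟨φ, hφ⟩ := exists_lin fun i => Additive.ofMul (r (Pi.single i 1))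
  exact ⟨φ, DFunLike.congr_fun (ext' (φ := g.toAdditive.comp φ) fun i =>
    (congrArg g.toAdditive (hφ i)).trans (hr _))⟩

theorem inT {C : Type} [CommGroup C] (φ : L →+ Additive C) : InT fun a => (φ (wt a)).toMul :=
  ⟨_, fun a b h => congrArg Additive.toMul (ts φ a b h)⟩

theorem coc {G C : Type} [Group G] [CommGroup C] [MulDistribMulAction G C] (s : G)
    (φ ψ χ : L →+ Additive C) (r : L →+ L)
    (h : ∀ a, (φ (wt a)).toMul = (ψ (wt a)).toMul * s • (χ (r (wt a))).toMul) (x : L) :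
    (φ x).toMul = (ψ x).toMul * s • (χ (r x)).toMul :=
  DFunLike.congr_fun (hom_ext (φ := φ)
    (ψ := ψ + (MulDistribMulAction.toMonoidHom C s).toAdditive.comp (χ.comp r)) h) x

end EtaAux

open EtaAux in
theorem exists_eta_abs [IsGalois ℚ F] (w : Aut F →* Equiv.Perm I)
    (hw : ∀ s a b, Adj (w s a) (w s b) ↔ Adj a b)
    (h3 : ∀ A : Finset I, (∀ s, ∀ x ∈ A, w s x ∈ A) → 3 ∣ A.card) {c : Aut F} (hc : c * c = 1)
    (hc' : ∀ x y, Rt x y → ¬ ((w c x = x ∧ w c y = y) ∨ (w c x = y ∧ w c y = x)))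
    (Z : Aut F → I → Idele F) (hZ : ∀ s, InT (Z s)) (y : Aut F → Aut F → Fˣ)
    (hco : ∀ s t x, Z s x * s • Z t ((w s)⁻¹ x) = prin F (y s t) * Z (s * t) x) :
    ∃ (η : Aut F → I → Fˣ) (t : I → Idele F) (z : Aut F → Idele F), (∀ s, InT (η s)) ∧ InT t ∧
      ∀ s x, prin F (η s x) * Z s x ^ 2 = z s * s • t ((w s)⁻¹ x) * (t x)⁻¹ := by
  choose r hr using fun s => exists_hom (d := fun a => wt (w s a)) fun a b h => by
    rw [← thd_perm (hw s) h]
    exact ts (AddMonoidHom.id L) _ _ ((hw s a b).2 h)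
  have hr' : ∀ s a, r s⁻¹ (wt a) = wt ((w s)⁻¹ a) := fun s a => by rw [hr, map_inv]
  obtain ⟨deg, hd⟩ := exists_hom (d := fun _ => (1 : ℤ)) fun _ _ _ => rfl
  have hdr : ∀ s x, deg (r s x) = deg x := fun s => DFunLike.congr_fun
    (hom_ext (φ := deg.comp (r s)) fun a => by rw [AddMonoidHom.comp_apply, hr, hd, hd])
  let _ : DistribMulAction (Aut F) L :=
    { smul s x := r s x
      one_smul := DFunLike.congr_fun (hom_ext (φ := r 1) (ψ := AddMonoidHom.id L) fun a => by
        simp [hr])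
      mul_smul s t := DFunLike.congr_fun (hom_ext (φ := r (s * t)) (ψ := (r s).comp (r t))
        fun a => by simp [hr])
      smul_zero s := map_zero (r s)
      smul_add s := map_add (r s) }
  let _ : DistribMulAction (Aut F) deg.ker :=
    { smul s x := ⟨s • x.1, (hdr s x.1).trans x.2⟩
      one_smul x := Subtype.ext (one_smul _ x.1)
      mul_smul s t x := Subtype.ext (mul_smul s t x.1)
      smul_zero s := Subtype.ext (smul_zero s)
      smul_add s x y := Subtype.ext (smul_add s x.1 y.1) }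
  choose ζ hζ using fun s => (hZ s).elim fun ν hν => exists_hom
    (d := fun a => Additive.ofMul (Z s a)) fun a b h => congrArg Additive.ofMul (hν a b h)
  let mk : Additive (Idele F) →+ Additive (Cl F) := (QuotientGroup.mk' _).toAdditive
  obtain ⟨u, hu⟩ := exists_fund F
  refine (tate_nakayama_abs (primeAx F) hu deg.ker.subtype (fun _ _ => rfl) 2
    (fun m hm => ?_) (fun s => mk.comp (ζ s)) fun s t => ?_).elim fun θ hθ => ?_
  rotate_right
  · let π : L →+ deg.ker :=
      (AddMonoidHom.id L - (zmultiplesHom L (wt (.inl 0))).comp deg).codRestrict _ fun x => by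
        change deg (x - deg x • wt _) = 0
        rw [map_sub, map_zsmul, hd, smul_eq_mul, mul_one, sub_self]
    have hπ : ∀ x : deg.ker, π x.1 = x := fun x => Subtype.ext (by
      simp [π, show deg x.1 = 0 from x.2])
    obtain ⟨τ, hτ⟩ := exists_lift (QuotientGroup.mk' (prin F).range) (θ.comp π)
      fun x => QuotientGroup.mk_surjective _
    let δ : Aut F → L →+ Additive (Idele F) := fun s =>
      (MulDistribMulAction.toMonoidHom (Idele F) s).toAdditive.comp (τ.comp (r s⁻¹)) - τ - 2 • ζ s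
    have hδ : ∀ s (x : deg.ker), ∃ y, prin F y = (δ s x.1).toMul := fun s x => by
      have h1 : ∀ x : deg.ker, (θ x).toMul = QuotientGroup.mk (τ x.1).toMul := fun x =>
        (congrArg (fun x => (θ x).toMul) (hπ x)).symm.trans (hτ x.1).symm
      have h2 := hθ s x
      rw [h1, h1, eq_comm, ← div_eq_one, ← div_eq_mul_inv] at h2
      exact (QuotientGroup.eq_one_iff (δ s x.1).toMul).1 h2
    choose ε hε using fun s => exists_lift (prin F)
      ((δ s).comp (deg.ker.subtype.comp π)) fun x => hδ s (π x)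
    refine ⟨fun s a => (ε s (wt a)).toMul, fun a => (τ (wt a)).toMul,
      fun s => (δ s (wt (.inl 0))).toMul⁻¹, fun s => inT _, inT _, fun s a => ?_⟩
    have h1 : prin F (ε s (wt a)).toMul = (δ s (wt a - deg (wt a) • wt (.inl 0))).toMul :=
      hε s (wt a)
    rw [h1, hd, one_smul, map_sub, toMul_sub, div_eq_inv_mul, mul_assoc, mul_assoc]
    congr 1
    simp [δ, hr', hζ, div_eq_mul_inv]
  · obtain ⟨μ, l, k, h1, h2⟩ := lattice_lemma w hw h3 hc hc' (fun a => m (wt a)) _ (ts m)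
      fun a => by simp only [← hr]; exact hm (wt a)
    choose ν hν using fun s => exists_hom (h1 s)
    refine ⟨fun s => (ν s).comp deg.ker.subtype, fun x => ?_⟩
    have := DFunLike.congr_fun (hom_ext (φ := 2 • m)
      (ψ := k • deg + ∑ s, ((ν s).comp (r s⁻¹) - ν s)) fun a => by
        simpa [hd, hr', hν] using h2 a) x.1
    have hs : ∀ s : Aut F, (s • x).1 = r s x.1 := fun _ => rfl
    simpa [show deg x.1 = 0 from x.2, hs] using this
  · refine coc (C := Cl F) s _ _ _ (r s⁻¹) fun a => ?_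
    simp only [AddMonoidHom.comp_apply, hr', hζ]
    change (QuotientGroup.mk (Z (s * t) a) : Cl F) = QuotientGroup.mk (Z s a * s • Z t ((w s)⁻¹ a))
    rw [hco, mul_comm]
    exact (QuotientGroup.mk_mul_of_mem _ (MonoidHom.mem_range.2 ⟨_, rfl⟩)).symm

end Pool.Agent.P.MP_3c2f8c_gt.Ex
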