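import Pool.Agent.P.MP_3c2f8c_gt.Ex.Mt.Fr
import Pool.Agent.Lib.CFT.Main

/-! Ex-Mt-Fr2: invariant sets of weights have cardinality divisible by three. -/

namespace Pool.Agent.P.MP_3c2f8c_gt.Ex

open Matrix Polynomial Pool.Agent.Lib.CFT
open scoped TensorProduct

variable {F : Type} [Field F] [NumberField F] {D : Spec F} {b : ℚ} {γ : UG b ℚ} {P : GL I F}
  {a : Aut F → I → Fˣ}

namespace Fr2Aux

theorem prod_cocycle (hb : b ≠ 0) (h : Frame D b γ P a) (A : Finset I)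
    (hA : ∀ s, ∀ x ∈ A, D.w s x ∈ A) (s t : Aut F) :
    (∏ x ∈ A, a s x).1 * s (∏ x ∈ A, a t x).1 =
      ((b : F) ^ (2 * A.card)) ^ D.cy s t * (∏ x ∈ A, a (s * t) x).1 := by
  have e : ∏ x ∈ A, s (a t x).1 = ∏ x ∈ A, s (a t ((D.w s)⁻¹ x)).1 := by
    refine Finset.prod_nbij' (fun x => D.w s x) (fun x => (D.w s)⁻¹ x) (fun x hx => hA s x hx)
      (fun x hx => ?_) (fun x _ => by simp) (fun x _ => by simp) (fun x _ => by simp)
    rw [← map_inv]
    exact hA _ x hx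
  simp only [Units.coe_prod, map_prod]
  rw [e, ← Finset.prod_mul_distrib, Finset.prod_congr rfl fun x _ => h.cocycle hb s t x,
    Finset.prod_mul_distrib, Finset.prod_const]
  congr 1
  ring

theorem exists_nrm [IsGalois ℚ F] (D : Spec F) (β : ℚ) (d : Aut F → Fˣ)
    (hd : ∀ s t, (d s).1 * s (d t).1 = (β : F) ^ D.cy s t * (d (s * t)).1) :
    ∃ u : Cub ℚ, Cub.nrm u = β := by
  obtain ⟨N, hN, hN'⟩ := D.exists_fix
  obtain ⟨z, hz⟩ := hilbert90 N d fun s hs t ht => Units.ext (by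
    have := hd s t
    rw [Spec.cy, (hN' s).1 hs, (hN' t).1 ht] at this
    simpa [gact_val] using this.symm)
  have hz0 : ∀ s : Aut F, s z.1 ≠ 0 := fun s => by simpa using z.ne_zero
  let e : Aut F → F := fun s => (d s).1 * z.1 / s z.1
  have he : ∀ s t, e s * s (e t) = (β : F) ^ D.cy s t * e (s * t) := fun s t => by
    have h1 := hd s t
    have h2 := hz0 s
    have h3 := hz0 (s * t)
    have h4 : s (t z.1) = (s * t) z.1 := rfl
    simp only [e, map_div₀, map_mul, h4]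
    field_simp
    linear_combination h1
  have he1 : ∀ s, D.ix s = 0 → e s = 1 := fun s hs => by
    have h1 := congrArg Units.val (hz s ((hN' s).2 hs))
    rw [Units.val_mul, gact_val, Units.val_inv_eq_inv_val] at h1
    have h2 := hz0 s
    have h3 := z.ne_zero
    simp only [e, h1]
    field_simp
  obtain ⟨s, hs⟩ := D.exists_ix
  have fix : ∀ n ∈ N, n (e s) = e s := fun n hn => by
    have hn0 := (hN' n).1 hn
    have h1 := he n s
    rw [he1 n hn0, Spec.cy, hn0, hs] at h1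
    have hn' : D.ix (s⁻¹ * n * s) = 0 := (D.ix_eq_zero _).2 fun x => by
      have : n (s (D.j x)) = s (D.j x) := by
        rw [D.hix s x]; exact (D.ix_eq_zero n).1 hn0 _
      change s⁻¹ (n (s (D.j x))) = _
      rw [this]
      exact s.symm_apply_apply _
    have h2 := he s (s⁻¹ * n * s)
    rw [he1 _ hn', Spec.cy, hn', hs, show s * (s⁻¹ * n * s) = n * s by group] at h2
    simp at h1 h2
    rw [h1, h2]
  obtain ⟨u, hu⟩ := (hN (e s)).1 fix
  have i2 : D.ix (s * s) = 2 := by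
    have := D.ix_add s s
    rw [Spec.cy, hs] at this
    omega
  have i3 : D.ix (s * (s * s)) = 0 := by
    have := D.ix_add s (s * s)
    rw [Spec.cy, hs, i2] at this
    omega
  have h1 := he s s
  have h2 := he s (s * s)
  rw [Spec.cy, hs] at h1
  rw [Spec.cy, hs, i2, he1 _ i3] at h2
  simp only [Nat.reduceAdd, Nat.reduceDiv, pow_zero, one_mul, pow_one, mul_one] at h1 h2
  have hj : ∀ x, s (D.j x) = D.j (Cub.sig x) := fun x => by rw [D.hix s x, hs, pow_one]
  rw [← h1, ← hu, map_mul, hj, hj, ← map_mul, ← map_mul, ← mul_assoc, ← Cub.C_nrm] at h2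
  refine ⟨u, ?_⟩
  have h3 : D.j (Cub.C (Cub.nrm u)) = ((Cub.nrm u : ℚ) : F) :=
    eq_ratCast (D.j.comp Cub.C) _
  rw [h3] at h2
  exact_mod_cast h2

end Fr2Aux

theorem Frame.three_dvd [IsGalois ℚ F] (hb : Good b) (h : Frame D b γ P a) (A : Finset I)
    (hA : ∀ s, ∀ x ∈ A, D.w s x ∈ A) : 3 ∣ A.card := by
  obtain ⟨u, hu⟩ := Fr2Aux.exists_nrm D (b ^ (2 * A.card)) (fun s => ∏ x ∈ A, a s x) fun s t => by
    rw [Fr2Aux.prod_cocycle hb.ne h A hA]; push_cast; rfl
  have hb0 := hb.ne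
  by_contra hn
  obtain ⟨k, hk | hk⟩ : ∃ k, A.card = 3 * k + 1 ∨ A.card = 3 * k + 2 := ⟨A.card / 3, by omega⟩
  · refine hb.not_norm (u * Cub.C (b ^ (2 * k))⁻¹) ?_
    rw [Cub.nrm_mul, Cub.nrm_C, hu, hk]
    field_simp
    ring
  · refine hb.not_norm (u * u * Cub.C (b ^ (4 * k + 2))⁻¹) ?_
    rw [Cub.nrm_mul, Cub.nrm_mul, Cub.nrm_C, hu, hk]
    field_simp
    ring

end Pool.Agent.P.MP_3c2f8c_gt.Ex
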