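import Pool.Agent.P.MP_3c2f8c_gt.Ex.Mt.Fr

/-! Ex-Mt-Fr3: the action of complex conjugation on the weights. -/

namespace Pool.Agent.P.MP_3c2f8c_gt.Ex

open Matrix Polynomial Pool.Agent.Lib.CFT
open scoped TensorProduct

variable {F : Type} [Field F] [NumberField F] {D : Spec F} {b : ℚ} {γ : UG b ℚ} {P : GL I F}
  {a : Aut F → I → Fˣ}

namespace Fr3Aux

theorem root_real {θ : ℂ} (h : θ ^ 3 + θ ^ 2 - 2 * θ - 1 = 0) : starRingEnd ℂ θ = θ := by
  obtain ⟨r, hr⟩ := exists_eta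
  have hr' : (r : ℂ) ^ 3 + (r : ℂ) ^ 2 - 2 * r - 1 = 0 := by exact_mod_cast hr
  have : (θ - r) * (θ - ((r ^ 2 - 2 : ℝ) : ℂ)) * (θ - ((1 - r - r ^ 2 : ℝ) : ℂ)) = 0 := by
    push_cast
    linear_combination h + (-(θ * (r + 1)) + θ + r ^ 2 - 1) * hr'
  rcases mul_eq_zero.1 this with h1 | h1
  · rcases mul_eq_zero.1 h1 with h1 | h1
    · rw [sub_eq_zero.1 h1, Complex.conj_ofReal]
    · rw [sub_eq_zero.1 h1, Complex.conj_ofReal]
  · rw [sub_eq_zero.1 h1, Complex.conj_ofReal]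

theorem no_plane {p q : I → ℂ} (hpp : crs (nJ ℂ) p p = 0) (hpq : crs (nJ ℂ) p q = 0)
    (hqp : crs (nJ ℂ) q p = 0) (hqq : crs (nJ ℂ) q q = 0)
    (hp : ∃ α β : ℂ, starRingEnd ℂ ∘ p = α • p + β • q)
    (hq : ∃ α β : ℂ, starRingEnd ℂ ∘ q = α • p + β • q) (hp0 : p ≠ 0) : ∃ t : ℂ, q = t • p := by
  let W : (I → ℝ) → Prop := fun u => ∃ α β : ℂ, Complex.ofRealHom ∘ u = α • p + β • q
  have hW : ∀ u v, W u → W v → crs (nJ ℝ) u v = 0 := by
    rintro u v ⟨α, β, hu⟩ ⟨α', β', hv⟩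
    have h := crs_map Complex.ofRealHom (nJ ℝ) u v
    rw [nJ_map, hu, hv] at h
    simp only [crs_add_left, crs_add_right, crs_smul_left, crs_smul_right, hpp, hpq, hqp, hqq,
      smul_zero, add_zero] at h
    funext i
    have := congrFun h i
    simpa using this.symm
  have re : ∀ v : I → ℂ, (∃ α β : ℂ, v = α • p + β • q) →
      (∃ α β : ℂ, starRingEnd ℂ ∘ v = α • p + β • q) →
      W (fun i => (v i).re) ∧ W fun i => (v i).im := by
    rintro v ⟨α, β, h₁⟩ ⟨α', β', h₂⟩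
    refine ⟨⟨(α + α') / 2, (β + β') / 2, funext fun i => ?_⟩,
      ⟨(α - α') / (2 * Complex.I), (β - β') / (2 * Complex.I), funext fun i => ?_⟩⟩
    · have e₁ := congrFun h₁ i
      have e₂ := congrFun h₂ i
      simp only [Function.comp_apply, Pi.add_apply, Pi.smul_apply, smul_eq_mul,
        Complex.ofRealHom_eq_coe] at e₁ e₂ ⊢
      rw [Complex.re_eq_add_conj, e₂, e₁]
      ring
    · have e₁ := congrFun h₁ i
      have e₂ := congrFun h₂ i
      simp only [Function.comp_apply, Pi.add_apply, Pi.smul_apply, smul_eq_mul,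
        Complex.ofRealHom_eq_coe] at e₁ e₂ ⊢
      rw [Complex.im_eq_sub_conj, e₂, e₁]
      ring
  obtain ⟨p₁, p₂⟩ := re p ⟨1, 0, by simp⟩ hp
  obtain ⟨q₁, q₂⟩ := re q ⟨0, 1, by simp⟩ hq
  obtain ⟨u, hu, hu0⟩ : ∃ u, W u ∧ u ≠ 0 := by
    by_contra hn
    push Not at hn
    refine hp0 (funext fun i => Complex.ext ?_ ?_)
    · exact congrFun (hn _ p₁) i
    · exact congrFun (hn _ p₂) i
  have key : ∀ v : I → ℂ, W (fun i => (v i).re) → W (fun i => (v i).im) →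
      ∃ t : ℂ, ∀ i, v i = t * u i := fun v h₁ h₂ => by
    obtain ⟨c₁, e₁⟩ := noPlane_nJ u _ (hW _ _ hu hu) (hW _ _ hu h₁) (hW _ _ h₁ h₁) hu0
    obtain ⟨c₂, e₂⟩ := noPlane_nJ u _ (hW _ _ hu hu) (hW _ _ hu h₂) (hW _ _ h₂ h₂) hu0
    refine ⟨⟨c₁, c₂⟩, fun i => Complex.ext ?_ ?_⟩
    · simpa using congrFun e₁ i
    · simpa using congrFun e₂ i
  obtain ⟨s, hs⟩ := key p p₁ p₂
  obtain ⟨t, ht⟩ := key q q₁ q₂
  have hs0 : s ≠ 0 := fun h => hp0 (funext fun i => by simp [hs i, h])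
  refine ⟨t / s, funext fun i => ?_⟩
  rw [Pi.smul_apply, smul_eq_mul, hs, ht]
  field_simp

end Fr3Aux

theorem Frame.exists_conj [IsGalois ℚ F] (hb : b ≠ 0) (h : Frame D b γ P a) :
    ∃ c : Aut F, c * c = 1 ∧ ∀ x y, Rt x y →
      ¬ ((D.w c x = x ∧ D.w c y = y) ∨ (D.w c x = y ∧ D.w c y = x)) := by
  let φ : F →+* ℂ := (IsAlgClosed.lift : F →ₐ[ℚ] ℂ).toRingHom
  obtain ⟨σ, hσ⟩ := NumberField.ComplexEmbedding.exists_comp_symm_eq_of_comp_eq (k := ℚ) φ
    ((starRingEnd ℂ).comp φ) (Subsingleton.elim _ _)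
  have hc : ∀ x, φ (σ.symm x) = starRingEnd ℂ (φ x) := fun x => congr($hσ x)
  refine ⟨σ.symm, ?_, fun x y hxy hw => ?_⟩
  · ext x
    apply φ.injective
    change φ (σ.symm (σ.symm x)) = φ x
    rw [hc, hc, Complex.conj_conj]
  have hix : D.ix σ.symm = 0 := (D.ix_eq_zero _).2 fun u => by
    apply φ.injective
    have hη := Fr3Aux.root_real (Cub2Aux.hom_root (φ.comp D.j))
    have hq : ∀ t : ℚ, (φ.comp D.j) (Cub.C t) = (t : ℂ) := fun t =>
      eq_ratCast ((φ.comp D.j).comp Cub.C) t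
    rw [hc]
    change starRingEnd ℂ ((φ.comp D.j) u) = (φ.comp D.j) u
    rw [Cub2Aux.hom_apply (φ.comp D.j) u]
    simp only [hq, map_add, map_mul, map_pow, hη, map_ratCast]
  have hcoc := h.coc σ.symm
  rw [hix, pow_zero, Matrix.one_mul] at hcoc
  let q : I → I → ℂ := fun u i => φ (P.1 i u)
  have hq : ∀ u, starRingEnd ℂ ∘ q u = φ (a σ.symm (D.w σ.symm u)).1 • q (D.w σ.symm u) := by
    intro u
    funext i
    have e := congrFun (congrFun hcoc i) u
    rw [← Matrix.mul_assoc, Matrix.mul_apply, Finset.sum_eq_single (D.w σ.symm u)] at e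
    · simp only [dg, mul_diagonal, pm, of_apply, if_true, mul_one, map_apply] at e
      simp only [Function.comp_apply, q, ← hc, e, map_mul, Pi.smul_apply, smul_eq_mul, mul_comm]
    · intro v _ hv
      simp [pm, hv]
    · simp
  obtain ⟨ν, hν⟩ := h.sim
  have hcr : ∀ u v, ¬ Adj u v → crs (nJ ℂ) (q u) (q v) = 0 := fun u v huv => by
    have e := hν.crs (Pi.single u 1) (Pi.single v 1)
    have e0 : crs (eT D.lam) (Pi.single u 1) (Pi.single v 1) = 0 := funext fun c => by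
      rw [crs_single]
      exact supp_eT u v c fun ht => huv ht.1
    rw [e0, mulVec_zero, smul_zero, mulVec_single_one, mulVec_single_one] at e
    have e' := crs_map φ (nJ F) (P.1.col u) (P.1.col v)
    rw [nJ_map, e] at e'
    refine Eq.trans e' (funext fun i => by simp)
  have hinj : ∀ v : I → ℂ, P.1.map φ *ᵥ v = 0 → v = 0 := fun v hv => by
    have e : (P⁻¹).1.map φ * P.1.map φ = 1 := by
      rw [← Matrix.map_mul, ← Units.val_mul, inv_mul_cancel]
      simp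
    rw [← one_mulVec v, ← e, ← mulVec_mulVec, hv, mulVec_zero]
  have hcol : ∀ u, P.1.map φ *ᵥ Pi.single u 1 = q u := fun u => by
    rw [mulVec_single_one]; rfl
  have hx0 : q x ≠ 0 := fun h0 => by
    have := congrFun (hinj _ ((hcol x).trans h0)) x
    simp at this
  obtain ⟨t, ht⟩ := Fr3Aux.no_plane (hcr x x (not_adj_self x)) (hcr x y hxy.2)
    (hcr y x fun h => hxy.2 h.symm) (hcr y y (not_adj_self y))
    (by
      rw [hq]
      rcases hw with hw | hw <;> rw [hw.1]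
      exacts [⟨φ (a σ.symm x).1, 0, by simp⟩, ⟨0, φ (a σ.symm y).1, by simp⟩])
    (by
      rw [hq]
      rcases hw with hw | hw <;> rw [hw.2]
      exacts [⟨0, φ (a σ.symm y).1, by simp⟩, ⟨φ (a σ.symm x).1, 0, by simp⟩]) hx0
  have := congrFun (hinj (Pi.single y 1 - t • Pi.single x 1)
    (by rw [mulVec_sub, mulVec_smul, hcol, hcol, ht, sub_self])) y
  simp [hxy.1.symm] at this

end Pool.Agent.P.MP_3c2f8c_gt.Ex
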