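import Pool.Agent.P.MP_3c2f8c_gt.Ex.Mt.Eta
import Pool.Agent.P.MP_3c2f8c_gt.Ex.Mt.Cent2
import Pool.Agent.P.MP_3c2f8c_gt.Ex.Mt.Fr2
import Pool.Agent.P.MP_3c2f8c_gt.Ex.Mt.Fr3

/-! Ex-Mt-Eta2: the twisting cochain of a frame. -/

namespace Pool.Agent.P.MP_3c2f8c_gt.Ex

open Matrix Polynomial Pool.Agent.Lib.CFT
open scoped TensorProduct

variable {F : Type} [Field F] [NumberField F]

namespace Eta2Aux

/-- The idele supported on a finite set of primes. -/
noncomputable def loc (F : Type) [Field F] [NumberField F] (S' : Finset Nat.Primes) :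
    (∀ p : Nat.Primes, (Ap p.1 F)ˣ) →* Idele F where
  toFun u := ⟨(fun p => if p ∈ S' then u p else 1, 1), S'.finite_toSet.subset fun p hp => by
    by_contra h
    refine hp ?_
    change (if p ∈ S' then u p else 1) ∈ Lib.CFT.IntU p F
    rw [if_neg (show p ∉ S' from h)]
    exact one_mem _⟩
  map_one' := Subtype.ext (Prod.ext (funext fun p => ite_self _) rfl)
  map_mul' u v := Subtype.ext (Prod.ext (funext fun p => by
    change (if p ∈ S' then u p * v p else 1) =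
      (if p ∈ S' then u p else 1) * if p ∈ S' then v p else 1
    split_ifs
    exacts [rfl, (mul_one 1).symm]) (mul_one 1).symm)

theorem loc_fst (S' : Finset Nat.Primes) (u : ∀ p : Nat.Primes, (Ap p.1 F)ˣ) (p : Nat.Primes) :
    (loc F S' u).1.1 p = if p ∈ S' then u p else 1 := rfl

theorem loc_congr {S' : Finset Nat.Primes} {u v : ∀ p : Nat.Primes, (Ap p.1 F)ˣ}
    (h : ∀ p ∈ S', u p = v p) : loc F S' u = loc F S' v :=
  Subtype.ext (Prod.ext (funext fun p => if_congr Iff.rfl rfl rfl |>.trans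
    (ite_congr rfl (h p) fun _ => rfl)) rfl)

theorem smul_loc (S' : Finset Nat.Primes) (s : Aut F) (u : ∀ p : Nat.Primes, (Ap p.1 F)ˣ) :
    s • loc F S' u = loc F S' fun p => uact ℚ_[p] s (u p) :=
  Subtype.ext (Prod.ext (funext fun p => by
    rw [smul_fst, loc_fst, loc_fst, apply_ite (uact ℚ_[p] s), map_one]) (map_one (uact ℝ s)))

/-- The idele that is equal to a global element on a finite set of primes. -/
noncomputable def gl (F : Type) [Field F] [NumberField F] (S' : Finset Nat.Primes) :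
    Fˣ →* Idele F := (loc F S').comp (MonoidHom.pi fun p => incU ℚ_[p] F)

theorem smul_gl (S' : Finset Nat.Primes) (s : Aut F) (x : Fˣ) :
    s • gl F S' x = gl F S' (gact s x) := smul_loc S' s _

theorem locTw_iff {D : Spec F} {S' : Finset Nat.Primes} {η a : Aut F → I → Fˣ} :
    LocTw D S' η a ↔ ∃ (t : I → Idele F) (z : Aut F → Idele F), InT t ∧ ∀ s x,
      prin F (η s x) * gl F S' (a s x) ^ 2 = z s * s • t ((D.w s)⁻¹ x) * (t x)⁻¹ := by
  have h1 : ∀ (p : Nat.Primes) (u v : Fˣ), incU ℚ_[p] F (u * if p ∈ S' then v ^ 2 else 1) =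
      (prin F u * gl F S' v ^ 2).1.1 p := fun p u v => by
    rw [← map_pow, map_mul, apply_ite (incU ℚ_[p] F), map_one]
    rfl
  have h2 : ∀ u v : Fˣ, incU ℝ F u = (prin F u * gl F S' v ^ 2).1.2 := fun u v => by
    rw [← map_pow]
    exact (mul_one _).symm
  refine exists₂_congr fun t z => and_congr_right fun _ => ⟨fun h s x => ?_, fun h => ?_⟩
  · exact Subtype.ext (Prod.ext (funext fun p => (h1 p _ _).symm.trans (h.1 p s x))
      ((h2 _ _).symm.trans (h.2 s x)))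
  · exact ⟨fun p s x => by rw [h1, h], fun s x => by rw [h2 _ (a s x), h]⟩

theorem exists_cube (y : ℝ) : ∃ r : ℝ, r ^ 3 = y := by
  rcases le_total 0 y with h | h
  · exact ⟨_, Real.rpow_inv_natCast_pow h three_ne_zero⟩
  · refine ⟨-((-y) ^ ((3 : ℕ) : ℝ)⁻¹), ?_⟩
    rw [Odd.neg_pow (by decide), Real.rpow_inv_natCast_pow (neg_nonneg.2 h) three_ne_zero, neg_neg]

theorem inc_rat (κ : Type) [Field κ] [Algebra ℚ κ] (y : ℚ) :
    inc κ F (y : F) = algebraMap κ (κ ⊗[ℚ] F) (algebraMap ℚ κ y) :=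
  ((Algebra.TensorProduct.includeRight : F →ₐ[ℚ] κ ⊗[ℚ] F).commutes y).trans
    (IsScalarTower.algebraMap_apply ℚ κ _ y)

theorem isIntegral_jk {p : ℕ} [Fact p.Prime] (j : Cub ℚ →+* F) (k : ℕ) {x : Cub ℚ_[p]}
    (hx : IntC x) : IsIntegral ℤ_[p] (jk ℚ_[p] j ((Cub.sig ^ k : Cub ℚ_[p] ≃+* Cub ℚ_[p]) x)) := by
  have h : IntC ((Cub.sig ^ k : Cub ℚ_[p] ≃+* Cub ℚ_[p]) x) := by
    induction k with
    | zero => exact hx
    | succ k ih =>
      rw [pow_succ']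
      exact ih.sig
  exact h.isIntegral.map_of_comp_eq (RingHom.id _) _ (RingHom.ext fun t => (jk_C ℚ_[p] j _).symm)

theorem exists_om (D : Spec F) {b : ℚ} {S' : Finset Nat.Primes} (hb : b ≠ 0) (hS : Bal b S') :
    ∃ (y : Fˣ) (W : Aut F → Idele F), ∀ s t, W s * s • W t * prin F y ^ D.cy s t =
      gl F S' (Units.mk0 (b : F) (Rat.cast_ne_zero.2 hb) ^ 2) ^ D.cy s t * W (s * t) := by
  obtain ⟨y, ω, hy, hfin, hω⟩ := hS
  obtain ⟨r, hr⟩ := exists_cube (y : ℝ)⁻¹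
  have hy' : (y : ℝ) ≠ 0 := Rat.cast_ne_zero.2 hy
  have hr0 : r ≠ 0 := fun h => inv_ne_zero hy' (by rw [← hr, h]; norm_num)
  obtain ⟨Ω, h1, h2⟩ : ∃ Ω : ℕ → Idele F, (∀ k (p : Nat.Primes), ((Ω k).1.1 p).1 =
      jk ℚ_[p] D.j ((Cub.sig ^ k : Cub ℚ_[p] ≃+* Cub ℚ_[p]) (ω p).1)) ∧
      ∀ k, (Ω k).1.2.1 = algebraMap ℝ (Ai F) r :=
    ⟨fun k => ⟨(fun p => Units.map ((jk ℚ_[p] D.j).comp
      (Cub.sig ^ k : Cub ℚ_[p] ≃+* Cub ℚ_[p]).toRingHom).toMonoidHom (ω p),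
      Units.map (algebraMap ℝ (Ai F)).toMonoidHom (Units.mk0 r hr0)), hfin.subset fun p hp h =>
        hp ⟨isIntegral_jk D.j k h.1, isIntegral_jk D.j k h.2⟩⟩, fun _ _ => rfl, fun _ => rfl⟩
  have ext : ∀ u v : Idele F, (∀ p, (u.1.1 p).1 = (v.1.1 p).1) → u.1.2.1 = v.1.2.1 → u = v :=
    fun u v h h' => Subtype.ext (Prod.ext (funext fun p => Units.ext (h p)) (Units.ext h'))
  have h3 : ∀ (s : Aut F) k, s • Ω k = Ω (D.ix s + k) := fun s k => ext _ _ (fun p => by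
    rw [smul_fst, uact_val, h1, h1, Spec.lact_jk, pow_add]
    rfl) (by rw [smul_snd, uact_val, h2, h2, AlgEquiv.commutes])
  have h4 : ∀ k, Ω (3 + k) = Ω k := fun k => ext _ _ (fun p => by
    rw [h1, h1, pow_add]
    exact congrArg _ (Cub.sig_sig_sig _)) (by rw [h2, h2])
  have h5 : prin F (Units.mk0 (y : F) (Rat.cast_ne_zero.2 hy)) * (Ω 0 * Ω 1 * Ω 2) =
      gl F S' (Units.mk0 (b : F) (Rat.cast_ne_zero.2 hb) ^ 2) := by
    refine ext _ _ (fun p => ?_) ?_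
    · have e1 : ((Ω 0).1.1 p).1 * ((Ω 1).1.1 p).1 * ((Ω 2).1.1 p).1 =
          algebraMap ℚ_[p] (Ap p.1 F) (Cub.nrm (ω p).1) := by
        rw [h1, h1, h1, ← map_mul, ← map_mul, ← jk_C ℚ_[p] D.j, Cub.C_nrm]
        rfl
      change inc ℚ_[p] F (y : F) * (((Ω 0).1.1 p).1 * ((Ω 1).1.1 p).1 * ((Ω 2).1.1 p).1) =
        (if p ∈ S' then incU ℚ_[p] F _ else 1).1
      rw [e1, inc_rat, ← map_mul, eq_ratCast, hω]
      split_ifs
      · change _ = inc ℚ_[p] F ((b : F) ^ 2)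
        rw [map_pow, map_pow, inc_rat, eq_ratCast]
      · exact map_one _
    · change inc ℝ F (y : F) * ((Ω 0).1.2.1 * (Ω 1).1.2.1 * (Ω 2).1.2.1) = 1
      rw [h2, h2, h2, inc_rat, ← map_mul, ← map_mul, ← map_mul, eq_ratCast, ← pow_three', hr,
        mul_inv_cancel₀ hy', map_one]
  have h6 : ∀ n c, ∏ k ∈ Finset.range (n + 3 * c), Ω k =
      (Ω 0 * Ω 1 * Ω 2) ^ c * ∏ k ∈ Finset.range n, Ω k := fun n c => by
    induction c with
    | zero => simp
    | succ c ih =>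
      rw [show n + 3 * (c + 1) = 3 + (n + 3 * c) by ring, Finset.prod_range_add]
      simp only [h4]
      rw [ih, pow_succ', mul_assoc (Ω 0 * Ω 1 * Ω 2)]
      simp [Finset.prod_range_succ]
  refine ⟨Units.mk0 (y : F) (Rat.cast_ne_zero.2 hy), fun s => ∏ k ∈ Finset.range (D.ix s), Ω k,
    fun s t => ?_⟩
  rw [Finset.smul_prod']
  simp only [h3]
  rw [← Finset.prod_range_add, D.ix_add, h6, ← h5, mul_pow (prin F _), mul_comm,
    mul_assoc (prin F _ ^ _)]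

end Eta2Aux

open Eta2Aux

variable [IsGalois ℚ F] {D : Spec F} {b : ℚ} {γ : UG b ℚ} {P : GL I F} {a : Aut F → I → Fˣ}
  {S' : Finset Nat.Primes}

theorem Frame.exists_eta (hb : Good b) (hS : Bal b S') (h : Frame D b γ P a) :
    ∃ η : Aut F → I → Fˣ, (∀ s, InT (η s)) ∧ LocTw D S' η a := by
  obtain ⟨y, W, hW⟩ := exists_om D hb.ne hS
  obtain ⟨c, hc, hc'⟩ := h.exists_conj hb.ne
  obtain ⟨η, t, z, h1, h2, h3⟩ := exists_eta_abs D.w D.adj (h.three_dvd hb) hc hc'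
    (fun s x => gl F S' (a s x) * (W s)⁻¹)
    (fun s => ((h.inT hb.ne s).map (gl F S')).mul (inT_const (W s)⁻¹))
    (fun s t => y ^ D.cy s t) fun s t x => by
      have e : a s x * gact s (a t ((D.w s)⁻¹ x)) =
          (Units.mk0 (b : F) (Rat.cast_ne_zero.2 hb.ne) ^ 2) ^ D.cy s t * a (s * t) x :=
        Units.ext (by
          rw [← pow_mul]
          simpa [gact_val] using h.cocycle hb.ne s t x)
      have e' := congrArg (gl F S') e
      rw [map_mul, map_mul, map_pow, ← smul_gl] at e'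
      rw [smul_mul', smul_inv', map_pow, mul_mul_mul_comm, e', ← mul_inv,
        eq_mul_inv_of_mul_eq (hW s t)]
      simp only [mul_inv, inv_inv]
      rw [mul_comm _ (gl F S' (a (s * t) x)), mul_assoc, ← mul_assoc (_ ^ _), ← mul_assoc (_ ^ _),
        mul_inv_cancel, one_mul]
      ac_rfl
  refine ⟨η, h1, locTw_iff.2 ⟨t, fun s => W s ^ 2 * z s, h2, fun s x => ?_⟩⟩
  rw [mul_assoc (W s ^ 2), mul_assoc (W s ^ 2), ← h3, mul_pow, inv_pow, mul_comm (W s ^ 2),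
    mul_assoc, inv_mul_cancel_right]

theorem LocTw.transfer (hb : b ≠ 0) {γ' : UG b ℚ} {P' : GL I F} {a' η : Aut F → I → Fˣ}
    (h : Frame D b γ P a) (h' : Frame D b γ' P' a')
    (hc : ∀ p ∈ S', IsConj (Phi b γ p) (Phi b γ' p)) (hη : LocTw D S' η a) : LocTw D S' η a' := by
  obtain ⟨t, z, h1, h2⟩ := locTw_iff.1 hη
  choose! u hu hu' using fun p hp => h.coh_loc hb h' p (hc p hp)
  choose! ν hν using hu
  have h3 : InT fun x => loc F S' fun p => u p x := ⟨loc F S' ν, fun x y hxy => by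
    rw [← map_mul, ← map_mul]
    exact loc_congr fun p hp => hν p hp x y hxy⟩
  refine locTw_iff.2 ⟨_, z, h1.mul (h3.pow 2).inv, fun s x => ?_⟩
  have h4 : gl F S' (a s x) * (loc F S' fun p => u p x) =
      gl F S' (a' s x) * s • loc F S' fun p => u p ((D.w s)⁻¹ x) := by
    rw [smul_loc]
    exact (map_mul (loc F S') _ _).symm.trans
      ((loc_congr fun p hp => hu' p hp s x).trans (map_mul (loc F S') _ _))
  simp only [Pi.mul_apply, Pi.inv_apply, Pi.pow_apply, smul_mul', smul_inv', smul_pow']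
  rw [← mul_inv_eq_iff_eq_mul.2 h4, mul_pow, mul_pow, ← mul_assoc, ← mul_assoc, h2]
  rw [← Additive.ofMul.apply_eq_iff_eq]
  simp only [ofMul_mul, ofMul_inv, ofMul_pow]
  abel

theorem LocTw.cocycle {η : Aut F → I → Fˣ} (hη : LocTw D S' η a) (s t : Aut F) : ∃ κ : Fˣ, ∀ x,
    η s x * gact s (η t ((D.w s)⁻¹ x)) = κ * η (s * t) x := by
  obtain ⟨T, z, -, -, h⟩ := hη
  have h1 : ∀ x, incU ℝ F (η s x * gact s (η t ((D.w s)⁻¹ x)) * (η (s * t) x)⁻¹) =
      (z s * s • z t * (z (s * t))⁻¹).1.2 := fun x => by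
    have e : z s * s • z t * (z (s * t))⁻¹ = (z s * s • T ((D.w s)⁻¹ x) * (T x)⁻¹) *
        s • (z t * t • T ((D.w t)⁻¹ ((D.w s)⁻¹ x)) * (T ((D.w s)⁻¹ x))⁻¹) *
          (z (s * t) * (s * t) • T ((D.w (s * t))⁻¹ x) * (T x)⁻¹)⁻¹ := by
      rw [map_mul, _root_.mul_inv_rev (D.w s), Equiv.Perm.mul_apply, mul_smul, smul_mul', smul_mul',
        smul_inv']
      generalize s • t • T _ = u
      generalize s • T _ = v
      rw [← Additive.ofMul.apply_eq_iff_eq]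
      simp only [ofMul_mul, ofMul_inv]
      abel
    rw [map_mul, map_mul, map_inv, ← uact_incU, h, h, h, e]
    rfl
  refine ⟨η s (dec 0) * gact s (η t ((D.w s)⁻¹ (dec 0))) * (η (s * t) (dec 0))⁻¹, fun x => ?_⟩
  rw [← mul_inv_eq_iff_eq_mul]
  exact Units.map_injective (inc_injective ℝ) ((h1 x).trans (h1 _).symm)

end Pool.Agent.P.MP_3c2f8c_gt.Ex
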