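import Pool.Agent.P.MP_3c2f8c_gt.Ex.Mt.Tor

/-! Ex-Mt-Lat: the lattice lemma. -/

namespace Pool.Agent.P.MP_3c2f8c_gt.Ex

open Matrix Polynomial Pool.Agent.Lib.CFT
open scoped TensorProduct

namespace LatAux

theorem card_le : ∀ x d : I, d ≠ x →
    (Finset.univ.filter fun e => Adj d e ∧ (Adj x e ∨ e = x)).card ≤ 5 := by decide +kernel

theorem card_eq : ∀ x y : I, Adj x y →
    (Finset.univ.filter fun e => Adj x e ∧ e ≠ y ∧ e ≠ thd x y).card = 8 := by decide +kernel

theorem exists_rt : ∀ x : I, ∃ d, Rt d x := by decide +kernel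

/-- The functions attached to the weights. -/
def mu (a b : I) : ℤ := if b = a then 1 else if Adj a b then -1 else 0

theorem mu_tr : ∀ x a b, Adj a b → mu x a + mu x b + mu x (thd a b) = -1 := by decide +kernel

theorem mu_tr' : ∀ x a b, Adj a b → mu a x + mu b x + mu (thd a b) x = -1 := by decide +kernel

theorem wt_mu : ∀ a, wt a 0 = mu (dec 26) a - mu (dec 6) a ∧ wt a 1 = mu (dec 26) a - mu (dec 17) a ∧
    wt a 2 = mu (dec 26) a - mu (dec 25) a ∧ wt a 3 = mu (dec 25) a - mu (dec 23) a ∧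
    wt a 4 = mu (dec 25) a - mu (dec 24) a ∧
    wt a 5 = mu (dec 26) a - mu (dec 17) a + (mu (dec 16) a - mu (dec 20) a) := by decide +kernel

theorem no_iso {G : Type} [Group G] (w : G →* Equiv.Perm I)
    (hw : ∀ s a b, Adj (w s a) (w s b) ↔ Adj a b)
    (h3 : ∀ A : Finset I, (∀ s, ∀ x ∈ A, w s x ∈ A) → 3 ∣ A.card) (A : Finset I)
    (hA : ∀ s, ∀ x ∈ A, w s x ∈ A) {x y : I} (hxy : Adj x y)
    (h1 : ∀ e, Adj x e → e ≠ y → e ≠ thd x y → e ∈ A) (h2 : ∀ e ∈ A, Adj x e ∨ e = x) : False := by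
  have h := h3 (Finset.univ.filter fun d => 8 ≤ (A.filter fun e => Adj d e).card) fun s d hd => by
    simp only [Finset.mem_filter, Finset.mem_univ, true_and] at hd ⊢
    refine hd.trans (Finset.card_le_card_of_injOn (w s) (fun e he => ?_) (w s).injective.injOn)
    simp only [Finset.coe_filter, Set.mem_ofPred_eq] at he ⊢
    exact ⟨hA s e he.1, (hw s d e).2 he.2⟩
  have e : (Finset.univ.filter fun d => 8 ≤ (A.filter fun e => Adj d e).card) = {x} := by
    ext d
    simp only [Finset.mem_filter, Finset.mem_univ, true_and, Finset.mem_singleton]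
    constructor
    · intro hd
      by_contra hne
      have := hd.trans ((Finset.card_le_card fun e he => ?_).trans (card_le x d hne))
      · omega
      · simp only [Finset.mem_filter, Finset.mem_univ, true_and] at he ⊢
        exact ⟨he.2, h2 e he.1⟩
    · rintro rfl
      refine (card_eq d y hxy).ge.trans (Finset.card_le_card fun e he => ?_)
      simp only [Finset.mem_filter, Finset.mem_univ, true_and] at he ⊢
      exact ⟨h1 e he.1 he.2.1 he.2.2, he.1⟩
  rw [e] at h
  simp at h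

end LatAux

open LatAux

theorem two_smul_eq {G : Type} [Group G] (w : G →* Equiv.Perm I)
    (hw : ∀ s a b, Adj (w s a) (w s b) ↔ Adj a b)
    (h3 : ∀ A : Finset I, (∀ s, ∀ x ∈ A, w s x ∈ A) → 3 ∣ A.card) {c : G} (hc : c * c = 1)
    (hc' : ∀ x y, Rt x y → ¬ ((w c x = x ∧ w c y = y) ∨ (w c x = y ∧ w c y = x)))
    {A : Type} [AddCommGroup A] (κ : I → A) (hκ : ∀ s a, κ (w s a) = κ a)
    (ht : ∀ a b, Adj a b → κ a + κ b + κ (thd a b) = 0) (a b : I) : 2 • κ a = 2 • κ b := by
  classical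
  have hτ : ∀ a, w c (w c a) = a := fun a => by
    rw [← Equiv.Perm.mul_apply, ← map_mul, hc, map_one, Equiv.Perm.one_apply]
  have f1 : ∀ x y, w c x = x → w c y = y → x ≠ y → Adj x y := fun x y hx hy h => by
    by_contra h'
    exact hc' x y ⟨h, h'⟩ (Or.inl ⟨hx, hy⟩)
  have f2 : ∀ d, w c d ≠ d → Adj d (w c d) := fun d h => by
    by_contra h'
    exact hc' d (w c d) ⟨h.symm, h'⟩ (Or.inr ⟨rfl, hτ d⟩)
  have f3 : ∀ d, w c d ≠ d → w c (thd d (w c d)) = thd d (w c d) := fun d h => by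
    rw [← thd_perm (hw c) (f2 d h), hτ, (thd_spec _ _ (f2 d h)).1]
  have f4 : ∀ x y, w c x = x → w c y = y → Adj x y → w c (thd x y) = thd x y :=
    fun x y hx hy h => by rw [← thd_perm (hw c) h, hx, hy]
  have f5 : ∀ x y, w c x = x → w c y = y → Adj x y → ∀ u, w c u = u →
      u = x ∨ u = y ∨ u = thd x y := fun x y hx hy h u hu => by
    by_contra hn
    simp only [not_or] at hn
    have := gq x y u h hn.1 hn.2.1 hn.2.2
    have h1 := f1 u x hu hx hn.1
    have h2 := f1 u y hu hy hn.2.1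
    tauto
  obtain ⟨x, hx⟩ : ∃ x, w c x = x := by
    obtain ⟨d, hd⟩ := exists_rt a
    by_cases h : w c d = d
    · exact ⟨d, h⟩
    · exact ⟨_, f3 d h⟩
  obtain ⟨y, hy, hxy⟩ : ∃ y, w c y = y ∧ Adj x y := by
    obtain ⟨d, hd⟩ := exists_rt x
    have h : w c d ≠ d := fun h => hd.2 (f1 d x h hx hd.1)
    refine ⟨_, f3 d h, f1 _ _ hx (f3 d h) fun e => hd.2 ?_⟩
    rw [e]
    exact (thd_spec _ _ (f2 d h)).2.1
  have f6 : ∀ d u, w c d ≠ d → w c u = u → Adj d u → 2 • κ d = -κ u := fun d u hd hu h => by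
    have h1 := ht d _ (f2 d hd)
    rw [hκ] at h1
    have h2 : thd d (w c d) = u := by
      by_contra hne
      have h4 := f1 _ _ (f3 d hd) hu hne
      have h5 := (thd_spec _ _ (f2 d hd)).2.1
      have hne' : ∀ v, w c v = v → d ≠ v := fun v hv e => hd (e ▸ hv)
      have := gq _ _ d h4 (hne' _ (f3 d hd)) (hne' _ hu) (hne' _ (f4 _ _ (f3 d hd) hu h4))
      tauto
    rw [h2] at h1
    rw [two_nsmul, eq_neg_iff_add_eq_zero, h1]
  have f7 : ∀ u v, w c u = u → w c v = v → Adj u v → κ u = κ v ∨ κ u = κ (thd u v) :=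
    fun u v hu hv h => by
    by_contra hn
    simp only [not_or] at hn
    refine no_iso w hw h3 (Finset.univ.filter fun e => 2 • κ e = -κ u) (fun s e he => ?_) h
      (fun e h1 h2 h4 => ?_) fun e he => ?_
    · simpa only [Finset.mem_filter, Finset.mem_univ, true_and, hκ] using he
    · simp only [Finset.mem_filter, Finset.mem_univ, true_and]
      refine f6 e u (fun he => ?_) hu h1.symm
      rcases f5 u v hu hv h e he with rfl | rfl | rfl
      exacts [not_adj_self _ h1, h2 rfl, h4 rfl]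
    · simp only [Finset.mem_filter, Finset.mem_univ, true_and] at he
      by_cases hf : w c e = e
      · rcases f5 u v hu hv h e hf with rfl | rfl | rfl
        exacts [Or.inr rfl, Or.inl h, Or.inl (thd_spec _ _ h).2.1]
      · have hne' : ∀ v, w c v = v → e ≠ v := fun v hv e' => hf (e' ▸ hv)
        rcases gq u v e h (hne' _ hu) (hne' _ hv) (hne' _ (f4 _ _ hu hv h)) with g | g | g
        · exact Or.inl g.1.symm
        · exact absurd (neg_injective (he.symm.trans (f6 e v hf hv g.2.1))) hn.1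
        · exact absurd (neg_injective (he.symm.trans (f6 e _ hf (f4 _ _ hu hv h) g.2.2))) hn.2
  have hz := f4 x y hx hy hxy
  obtain ⟨s1, s2, s3, -⟩ := thd_spec x y hxy
  have g1 := f7 x y hx hy hxy
  have g2 := f7 y x hy hx hxy.symm
  have g3 := f7 _ x hz hx s2.symm
  rw [s1] at g2
  rw [(thd_spec _ _ s2).1, s3] at g3
  have e1 : κ y = κ x := by
    rcases g1 with g | g
    · exact g.symm
    · rcases g2 with g' | g'
      exacts [g', g'.trans g.symm]
  have e2 : κ (thd x y) = κ x := by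
    rcases g3 with g | g
    exacts [g, g.trans e1]
  have e3 : ∀ u, w c u = u → κ u = κ x := fun u hu => by
    rcases f5 x y hx hy hxy u hu with rfl | rfl | rfl
    exacts [rfl, e1, e2]
  have e4 : ∀ d, 2 • κ d = -κ x := fun d => by
    by_cases hd : w c d = d
    · have := ht x y hxy
      rw [e1, e2] at this
      rw [e3 d hd, two_nsmul, eq_neg_iff_add_eq_zero, this]
    · rw [f6 d _ hd (f3 d hd) (thd_spec _ _ (f2 d hd)).2.1, e3 _ (f3 d hd)]
  rw [e4, e4]

/-- The lattice lemma in terms of integral functions with constant sums over the triples. -/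
theorem lattice_lemma {G : Type} [Group G] [Fintype G] (w : G →* Equiv.Perm I)
    (hw : ∀ s a b, Adj (w s a) (w s b) ↔ Adj a b)
    (h3 : ∀ A : Finset I, (∀ s, ∀ x ∈ A, w s x ∈ A) → 3 ∣ A.card) {c : G} (hc : c * c = 1)
    (hc' : ∀ x y, Rt x y → ¬ ((w c x = x ∧ w c y = y) ∨ (w c x = y ∧ w c y = x)))
    (m : I → ℤ) (k : ℤ) (hm : ∀ a b, Adj a b → m a + m b + m (thd a b) = k)
    (h0 : ∀ a, ∑ s, m (w s a) = 0) :
    ∃ (μ : G → I → ℤ) (l : G → ℤ) (k' : ℤ),
      (∀ s a b, Adj a b → μ s a + μ s b + μ s (thd a b) = l s) ∧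
      ∀ a, 2 * m a = k' + ∑ s, (μ s ((w s)⁻¹ a) - μ s a) := by
  classical
  let S : AddSubgroup (I → ℤ) :=
    { carrier := {g | ∃ (μ : G → I → ℤ) (l : G → ℤ) (k' : ℤ),
        (∀ s a b, Adj a b → μ s a + μ s b + μ s (thd a b) = l s) ∧
        ∀ a, g a = k' + ∑ s, (μ s ((w s)⁻¹ a) - μ s a)}
      zero_mem' := ⟨0, 0, 0, by simp, by simp⟩
      add_mem' := by
        rintro g g' ⟨μ, l, k, h, e⟩ ⟨μ', l', k', h', e'⟩
        refine ⟨μ + μ', l + l', k + k', fun s a b hab => ?_, fun a => ?_⟩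
        · simp only [Pi.add_apply]
          linear_combination h s a b hab + h' s a b hab
        · simp only [Pi.add_apply, e, e', Finset.sum_sub_distrib, Finset.sum_add_distrib]
          ring
      neg_mem' := by
        rintro g ⟨μ, l, k, h, e⟩
        refine ⟨-μ, -l, -k, fun s a b hab => ?_, fun a => ?_⟩
        · simp only [Pi.neg_apply]
          linear_combination -h s a b hab
        · simp only [Pi.neg_apply, e, Finset.sum_sub_distrib, Finset.sum_neg_distrib]
          ring }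
  have h2 : ∀ a b, 2 • (mu a - mu b) ∈ S := fun a b => by
    have := two_smul_eq w hw h3 hc hc' (fun a => (QuotientAddGroup.mk (mu a) : (I → ℤ) ⧸ S))
      (fun s a => ?_) (fun a b hab => ?_) a b
    · rw [← QuotientAddGroup.eq_zero_iff, smul_sub, QuotientAddGroup.mk_sub,
        QuotientAddGroup.mk_nsmul, QuotientAddGroup.mk_nsmul, this, sub_self]
    · rw [← sub_eq_zero, ← QuotientAddGroup.mk_sub, QuotientAddGroup.eq_zero_iff]
      refine ⟨Pi.single s (mu a), Pi.single s (-1), 0, fun t x y hxy => ?_, fun x => ?_⟩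
      · by_cases hts : t = s
        · subst hts
          simpa using mu_tr a x y hxy
        · simp [hts]
      · rw [zero_add, Finset.sum_eq_single s (fun t _ ht => by simp [ht]) (by simp)]
        obtain ⟨y, rfl⟩ := (w s).surjective x
        simp [mu, hw]
    · rw [← QuotientAddGroup.mk_add, ← QuotientAddGroup.mk_add, QuotientAddGroup.eq_zero_iff]
      exact ⟨0, 0, -1, by simp, fun x => by simpa using mu_tr' x a b hab⟩
  have hk : k = 0 := by
    have hab : Adj (.inl 0) (.inl 1) := by decide +kernel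
    have h : ∑ s : G, k = 0 := by
      calc ∑ s : G, k = ∑ s : G, (m (w s (.inl 0)) + m (w s (.inl 1)) +
          m (w s (thd (.inl 0) (.inl 1)))) := Finset.sum_congr rfl fun s _ => by
            rw [← thd_perm (hw s) hab, hm _ _ ((hw s _ _).2 hab)]
        _ = 0 := by simp only [Finset.sum_add_distrib, h0, add_zero]
    simpa using h
  have hm' : ∀ a, m a = ∑ i : Fin 6, wt a i.castSucc * m (wb i) := fun a => by
    have h := eq_prod_wt (A := Multiplicative ℤ) (d := fun a => Multiplicative.ofAdd (m a))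
      (ν := 1) (fun a b hab => by
        rw [← ofAdd_add, ← ofAdd_add, hm a b hab, hk, ofAdd_zero]) a
    have h' := congrArg Multiplicative.toAdd h
    simpa [toAdd_prod] using h'
  have key : (fun a => 2 * m a) = m (wb 0) • 2 • (mu (dec 26) - mu (dec 6)) +
      m (wb 1) • 2 • (mu (dec 26) - mu (dec 17)) + m (wb 2) • 2 • (mu (dec 26) - mu (dec 25)) +
      m (wb 3) • 2 • (mu (dec 25) - mu (dec 23)) + m (wb 4) • 2 • (mu (dec 25) - mu (dec 24)) +
      m (wb 5) • (2 • (mu (dec 26) - mu (dec 17)) + 2 • (mu (dec 16) - mu (dec 20))) := by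
    funext a
    obtain ⟨w0, w1, w2, w3, w4, w5⟩ := wt_mu a
    rw [hm' a, Fin.sum_univ_six]
    simp only [Pi.add_apply, Pi.smul_apply, Pi.sub_apply, smul_eq_mul, two_nsmul]
    change 2 * (wt a 0 * _ + wt a 1 * _ + wt a 2 * _ + wt a 3 * _ + wt a 4 * _ + wt a 5 * _) = _
    rw [w0, w1, w2, w3, w4, w5]
    ring
  have : (fun a => 2 * m a) ∈ S := by
    rw [key]
    exact add_mem (add_mem (add_mem (add_mem (add_mem (S.zsmul_mem (h2 _ _) _)
      (S.zsmul_mem (h2 _ _) _)) (S.zsmul_mem (h2 _ _) _)) (S.zsmul_mem (h2 _ _) _))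
      (S.zsmul_mem (h2 _ _) _)) (S.zsmul_mem (add_mem (h2 _ _) (h2 _ _)) _)
  exact this

end Pool.Agent.P.MP_3c2f8c_gt.Ex
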