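import Pool.Agent.P.MP_3c2f8c_gt.Ex.Mt.Desc2
import Pool.Agent.P.MP_3c2f8c_gt.Ex.Mt.Fr
import Pool.Agent.P.MP_3c2f8c_gt.Ex.Gl.Link

/-! Ex-Mt-LocF: local frames. -/

namespace Pool.Agent.P.MP_3c2f8c_gt.Ex

open Matrix Polynomial Pool.Agent.Lib.CFT
open scoped TensorProduct

variable {F : Type} [Field F] [NumberField F]

namespace LocFAux

open LinkAux

/-- A normalised basis with its cocycle. -/
structure PF (D : Spec F) (b : ℚ) (Q : GL I F) (a : Aut F → I → Fˣ) : Prop where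
  sim : ∃ ν, Sim (eT D.lam) (nJ F) Q.1 ν
  coc : ∀ s : Aut F, ph b F ^ D.ix s * Q.1.map s = Q.1 * (dg (a s) * pm F (D.w s))

theorem rel_pow {R : Type} [CommRing R] [Algebra ℚ R] {b b' : ℚ} {m : GL I (Cub R)}
    {c : (Cub R)ˣ} (h : Rel b b' m c) (i : ℕ) : ∃ C : (Cub R)ˣ, m.1 * ph b (Cub R) ^ i =
      C.1 • (ph b' (Cub R) ^ i * m.1.map ⇑(Cub.sig ^ i : Cub R ≃+* Cub R)) := by
  induction i with
  | zero =>
    refine ⟨1, ?_⟩
    rw [pow_zero, pow_zero, pow_zero, Matrix.mul_one, Matrix.one_mul, Units.val_one, one_smul]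
    rfl
  | succ i ih =>
    obtain ⟨C, hC⟩ := ih
    let σ : Cub R →+* Cub R := (Cub.sig : Cub R ≃+* Cub R).toRingHom
    refine ⟨c * Units.map σ.toMonoidHom C, ?_⟩
    have h1 := congrArg (fun X => X.map σ) hC
    simp only [Matrix.map_mul, Matrix.map_pow, ph_map] at h1
    have h2 : (C.1 • (ph b' (Cub R) ^ i * m.1.map ⇑(Cub.sig ^ i : Cub R ≃+* Cub R))).map σ =
        σ C.1 • (ph b' (Cub R) ^ i * m.1.map ⇑(Cub.sig ^ (i + 1) : Cub R ≃+* Cub R)) := by
      rw [Matrix.map_smul' _ _ _ (map_mul σ), Matrix.map_mul, Matrix.map_pow, ph_map, pow_succ']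
      rfl
    have h0 : m.1 * ph b (Cub R) = c.1 • (ph b' (Cub R) * m.1.map σ) := h
    rw [pow_succ', ← Matrix.mul_assoc, h0, Matrix.smul_mul, Matrix.mul_assoc, h1, h2,
      Matrix.mul_smul, smul_smul, ← Matrix.mul_assoc, ← pow_succ']
    rfl

theorem alg {A : Type} [CommRing A] {M M' Q Q' φ ψ T T' T'' E E' W : Matrix I I A} {C z : A}
    (h1 : M * φ = C • (ψ * M')) (h2 : φ * Q' = Q * (E * W)) (e3 : T * E' = z • (E * T''))
    (e4 : W * T' = T'' * W) : M * Q * T * (E' * W) = (z * C) • (ψ * (M' * Q' * T')) :=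
  calc M * Q * T * (E' * W) = M * Q * (T * E' * W) := by simp only [Matrix.mul_assoc]
    _ = z • (M * (Q * (E * W) * T')) := by
      simp only [e3, Matrix.mul_assoc, e4, Matrix.mul_smul, Matrix.smul_mul]
    _ = z • (M * φ * (Q' * T')) := by simp only [← h2, Matrix.mul_assoc]
    _ = _ := by simp only [h1, Matrix.mul_assoc, Matrix.smul_mul, smul_smul]

section Loc

variable (κ : Type) [Field κ] [Algebra ℚ κ] {D : Spec F} {b b' : ℚ} {Q : GL I F}
  {a a' : Aut F → I → Fˣ}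

/-- The local frame. -/
noncomputable def lf (D : Spec F) (m : GL I (Cub κ)) (Q : GL I F) (t : I → (κ ⊗[ℚ] F)ˣ) :
    GL I (κ ⊗[ℚ] F) := glmap (jk κ D.j) m * glmap (inc κ F) Q * dgU t

theorem lf_val (m : GL I (Cub κ)) (t : I → (κ ⊗[ℚ] F)ˣ) :
    (lf κ D m Q t).1 = m.1.map (jk κ D.j) * Q.1.map (inc κ F) * dg t := rfl

theorem lf_sim (h : PF D b Q a) {m : GL I (Cub κ)} (hm : m ∈ Str (nJ (Cub κ)))
    {t : I → (κ ⊗[ℚ] F)ˣ} (ht : InT t) :
    ∃ ν, Sim ((eT D.lam).map (inc κ F)) (nJ _) (lf κ D m Q t).1 ν := by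
  obtain ⟨ν, hν⟩ := h.sim
  obtain ⟨μ, hμ⟩ := hm
  have hs : Supp ((eT D.lam).map (inc κ F)) := fun x y z hx => by
    rw [T3.map, supp_eT x y z hx, map_zero]
  obtain ⟨l, hl⟩ := ht.sim hs
  have h1 := hμ.map (jk κ D.j)
  have h2 := hν.map (inc κ F)
  rw [nJ_map] at h1 h2
  exact ⟨_, (h1.mul h2).mul hl⟩

theorem lf_coc (h : PF D b Q a) {m : GL I (Cub κ)} {c : (Cub κ)ˣ} (hm : Rel b b' m c)
    {t : I → (κ ⊗[ℚ] F)ˣ} (s : Aut F) {z : (κ ⊗[ℚ] F)ˣ}
    (ht : ∀ x, t x * incU κ F (a' s x) = z * (incU κ F (a s x) * uact κ s (t ((D.w s)⁻¹ x)))) :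
    ∃ C : (κ ⊗[ℚ] F)ˣ, (lf κ D m Q t).1 * (dg (a' s) * pm F (D.w s)).map (inc κ F) =
      C.1 • (ph b' _ ^ D.ix s * (lf κ D m Q t).1.map (lact κ s)) := by
  obtain ⟨C, hC⟩ := rel_pow hm (D.ix s)
  let L : κ ⊗[ℚ] F →+* κ ⊗[ℚ] F := (lact κ s).toRingEquiv.toRingHom
  refine ⟨z * Units.map (jk κ D.j).toMonoidHom C, ?_⟩
  have h1 := congrArg (fun X => X.map (jk κ D.j)) hC
  simp only [Matrix.map_smul' _ _ _ (map_mul (jk κ D.j)), Matrix.map_mul, Matrix.map_pow,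
    ph_map] at h1
  have e1 : (m.1.map ⇑(Cub.sig ^ D.ix s : Cub κ ≃+* Cub κ)).map (jk κ D.j) =
      (m.1.map (jk κ D.j)).map L := by
    ext1 x y
    exact (D.lact_jk κ s _).symm
  have h2 := congrArg (fun X => X.map (inc κ F)) (h.coc s)
  simp only [Matrix.map_mul, Matrix.map_pow, ph_map, dg_map, pm_map] at h2
  have e2 : (Q.1.map s).map (inc κ F) = (Q.1.map (inc κ F)).map L := rfl
  have e3 : dg t * dg (fun x => Units.map (inc κ F).toMonoidHom (a' s x)) =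
      z.1 • (dg (fun x => Units.map (inc κ F).toMonoidHom (a s x)) *
        dg ((fun x => Units.map L.toMonoidHom (t x)) ∘ ⇑(D.w s)⁻¹)) := by
    rw [← dg_mul, ← dg_mul, ← Matrix.one_mul (dg (_ * (_ ∘ _))), ← Matrix.smul_mul, ← dg_const,
      ← dg_mul]
    exact congrArg dg (funext ht)
  change _ = (z.1 * jk κ D.j C.1) • (_ * (lf κ D m Q t).1.map L)
  rw [e1] at h1
  rw [e2] at h2
  rw [lf_val, Matrix.map_mul, Matrix.map_mul, Matrix.map_mul, dg_map, dg_map, pm_map]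
  exact alg h1 h2 e3 (pm_dg _ _)

theorem lf_conj (m : GL I (Cub κ)) (t : I → (κ ⊗[ℚ] F)ˣ) {h : GL I (Cub ℚ)} {x : I → Fˣ}
    (e : h.1.map D.j * Q.1 = Q.1 * dg x) :
    (m * glmap (Cub.map (algebraMap ℚ κ)) h * m⁻¹).1.map (jk κ D.j) * (lf κ D m Q t).1 =
      (lf κ D m Q t).1 * (dg x).map (inc κ F) := by
  have h1 := congrArg (fun X => X.map (inc κ F)) e
  simp only [Matrix.map_mul] at h1
  have e1 : (glmap (Cub.map (algebraMap ℚ κ)) h).1.map (jk κ D.j) = (h.1.map D.j).map (inc κ F) := by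
    ext1 x y
    exact jk_map κ D.j _
  have e2 : (m⁻¹).1.map (jk κ D.j) * m.1.map (jk κ D.j) = 1 := by
    rw [← Matrix.map_mul, Units.inv_mul, Matrix.map_one _ (map_zero _) (map_one _)]
  rw [lf_val, Units.val_mul, Units.val_mul, Matrix.map_mul, Matrix.map_mul, e1]
  simp only [Matrix.mul_assoc]
  rw [← Matrix.mul_assoc ((m⁻¹).1.map _), e2, Matrix.one_mul, ← Matrix.mul_assoc (_ : Matrix I I _)
    (Q.1.map _), h1, Matrix.mul_assoc, dg_map, ← dg_mul, ← dg_mul, mul_comm t]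

end Loc

section Dual

variable {D : Spec F} {b : ℚ} {P : GL I F} {a : Aut F → I → Fˣ}

theorem dag_dgU {R : Type} [CommRing R] (x : I → Rˣ) : dag (dgU x) = dgU x⁻¹ :=
  Units.ext (diagonal_transpose _)

/-- The self-duality as a family of units. -/
noncomputable def dlU (D : Spec F) (x : I) : Fˣ := Units.mk0 (dl D.lam x) (dl_ne_zero D.sq_ne x)

/-- The dual basis. -/
noncomputable def du (D : Spec F) (P : GL I F) : GL I F := (DJ F)⁻¹ * dag P * dgU (dlU D)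

theorem du_conj {h : GL I (Cub ℚ)} {x : I → Fˣ} (e : h.1.map D.j * P.1 = P.1 * dg x) :
    ((cartan h)⁻¹).1.map D.j * (du D P).1 = (du D P).1 * dg x := by
  have e1 : glmap D.j h * P = P * dgU x := Units.ext e
  have e2 := congrArg dag e1
  rw [dag_mul, dag_mul, dag_dgU] at e2
  have e3 : dgU x * dgU (dlU D) = dgU (dlU D) * dgU x := Units.ext (by
    change dg x * dg (dlU D) = dg (dlU D) * dg x
    rw [← dg_mul, ← dg_mul, mul_comm])
  have e4 : dgU x⁻¹ = (dgU x)⁻¹ := rfl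
  have e5 : glmap D.j (cartan h)⁻¹ * du D P = du D P * dgU x := by
    rw [map_inv, ← cartan_map, du, cartan, mul_assoc _ (dgU _) (dgU x), ← e3,
      eq_mul_inv_of_mul_eq e2, e4]
    group
  exact congrArg Units.val e5

theorem PF.du (hb : b ≠ 0) (h : PF D b P a) : PF D b⁻¹ (du D P) fun s => (a s)⁻¹ := by
  refine ⟨?_, fun s => ?_⟩
  · obtain ⟨ν, hν⟩ := h.sim
    obtain ⟨ν, rfl⟩ := hν.isUnit (isAlb_nJ F)
    have h1 := hν.dag D.isAlb (isAlb_nJ F)
    have h2 : Sim (mJ F) (nJ F) ((DJ F)⁻¹).1 ((1 : Fˣ)⁻¹).1 := Sim.inv (ν := 1) sim_DJ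
    exact ⟨_, (h2.mul h1).mul (sim_dl D.inT D.sq_ne)⟩
  · obtain ⟨φ, hφ⟩ := exists_phU hb F
    obtain ⟨W, hW⟩ := exists_dg_pm (1 : I → Fˣ) (D.w s)
    rw [dg_one, Matrix.one_mul] at hW
    let σ : F →+* F := s.toRingEquiv.toRingHom
    have e0 : (cartan φ).1 = ph b⁻¹ F :=
      cartan_phi (b := Units.map (algebraMap ℚ F).toMonoidHom (Units.mk0 b hb)) hφ
    have e1 : φ ^ D.ix s * glmap σ P = P * (dgU (a s) * W) := Units.ext (by
      rw [Units.val_mul, Units.val_mul, Units.val_mul, Units.val_pow_eq_pow_val, hφ, hW]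
      exact h.coc s)
    have hd : dag W = W := Units.ext (by
      have : (W⁻¹).1 = pm F (D.w s)⁻¹ := by
        rw [← W.mul_right_inj, Units.mul_inv, hW, ← pm_mul, mul_inv_cancel, pm_one]
      rw [dag_val, this, pm_transpose, inv_inv, hW])
    have hp : ∀ i : ℕ, dag (φ ^ i) = dag φ ^ i := fun i => by
      induction i with
      | zero => exact Units.ext (by rw [dag_val]; simp)
      | succ i ih => rw [pow_succ, pow_succ, dag_mul, ih]
    have e2 := congrArg dag e1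
    rw [dag_mul, dag_mul, dag_mul, dag_dgU, hd, hp, dag_map] at e2
    have e3 : W * glmap σ (dgU (dlU D)) = dgU (dlU D) * W := Units.ext (by
      change W.1 * (dg (dlU D)).map σ = dg (dlU D) * W.1
      rw [hW, dg_map, pm_dg]
      refine congrArg (fun y => dg y * pm F (D.w s)) (funext fun x => Units.ext ?_)
      have := dl_perm σ (D.adj s) (D.hw s) ((D.w s)⁻¹ x)
      rwa [show D.w s ((D.w s)⁻¹ x) = x from (D.w s).apply_symm_apply x] at this)
    have e4 : dgU (a s)⁻¹ * dgU (dlU D) = dgU (dlU D) * dgU (a s)⁻¹ := Units.ext (by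
      change dg _ * dg (dlU D) = dg (dlU D) * dg _
      rw [← dg_mul, ← dg_mul, mul_comm])
    have e5 : cartan φ ^ D.ix s * glmap σ (LocFAux.du D P) =
        LocFAux.du D P * (dgU (a s)⁻¹ * W) := by
      have e6 : ((DJ F)⁻¹ * dag φ * DJ F) ^ D.ix s = (DJ F)⁻¹ * dag φ ^ D.ix s * DJ F := by
        simpa using conj_pow (i := D.ix s) (a := (DJ F)⁻¹) (b := dag φ)
      rw [LocFAux.du, map_mul, map_mul, map_inv, DJ_map, cartan, e6,
        mul_assoc _ (dgU _) (_ * W), ← mul_assoc (dgU _), ← e4, mul_assoc (dgU _) (dgU _), ← e3]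
      rw [show ∀ x y z u : GL I F, x⁻¹ * y * x * (x⁻¹ * z * u) = x⁻¹ * (y * z) * u from
        fun x y z u => by group, e2]
      group
    have e6 := congrArg Units.val e5
    rwa [Units.val_mul, Units.val_mul, Units.val_mul (dgU _), Units.val_pow_eq_pow_val, e0,
      hW] at e6

end Dual

theorem intU_of_smul {p : ℕ} [Fact p.Prime] {g h : GL I (Ap p F)} (hg : IntA g) (hh : IntA h)
    {c : (Ap p F)ˣ} (e : g.1 = c.1 • h.1) : c ∈ Pool.Agent.Lib.CFT.IntU p F := by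
  have h1 := hg.mul hh.inv
  have e1 : (g * h⁻¹).1 = c.1 • (1 : Matrix I I (Ap p F)) := by
    rw [Units.val_mul, e, Matrix.smul_mul, Units.mul_inv]
  have e2 : ((g * h⁻¹)⁻¹).1 = (c⁻¹).1 • (1 : Matrix I I (Ap p F)) := by
    rw [← (g * h⁻¹).mul_right_inj, Units.mul_inv, e1, Matrix.smul_mul, Matrix.one_mul, smul_smul,
      Units.mul_inv, one_smul]
  have h2 := h1 (.inl 0) (.inl 0)
  rw [e1, e2] at h2
  constructor
  · simpa using h2.1
  · simpa using h2.2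

theorem intA_dgU {p : ℕ} [Fact p.Prime] {t : I → (Ap p F)ˣ} (ht : ∀ x, t x ∈ Pool.Agent.Lib.CFT.IntU p F) :
    IntA (dgU t) := fun x y => by
  change IsIntegral _ (diagonal (fun x => (t x).1) x y) ∧
    IsIntegral _ (diagonal (fun x => ((t x)⁻¹).1) x y)
  rw [diagonal_apply, diagonal_apply]
  split_ifs
  exacts [ht x, ⟨isIntegral_zero, isIntegral_zero⟩]

theorem intA_lact {p : ℕ} [Fact p.Prime] {g : GL I (Ap p F)} (hg : IntA g) (s : Aut F) :
    IntA (glmap (lact ℚ_[p] s).toRingEquiv.toRingHom g) := fun x y =>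
  ⟨isIntegral_lact s (hg x y).1, isIntegral_lact s (hg x y).2⟩

theorem exists_cbrt (x : ℝ) : ∃ t : ℝ, t ^ 3 = x := by
  rcases le_total 0 x with h | h
  · exact ⟨_, Real.rpow_inv_natCast_pow h (n := 3) (by norm_num)⟩
  · refine ⟨-((-x) ^ (((3 : ℕ) : ℝ)⁻¹)), ?_⟩
    rw [Odd.neg_pow (by decide), Real.rpow_inv_natCast_pow (neg_nonneg.2 h) (by norm_num), neg_neg]

theorem exists_real {b b' : ℚ} (hb : b ≠ 0) (hb' : b' ≠ 0) :
    ∃ (m : GL I (Cub ℝ)) (c : (Cub ℝ)ˣ), m ∈ Str (nJ (Cub ℝ)) ∧ Rel b b' m c := by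
  obtain ⟨r, hr⟩ := exists_cbrt ((b : ℝ) / b')
  have h1 : (b : ℝ) ≠ 0 := by exact_mod_cast hb
  have h2 : (b' : ℝ) ≠ 0 := by exact_mod_cast hb'
  have hr0 : r ≠ 0 := by
    rintro rfl
    exact div_ne_zero h1 h2 (by simpa using hr.symm)
  refine ⟨_, _, rdU_mem _, rel_rdU (Units.map (Cub.C : ℝ →+* Cub ℝ).toMonoidHom
    (Units.mk0 r hr0)) ?_⟩
  have : Cub.nrm (Cub.C r) = r ^ 3 := by simp [Cub.nrm_eq]
  change (b' : ℝ) * Cub.nrm (Cub.C r) = b
  rw [this, hr, mul_div_cancel₀ _ h2]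

end LocFAux

open LocFAux LinkAux

theorem exists_locFr {D : Spec F} {b b' : ℚ} (hb : b ≠ 0) (hb' : b' ≠ 0) {S' : Finset Nat.Primes}
    {e : ∀ p : Nat.Primes, UG b ℚ_[p] ≃ₜ* UG b' ℚ_[p]} (he : IsLink b b' S' e) {γ : UG b ℚ}
    {P : GL I F} {a η : Aut F → I → Fˣ} (h : Frame D b γ P a) (hη : LocTw D S' η a) :
    ∃ g g' c m, LocFr D S' e P (η * a) g g' c m := by
  obtain ⟨m, hm, hfin, hrel, hconj⟩ := he
  obtain ⟨t, z, hT, hp, hi⟩ := hη
  obtain ⟨m', c', hm', hrel'⟩ := exists_real hb hb'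
  have h0 : PF D b P a := ⟨h.sim, h.coc⟩
  have hQ : ∀ p : Nat.Primes, PF D (if p ∈ S' then b⁻¹ else b) (if p ∈ S' then du D P else P)
      (if p ∈ S' then fun s => (a s)⁻¹ else a) := fun p => by
    split_ifs
    exacts [h0.du hb, h0]
  let π : ∀ p : Nat.Primes, Idele F →* (Ap p.1 F)ˣ := fun p =>
    (Pi.evalMonoidHom _ p).comp ((MonoidHom.fst _ _).comp (Idele F).subtype)
  let π' : Idele F →* (Ai F)ˣ := (MonoidHom.snd _ _).comp (Idele F).subtype
  let g : ∀ p : Nat.Primes, GL I (Ap p.1 F) := fun p =>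
    lf ℚ_[p] D (m p) (if p ∈ S' then du D P else P) (π p ∘ t)
  have hc : ∀ (s : Aut F) (p : Nat.Primes), ∃ C : (Ap p.1 F)ˣ,
      (g p).1 * (dg ((η * a) s) * pm F (D.w s)).map (inc ℚ_[p] F) =
        C.1 • (ph b' _ ^ D.ix s * (g p).1.map (lact ℚ_[p] s)) := fun s p => by
    obtain ⟨c, hc⟩ := hrel p
    refine lf_coc ℚ_[p] (hQ p) hc s (z := π p (z s)) fun x => ?_
    have h1 : incU ℚ_[p] F (η s x * if p ∈ S' then a s x ^ 2 else 1) =
      π p (z s) * uact ℚ_[p] s (π p (t ((D.w s)⁻¹ x))) * (π p (t x))⁻¹ := hp p s x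
    have h2 : (η * a) s x = (η s x * if p ∈ S' then a s x ^ 2 else 1) *
        (if p ∈ S' then fun s => (a s)⁻¹ else a) s x := by
      split_ifs
      · rw [sq, ← mul_assoc]
        exact (mul_inv_cancel_right _ _).symm
      · rw [mul_one]
        rfl
    rw [h2, map_mul, h1, Function.comp_apply, Function.comp_apply, mul_comm, mul_assoc,
      mul_comm _ (π p (t x)), ← mul_assoc, inv_mul_cancel_right, mul_assoc, mul_comm (uact _ _ _)]
  have hc' : ∀ s : Aut F, ∃ C : (Ai F)ˣ,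
      (lf ℝ D m' P (π' ∘ t)).1 * (dg ((η * a) s) * pm F (D.w s)).map (inc ℝ F) =
        C.1 • (ph b' _ ^ D.ix s * (lf ℝ D m' P (π' ∘ t)).1.map (lact ℝ s)) := fun s => by
    refine lf_coc ℝ h0 hrel' s (z := π' (z s)) fun x => ?_
    have h1 : incU ℝ F (η s x) =
      π' (z s) * uact ℝ s (π' (t ((D.w s)⁻¹ x))) * (π' (t x))⁻¹ := hi s x
    rw [Pi.mul_apply, Pi.mul_apply, map_mul, h1, Function.comp_apply, Function.comp_apply, mul_comm,
      mul_assoc, mul_comm _ (π' (t x)), ← mul_assoc, inv_mul_cancel_right, mul_assoc,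
      mul_comm (uact _ _ _)]
  choose C hC using hc
  choose C' hC' using hc'
  have hg : {p : Nat.Primes | ¬ IntA (g p)}.Finite := by
    refine (((hfin.union S'.finite_toSet).union (finite_not_intA P)).union
      (Set.finite_iUnion fun x => (t x).2)).subset fun p hp => ?_
    by_contra hn
    simp only [Set.mem_union, Set.mem_iUnion, Set.mem_ofPred_eq, not_or, not_not, not_exists,
      Finset.mem_coe] at hn
    refine hp (((intA_jk D.j hn.1.1.1).mul ?_).mul (intA_dgU hn.2))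
    rw [if_neg hn.1.1.2]
    exact hn.1.2
  have hI : ∀ s, ((C s, C' s) : Amb F) ∈ Idele F := fun s => by
    obtain ⟨φ, hφ⟩ := exists_phU hb' F
    obtain ⟨W, hW⟩ := exists_dg_pm ((η * a) s) (D.w s)
    refine ((hg.union (finite_not_intA W)).union (finite_not_intA (φ ^ D.ix s))).subset
      fun p hp => ?_
    by_contra hn
    simp only [Set.mem_union, Set.mem_ofPred_eq, not_or, not_not] at hn
    refine hp (intU_of_smul (hn.1.1.mul hn.1.2) (hn.2.mul (intA_lact hn.1.1 s)) ?_)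
    have h1 := hC s p
    rw [← hW, ← ph_map b' (inc ℚ_[p] F), ← Matrix.map_pow, ← hφ] at h1
    exact h1
  refine ⟨g, lf ℝ D m' P (π' ∘ t), fun s => ⟨_, hI s⟩, m', fun p => lf_sim _ (hQ p) (hm p)
    (hT.map _), lf_sim _ h0 hm' (hT.map _), fun p s => hC s p, hC', hg, fun p k x hk => ?_, hm',
    fun k x hk => lf_conj ℝ m' _ hk⟩
  obtain ⟨k', e1, e2⟩ := hconj p (gmap b (algebraMap ℚ ℚ_[p]) k)
  have e3 : e p (Phi b (QuotientGroup.mk k) p) = QuotientGroup.mk k' := e1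
  by_cases hS : p ∈ S'
  · refine ⟨k'⁻¹, by rw [e3, eps, if_pos hS, _root_.zpow_neg_one, QuotientGroup.mk_inv], ?_⟩
    have e4 : (k'⁻¹).1 = m p * glmap (Cub.map (algebraMap ℚ ℚ_[p])) (cartan k.1)⁻¹ * (m p)⁻¹ := by
      rw [Subgroup.coe_inv, e2, if_pos hS, map_inv, ← cartan_map, _root_.mul_inv_rev,
        _root_.mul_inv_rev, inv_inv, mul_assoc]
      rfl
    rw [e4]
    refine lf_conj _ _ _ ?_
    rw [if_pos hS]
    exact du_conj hk
  · refine ⟨k', by rw [e3, eps, if_neg hS, zpow_one], ?_⟩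
    rw [e2, if_neg hS]
    refine lf_conj _ _ _ ?_
    rw [if_neg hS]
    exact hk

end Pool.Agent.P.MP_3c2f8c_gt.Ex
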