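import Pool.Agent.P.MP_3c2f8c_gt.Ex.Mt.LocF
import Pool.Agent.P.MP_3c2f8c_gt.Ex.Mt.Eta2

/-! Ex-Mt-Part2: partners are matched. -/

namespace Pool.Agent.P.MP_3c2f8c_gt.Ex

open Matrix Polynomial Pool.Agent.Lib.CFT
open scoped TensorProduct

variable {F : Type} [Field F] [NumberField F]

namespace Part2Aux

theorem fin_int {n : ℤ} (hn : n ≠ 0) : {p : Nat.Primes | ‖(n : ℚ_[p])‖ ≠ 1}.Finite := by
  refine (Set.Finite.preimage (f := fun p : Nat.Primes => p.1) Subtype.val_injective.injOn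
    (Set.finite_Iic n.natAbs)).subset fun p hp => ?_
  have h := lt_of_le_of_ne (Padic.norm_int_le_one (p := p) n) hp
  rw [Padic.norm_intCast_lt_one_iff] at h
  exact Nat.le_of_dvd (Int.natAbs_pos.2 hn) (Int.natCast_dvd.1 h)

theorem fin_rat {q : ℚ} (hq : q ≠ 0) : {p : Nat.Primes | ‖(q : ℚ_[p])‖ ≠ 1}.Finite := by
  refine ((fin_int (Rat.num_ne_zero.2 hq)).union
    (fin_int (n := q.den) (Int.natCast_ne_zero.2 q.den_ne_zero))).subset fun p hp => ?_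
  by_contra h
  simp only [Set.mem_union, Set.mem_ofPred_eq, not_or, not_not, Int.cast_natCast] at h
  apply hp
  rw [Rat.cast_def, norm_div, h.1, h.2, div_one]

theorem exists_tau {T G G' : Type} [Group T] [Group G] [Group G'] (ζ : T →* G) (ζ' : T →* G')
    (hk : ∀ x, ζ x = 1 ↔ ζ' x = 1) {C : Subgroup G} {C' : Subgroup G'} (hC : ζ.range = C)
    (hC' : ζ'.range = C') : ∃ τ : C ≃* C', ∀ (t : C) x, ζ x = t → (τ t : G') = ζ' x := by
  subst hC hC'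
  have hker : ζ.ker = ζ'.ker := Subgroup.ext hk
  refine ⟨(QuotientGroup.quotientKerEquivRange ζ).symm.trans
    ((QuotientGroup.quotientMulEquivOfEq hker).trans (QuotientGroup.quotientKerEquivRange ζ')),
    fun t x hx => ?_⟩
  have h1 : (QuotientGroup.quotientKerEquivRange ζ).symm t = QuotientGroup.mk x := by
    rw [MulEquiv.symm_apply_eq]
    exact Subtype.ext hx.symm
  rw [MulEquiv.trans_apply, h1]
  rfl

theorem ex {g : GL I (Cub ℝ)} (hg : g ∈ Str (nJ (Cub ℝ))) :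
    ∃ k : E6, ∃ t : ℝ, k.1.1 = t • g.1.map iota := by
  obtain ⟨ν, hν⟩ := hg
  have h1 := hν.map iota
  rw [nJ_map] at h1
  have hn : iota ν.1 ≠ 0 := (ν.isUnit.map iota).ne_zero
  obtain ⟨t, ht'⟩ : ∃ t : ℝ, t ^ 3 = (iota ν.1)⁻¹ := by
    rcases le_total 0 (iota ν.1)⁻¹ with h | h
    · exact ⟨_, Real.rpow_inv_natCast_pow h (n := 3) (by norm_num)⟩
    · refine ⟨-((-(iota ν.1)⁻¹) ^ (((3 : ℕ) : ℝ)⁻¹)), ?_⟩
      rw [Odd.neg_pow (by decide), Real.rpow_inv_natCast_pow (neg_nonneg.2 h) (by norm_num),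
        neg_neg]
  have ht0 : t ≠ 0 := by
    rintro rfl
    exact inv_ne_zero hn (by simpa using ht'.symm)
  have h2 := h1.smul t
  rw [ht', inv_mul_cancel₀ hn] at h2
  exact ⟨⟨Units.mk0 t ht0 • glmap iota g, mem_E6_iff.2 h2⟩, t, rfl⟩

variable {D : Spec F} {b' : ℚ} {γ' : UG b' ℚ} {P' : GL I F} (k : Type) [Field k] [Algebra ℚ k]

theorem descend [IsGalois ℚ F] (hb' : b' ≠ 0) {a' : Aut F → I → Fˣ} {κ : Aut F → Fˣ}
    (h' : Frame D b' γ' P' fun s x => κ s * a' s x) (g : GL I (k ⊗[ℚ] F))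
    (hs : ∃ ν, Sim ((eT D.lam).map (inc k F)) (nJ _) g.1 ν) (c : Aut F → k ⊗[ℚ] F)
    (hc : ∀ s, g.1 * (dg (a' s) * pm F (D.w s)).map (inc k F) =
      c s • (ph b' _ ^ D.ix s * g.1.map (lact k s))) :
    ∃ (y : (k ⊗[ℚ] F)ˣ) (h : Gt b' k),
      h.1.1.map (jk k D.j) = y.1 • (glmap (inc k F) P' * g⁻¹).1 := by
  refine D.descend_loc k hb' _ ?_ (fun s => inc k F (κ s) * c s) fun s => ?_
  · obtain ⟨ν, hν⟩ := hs
    obtain ⟨ν, rfl⟩ := hν.isUnit (isAlb_nJ _)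
    obtain ⟨μ, hμ⟩ := h'.sim
    have h1 := hμ.map (inc k F)
    rw [nJ_map] at h1
    exact ⟨_, h1.mul hν.inv⟩
  · have e1 : ph b' (k ⊗[ℚ] F) ^ D.ix s * (P'.1.map (inc k F)).map (lact k s) =
        inc k F (κ s) • (P'.1.map (inc k F) * (dg (a' s) * pm F (D.w s)).map (inc k F)) := by
      have h1 := congrArg (inc k F).mapMatrix (h'.coc s)
      have h2 : dg (fun x => κ s * a' s x) = (κ s).1 • dg (a' s) := by
        rw [← Matrix.one_mul (dg (a' s)), ← Matrix.smul_mul, ← dg_const, ← dg_mul]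
        rfl
      rw [h2, Matrix.smul_mul, Matrix.mul_smul, map_mul, map_pow, RingHom.mapMatrix_apply,
        RingHom.mapMatrix_apply, RingHom.mapMatrix_apply, ph_map,
        Matrix.map_smul' _ _ _ (map_mul (inc k F)), Matrix.map_mul] at h1
      exact h1
    have e2 : g.1.map (lact k s) * (g⁻¹).1.map (lact k s) = 1 := by
      rw [← Matrix.map_mul, Units.mul_inv, Matrix.map_one _ (map_zero _) (map_one _)]
    have e3 : (dg (a' s) * pm F (D.w s)).map (inc k F) * (g⁻¹).1.map (lact k s) =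
        c s • ((g⁻¹).1 * ph b' _ ^ D.ix s) := by
      rw [← Units.inv_mul_cancel_left g (_ * _), ← Matrix.mul_assoc g.1, hc, Matrix.smul_mul,
        Matrix.mul_assoc, e2, Matrix.mul_one, Matrix.mul_smul]
    change _ * (P'.1.map (inc k F) * (g⁻¹).1).map (lact k s) =
      _ • (P'.1.map (inc k F) * (g⁻¹).1 * _)
    rw [Matrix.map_mul, ← Matrix.mul_assoc, e1, Matrix.smul_mul, Matrix.mul_assoc, e3,
      Matrix.mul_smul, smul_smul, Matrix.mul_assoc]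

theorem inter {g : GL I (k ⊗[ℚ] F)} {y : k ⊗[ℚ] F} {h : Matrix I I (Cub k)}
    (hy : h.map (jk k D.j) = y • (glmap (inc k F) P' * g⁻¹).1) {g₁ : Gt b' ℚ} {x : I → Fˣ}
    (h1 : g₁.1.1.map D.j * P'.1 = P'.1 * dg x) {z : Matrix I I (Cub k)}
    (hz : z.map (jk k D.j) * g.1 = g.1 * (dg x).map (inc k F)) :
    (gmap b' (algebraMap ℚ k) g₁).1.1 * h = h * z := by
  apply Matrix.map_injective (jk_injective k D.j)
  have e1 : ((gmap b' (algebraMap ℚ k) g₁).1.1).map (jk k D.j) =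
      (g₁.1.1.map D.j).map (inc k F) := by
    ext1 i j
    exact jk_map k D.j _
  have e2 : (g⁻¹).1 * z.map (jk k D.j) = (dg x).map (inc k F) * (g⁻¹).1 := by
    rw [Units.inv_mul_eq_iff_eq_mul, ← Matrix.mul_assoc, ← hz, Units.mul_inv_cancel_right]
  change (_ * h).map (jk k D.j) = (h * z).map (jk k D.j)
  rw [Matrix.map_mul, Matrix.map_mul, e1, hy]
  change _ * y • (P'.1.map (inc k F) * (g⁻¹).1) = y • (P'.1.map (inc k F) * (g⁻¹).1) * _
  rw [Matrix.mul_smul, Matrix.smul_mul, ← Matrix.mul_assoc, ← Matrix.map_mul, h1, Matrix.map_mul,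
    Matrix.mul_assoc, Matrix.mul_assoc, e2]

end Part2Aux

variable [IsGalois ℚ F] {D : Spec F} {b b' : ℚ} {S' : Finset Nat.Primes}
  {e : ∀ p : Nat.Primes, UG b ℚ_[p] ≃ₜ* UG b' ℚ_[p]} {γ : UG b ℚ} {P : GL I F}
  {a η : Aut F → I → Fˣ}

theorem mat_of_frames (hb : b ≠ 0) (hb' : b' ≠ 0) (he : IsLink b b' S' e) {ρ : UG b ℝ ≃* E6}
    {ρ' : UG b' ℝ ≃* E6} (hρ : IsRho b ρ) (hρ' : IsRho b' ρ') (h : Frame D b γ P a)
    (hη : LocTw D S' η a) {γ' : UG b' ℚ} {P' : GL I F} {κ : Aut F → Fˣ}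
    (h' : Frame D b' γ' P' fun s x => κ s * (η s x * a s x)) :
    Mat (along e (Phi b)) (Phi b') (rhoQ ρ) (rhoQ ρ') (Kst b') (eps S') γ γ' := by
  obtain ⟨g, g', c, m, L⟩ := exists_locFr hb hb' he h hη
  obtain ⟨ζ, r, l, k, z⟩ := h.exists_zeta hb
  obtain ⟨ζ', r', l', k', z'⟩ := h'.exists_zeta hb'
  obtain ⟨τ, hτ⟩ := Part2Aux.exists_tau ζ ζ' (fun x => (k x).trans (k' x).symm) r r'
  have hx : ∀ t : Subgroup.centralizer {γ}, ∃ x, ζ x = t := fun t =>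
    MonoidHom.mem_range.1 (r.ge t.2)
  choose y u hu using fun p : Nat.Primes => Part2Aux.descend (a' := η * a) ℚ_[p] hb' h' (g p)
    (L.sim p) (fun s => ((c s).1.1 p).1) (L.coc p)
  obtain ⟨y', u', hu'⟩ := Part2Aux.descend (a' := η * a) ℝ hb' h' g' L.sim'
    (fun s => (c s).1.2.1) L.coc'
  obtain ⟨G, tG, hG⟩ := Part2Aux.ex (mul_mem u'.2.1 L.mem)
  refine ⟨τ, fun p => QuotientGroup.mk (u p), G, fun t ht => (hτ t _ (l.trans ht.symm)).trans l',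
    fun t t' => ?_, ?_, fun p t => ?_, fun t => ?_⟩
  · obtain ⟨x, hx1⟩ := hx t
    obtain ⟨x', hx2⟩ := hx t'
    refine Subtype.ext ?_
    rw [Subgroup.coe_mul, Subgroup.coe_mul, ← hx1, ← hx2, ← map_mul, ← map_mul, mul_comm]
  · refine (((((Set.finite_singleton (⟨7, by norm_num⟩ : Nat.Primes)).union
      (finite_not_unram F)).union (Part2Aux.fin_rat hb')).union (finite_not_intA P')).union
      L.fin).subset fun (p : Nat.Primes) hp => ?_
    by_contra hn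
    have h1 : p ≠ ⟨7, by norm_num⟩ := fun h => hn (Or.inl (Or.inl (Or.inl (Or.inl h))))
    have h2 : Unram p.1 F := not_not.1 fun h => hn (Or.inl (Or.inl (Or.inl (Or.inr h))))
    have h3 : ‖(b' : ℚ_[p])‖ = 1 := not_not.1 fun h => hn (Or.inl (Or.inl (Or.inr h)))
    have h4 : IntA (glmap (inc ℚ_[p] F) P') := not_not.1 fun h => hn (Or.inl (Or.inr h))
    have h5 : IntA (g p) := not_not.1 fun h => hn (Or.inr h)
    exact hp (D.mem_K0 (fun h7 => h1 (Subtype.ext h7)) h2 h3 (h4.mul h5.inv) (hu p))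
  · obtain ⟨x, hx1⟩ := hx t
    obtain ⟨g₀, e₀, f₀⟩ := z x
    obtain ⟨g₁, e₁, f₁⟩ := z' x
    obtain ⟨g₂, e₂, f₂⟩ := L.conj p g₀ x.1 f₀
    have h1 : gmap b' (algebraMap ℚ ℚ_[p]) g₁ * u p = u p * g₂ :=
      Subtype.ext (Units.ext (Part2Aux.inter ℚ_[p] (hu p) f₁ f₂))
    rw [hτ t x hx1, ← hx1, ← e₀, ← e₁]
    change QuotientGroup.mk (gmap b' (algebraMap ℚ ℚ_[p]) g₁) * _ =
      _ * e p (Phi b (QuotientGroup.mk g₀) p) ^ eps S' p
    rw [← e₂, ← QuotientGroup.mk_mul, ← QuotientGroup.mk_mul, h1]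
  · obtain ⟨x, hx1⟩ := hx t
    obtain ⟨g₀, e₀, f₀⟩ := z x
    obtain ⟨g₁, e₁, f₁⟩ := z' x
    have h1 := Part2Aux.inter ℝ hu' f₁ (L.conj' g₀ x.1 f₀)
    have h2 : (gmap b' (algebraMap ℚ ℝ) g₁).1.1 * (u'.1 * m).1 =
        (u'.1 * m).1 * (gmap b (algebraMap ℚ ℝ) g₀).1.1 := by
      rw [Units.val_mul, ← Matrix.mul_assoc, h1, Matrix.mul_assoc, Units.inv_mul_cancel_right,
        Matrix.mul_assoc]
    obtain ⟨t₀, ht₀⟩ := hρ (gmap b (algebraMap ℚ ℝ) g₀)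
    obtain ⟨t₁, ht₁⟩ := hρ' (gmap b' (algebraMap ℚ ℝ) g₁)
    rw [hτ t x hx1, ← hx1, ← e₀, ← e₁]
    change ρ' (QuotientGroup.mk (gmap b' (algebraMap ℚ ℝ) g₁)) * G =
      G * ρ (QuotientGroup.mk (gmap b (algebraMap ℚ ℝ) g₀))
    refine RhoAux.uniq (X := ((gmap b' (algebraMap ℚ ℝ) g₁).1.1 * (u'.1 * m).1).map iota)
      (t := t₁ * tG) (t' := tG * t₀) ?_ ?_
    · rw [Subgroup.coe_mul, Units.val_mul, ht₁, hG, Matrix.smul_mul, Matrix.mul_smul, smul_smul,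
        Matrix.map_mul]
    · rw [Subgroup.coe_mul, Units.val_mul, ht₀, hG, Matrix.smul_mul, Matrix.mul_smul, smul_smul,
        h2, Matrix.map_mul]

end Pool.Agent.P.MP_3c2f8c_gt.Ex
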