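import Pool.Agent.P.MP_3c2f8c_gt.Ex.Mt.SpecF

/-! Ex-Mt-Spec2: spectral data of a regular element. -/

namespace Pool.Agent.P.MP_3c2f8c_gt.Ex

open Matrix Polynomial Pool.Agent.Lib.CFT
open scoped TensorProduct

namespace Spec2Aux

theorem exists_field {Ω : Type} [Field Ω] [CharZero Ω] [IsAlgClosed Ω] {χ : ℚ[X]} (hχ : χ ≠ 0) :
    ∃ (F : Type) (_ : Field F) (_ : NumberField F) (_ : IsGalois ℚ F) (v : F →+* Ω),
      ∀ z : Ω, aeval z χ = 0 → ∃ y, v y = z := by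
  let F := IntermediateField.adjoin ℚ (χ.rootSet Ω)
  have h1 : χ.IsSplittingField ℚ F :=
    IntermediateField.adjoin_rootSet_isSplittingField (IsAlgClosed.splits _)
  have h2 : FiniteDimensional ℚ F := IsSplittingField.finiteDimensional F χ
  have h3 : Normal ℚ F := Normal.of_isSplittingField χ
  have h4 : NumberField F := NumberField.of_module_finite ℚ F
  exact ⟨F, inferInstance, h4, {}, algebraMap F Ω, fun z hz =>
    ⟨⟨z, IntermediateField.subset_adjoin ℚ _ (mem_rootSet.2 ⟨hχ, hz⟩)⟩, rfl⟩⟩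

theorem hom_ext {K : Type} [Field K] {f g : Cub ℚ →+* K} (h : f Cub.eta = g Cub.eta) : f = g :=
  Cub.hom_ext (fun t => RingHom.congr_fun (Subsingleton.elim (f.comp Cub.C) (g.comp Cub.C)) t) h

theorem exists_ix {K : Type} [Field K] (j j' : Cub ℚ →+* K) :
    ∃ i, i < 3 ∧ ∀ x, j' x = j ((Cub.sig ^ i : Cub ℚ ≃+* Cub ℚ) x) := by
  have h1 := Cub2Aux.hom_root j
  have h2 := Cub2Aux.hom_root j'
  have e1 : Cub.sig (Cub.eta : Cub ℚ) = Cub.eta ^ 2 - (1 + 1) := by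
    ext <;> simp [Cub.eta, pow_succ] <;> norm_num
  have e2 : Cub.sig (Cub.sig (Cub.eta : Cub ℚ)) = 1 - Cub.eta - Cub.eta ^ 2 := by
    ext <;> simp [Cub.eta, pow_succ] <;> norm_num
  have h3 : (j' Cub.eta - j Cub.eta) * (j' Cub.eta - j (Cub.sig Cub.eta)) *
      (j' Cub.eta - j (Cub.sig (Cub.sig Cub.eta))) = 0 := by
    rw [e2, e1]
    simp only [map_sub, map_add, map_pow, map_one]
    linear_combination h2 - (j Cub.eta * j' Cub.eta + 1 - j Cub.eta ^ 2) * h1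
  have key : ∀ i : ℕ, j' Cub.eta = j ((Cub.sig ^ i : Cub ℚ ≃+* Cub ℚ) Cub.eta) →
      ∀ x, j' x = j ((Cub.sig ^ i : Cub ℚ ≃+* Cub ℚ) x) := fun i h =>
    RingHom.congr_fun (hom_ext (g := j.comp (Cub.sig ^ i : Cub ℚ ≃+* Cub ℚ).toRingHom) h)
  simp only [mul_eq_zero, sub_eq_zero] at h3
  rcases h3 with (h | h) | h
  · exact ⟨0, by norm_num, key 0 h⟩
  · exact ⟨1, by norm_num, key 1 h⟩
  · exact ⟨2, by norm_num, key 2 h⟩

theorem zpow_inj {c : ℕ} {r : ℝ} (hc : 0 < c) (hr : r ≠ 0) {x y : ℤ}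
    (h : r * (13 : ℝ) ^ ((c : ℤ) * x) = r * (13 : ℝ) ^ ((c : ℤ) * y)) : x = y :=
  mul_left_cancel₀ (by exact_mod_cast hc.ne')
    (zpow_right_injective₀ (by norm_num) (by norm_num) (mul_left_cancel₀ hr h))

theorem exists_poly {b : ℚ} (hb : b ≠ 0) (g : Gt b ℚ) :
    ∃ χ : ℚ[X], χ.map Cub.C = g.1.1.charpoly := by
  rw [← mem_lifts, lifts_iff_coeff_lifts]
  intro n
  have h := congrArg (fun q => coeff q n) (Gt.charpoly_sig hb g)
  simp only [coeff_map] at h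
  exact ⟨_, (Cub.eq_C_of_sig h).symm⟩

theorem conj_eq {K : Type} [Field K] {A B : Matrix I I K} {P : GL I K} (h : A * P.1 = P.1 * B) :
    A.trace = B.trace ∧ A.charpoly = B.charpoly := by
  have h1 : A = P.1 * B * (P⁻¹).1 := by rw [← h, Units.mul_inv_cancel_right]
  refine ⟨by rw [h1, trace_units_conj], ?_⟩
  rw [h1, charpoly_mul_comm, Units.inv_mul_cancel_left]

end Spec2Aux

theorem exists_spec {b : ℚ} (hb : b ≠ 0) {γ : UG b ℚ} (h : Reg γ) :
    ∃ (F : Type) (_ : Field F) (_ : NumberField F) (_ : IsGalois ℚ F) (D : Spec F) (g : Gt b ℚ),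
      QuotientGroup.mk g = γ ∧ (g.1.1.map D.j).charpoly = ∏ a, (X - C (D.lam a).1) := by
  obtain ⟨g, j₀, rfl, lam, c, r, hc, hr, hχ, hn⟩ := h
  obtain ⟨χ, hχ'⟩ := Spec2Aux.exists_poly hb g
  have hmap : ∀ {K : Type} [Field K] [CharZero K] (j : Cub ℚ →+* K),
      χ.map (algebraMap ℚ K) = g.1.1.charpoly.map j := fun j => by
    rw [← hχ', Polynomial.map_map]
    exact congrArg (fun f => χ.map f) (Subsingleton.elim _ _)
  have hχ0 : χ ≠ 0 := fun h => g.1.1.charpoly_monic.ne_zero (by rw [← hχ', h, Polynomial.map_zero])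
  have hκ : (X ^ 3 + X ^ 2 - 2 * X - 1 : ℚ[X]) ≠ 0 := fun h => by
    simpa using congrArg (eval 0) h
  obtain ⟨F, _, _, _, v, hv⟩ := Spec2Aux.exists_field (Ω := PadicAlgCl 13) (mul_ne_zero hχ0 hκ)
  obtain ⟨θ, hθ⟩ := hv (j₀ Cub.eta) (by
    rw [map_mul]
    refine mul_eq_zero_of_right _ ?_
    simpa only [map_sub, map_add, map_mul, map_pow, aeval_X, map_one, map_ofNat] using
      Cub2Aux.hom_root j₀)
  have hθ' : θ ^ 3 + θ ^ 2 - 2 * θ - 1 = 0 := v.injective (by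
    simpa only [map_sub, map_add, map_mul, map_pow, map_one, map_ofNat, map_zero, hθ] using
      Cub2Aux.hom_root j₀)
  let j : Cub ℚ →+* F := Cub.lift (algebraMap ℚ F) θ hθ'
  have hj : v.comp j = j₀ := Spec2Aux.hom_ext (by
    rw [← hθ]
    simp [j, Cub.lift_apply, Cub.eta])
  choose l hl using fun a => hv (lam a) (by
    rw [map_mul, aeval_def, ← eval_map, hmap j₀, hχ, eval_prod,
      Finset.prod_eq_zero (Finset.mem_univ a) (by simp), zero_mul])
  have hl0 : ∀ a, l a ≠ 0 := fun a h => by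
    have h1 := hn a
    rw [← hl, h, map_zero, norm_zero] at h1
    exact (mul_pos hr (zpow_pos (by norm_num) _)).ne h1
  obtain ⟨u, hu⟩ : ∃ u : I → Fˣ, ∀ a, v (u a).1 = lam a :=
    ⟨fun a => Units.mk0 (l a) (hl0 a), hl⟩
  have hnu : ∀ a, ‖v (u a).1‖ = r * (13 : ℝ) ^ ((c : ℤ) * lv a) := fun a => by rw [hu, hn]
  have hinj : ∀ a a', (u a).1 = (u a').1 → a = a' := fun a a' h =>
    lv_injective (Spec2Aux.zpow_inj hc hr.ne' (by rw [← hnu, ← hnu, h]))
  have hch : (g.1.1.map j).charpoly = ∏ a, (X - C (u a).1) := by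
    apply Polynomial.map_injective v v.injective
    rw [charpoly_map, Polynomial.map_map, hj, hχ, Polynomial.map_prod]
    simp only [Polynomial.map_sub, map_X, map_C, hu]
  have hroot : ∀ z : F, aeval z χ = 0 ↔ ∃ a, z = (u a).1 := fun z => by
    rw [aeval_def, ← eval_map, hmap j, ← charpoly_map, hch, eval_prod, Finset.prod_eq_zero_iff]
    simp [sub_eq_zero]
  choose w hw using fun (s : Aut F) (a : I) => (hroot (s (u a).1)).1 (by
    rw [aeval_algEquiv, AlgHom.comp_apply, (hroot _).2 ⟨a, rfl⟩, map_zero])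
  let : MulAction (Aut F) I :=
    { smul := w
      one_smul := fun a => hinj _ _ (hw 1 a).symm
      mul_smul := fun s t a => hinj _ _ (by
        change (u (w (s * t) a)).1 = (u (w s (w t a))).1
        rw [← hw, ← hw, ← hw]
        rfl) }
  choose ix hix using fun s : Aut F => Spec2Aux.exists_ix j ((s : F →+* F).comp j)
  obtain ⟨P, hP⟩ := exists_eigenbasis _ u (fun a a' h h' => h (hinj a a' h')) hch
  obtain ⟨m, h1, h2, h3, h4⟩ := SpecFAux.supp (SpecFAux.sim_map hb g j) hP v hc hr hnu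
  have hne : ∀ a a', Adj a a' → (nJ F).pull P.1 a a' (thd a a') ≠ 0 := fun a a' h =>
    left_ne_zero_of_mul_eq_one (h3.mul_eq_one h1 h4 h)
  have hν : ∀ a a', Adj a a' → (u a).1 * (u a').1 * (u (thd a a')).1 =
      algebraMap ℚ F (Gt.nu g) := fun a a' h => by
    have h5 := congrFun (congrFun (congrFun (sim_iff_pull.1 h2) a) a') (thd a a')
    rw [pull_dg, mul_comm] at h5
    exact (mul_right_cancel₀ (hne a a' h) h5).trans
      (RingHom.congr_fun (Subsingleton.elim (j.comp Cub.C) (algebraMap ℚ F)) _)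
  have hnorm : ∀ a a' a'', ‖v ((u a).1 * (u a').1 * (u a'').1)‖ =
      r ^ 3 * (13 : ℝ) ^ ((c : ℤ) * (lv a + lv a' + lv a'')) := fun a a' a'' => by
    rw [map_mul, map_mul, norm_mul, norm_mul, hnu, hnu, hnu, mul_add, mul_add,
      zpow_add₀ (by norm_num), zpow_add₀ (by norm_num)]
    ring
  have hadj : ∀ (s : Aut F) a a', Adj a a' → Adj (s • a) (s • a') := fun s a a' h => by
    have h5 := congrArg s (hν a a' h)
    rw [AlgEquiv.commutes, map_mul, map_mul, hw, hw, hw, ← hν a a' h] at h5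
    have h6 := hnorm (w s a) (w s a') (w s (thd a a'))
    rw [h5, hnorm, (lv_sum_iff a a' _).2 ⟨h, rfl⟩] at h6
    exact ((lv_sum_iff _ _ _).1 (Spec2Aux.zpow_inj hc (pow_ne_zero 3 hr.ne') h6).symm).1
  refine ⟨F, inferInstance, inferInstance, inferInstance,
    ⟨j, ix, u, MulAction.toPermHom (Aut F) I, v, c, r, fun s => (hix s).1, fun s => (hix s).2, hw,
      fun s a a' => ⟨fun h => ?_, hadj s a a'⟩,
      inT_of_sim (fun a a' h => (hne a a' h).isUnit) h2, hc, hr, hnu⟩, g, rfl, hch⟩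
  have h5 := hadj s⁻¹ (s • a) (s • a') h
  rwa [inv_smul_smul, inv_smul_smul] at h5

variable {F : Type} [Field F] [NumberField F]

theorem Frame.of_conj {D : Spec F} {b : ℚ} (hb : b ≠ 0) {ρ : UG b ℝ ≃* E6} (hρ : IsRho b ρ)
    {γ₀ γ : UG b ℚ} {P : GL I F} {a : Aut F → I → Fˣ} (h : Frame D b γ₀ P a)
    (hc : IsConj (rhoQ ρ γ) (rhoQ ρ γ₀)) : ∃ P' a', Frame D b γ P' a' := by
  obtain ⟨g₀, rfl, h0⟩ := h.eig
  obtain ⟨g, rfl⟩ := QuotientGroup.mk_surjective γ
  have spec : ∀ k : Gt b ℚ, ∃ t : ℝ, t ≠ 0 ∧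
      (rhoQ ρ (QuotientGroup.mk k)).1.1 = t • k.1.1.map iotaQ := fun k => by
    obtain ⟨t, h1, h2⟩ := hρ.spec hb (gmap b (algebraMap ℚ ℝ) k)
    refine ⟨t, ?_, h2⟩
    rintro rfl
    simp at h1
  have htr : ∀ {K : Type} [Field K] [CharZero K] (j : Cub ℚ →+* K) (k : Gt b ℚ),
      (k.1.1.map j).trace = algebraMap ℚ K k.1.1.trace.c0 := fun j k => by
    rw [← AddMonoidHom.map_trace, Gt.trace hb k]
    exact RingHom.congr_fun (Subsingleton.elim (j.comp Cub.C) (algebraMap ℚ _)) _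
  obtain ⟨t₀, ht₀, e₀⟩ := spec g₀
  obtain ⟨t, ht, e⟩ := spec g
  obtain ⟨c, hc⟩ := hc
  have h1 : (t₀ • g₀.1.1.map iotaQ) * c.1.1.1 = c.1.1.1 * (t • g.1.1.map iotaQ) := by
    rw [← e₀, ← e]
    exact congrArg (fun k : E6 => k.1.1) hc.eq.symm
  obtain ⟨h2, h3⟩ := Spec2Aux.conj_eq h0
  have h4 : g₀.1.1.trace.c0 ≠ 0 := fun h => D.sum_ne (by
    rw [htr, h, map_zero, dg, trace_diagonal] at h2
    exact h2.symm)
  have h5 := (Spec2Aux.conj_eq h1).1
  rw [trace_smul, trace_smul, htr, htr, smul_eq_mul, smul_eq_mul] at h5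
  have h6 : g.1.1.trace.c0 ≠ 0 := fun h => by
    rw [h, map_zero, mul_zero] at h5
    exact mul_ne_zero ht₀ ((_root_.map_ne_zero _).2 h4) h5
  obtain ⟨g', h7, -, h8⟩ := Gt.exists_smul g (Units.mk0 _ (div_ne_zero h4 h6))
  have h9 : t • g.1.1.map iotaQ = t₀ • g'.1.1.map iotaQ := by
    have h10 : algebraMap ℚ ℝ g.1.1.trace.c0 ≠ 0 := (_root_.map_ne_zero _).2 h6
    ext x y
    simp only [h7, Units.val_mk0, Matrix.smul_apply, Matrix.map_apply, smul_eq_mul]
    rw [Algebra.smul_def, map_mul, RingHom.map_rat_algebraMap, map_div₀, ← mul_assoc,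
      ← mul_div_assoc, h5, mul_div_cancel_right₀ _ h10]
  rw [h9, Matrix.smul_mul, Matrix.mul_smul] at h1
  have h10 := (Spec2Aux.conj_eq (smul_right_injective _ ht₀ h1)).2
  rw [charpoly_map, charpoly_map] at h10
  rw [← h8]
  refine D.exists_frame hb g' ?_
  rw [charpoly_map, ← Polynomial.map_injective _ iotaQ_injective h10, ← charpoly_map, h3, dg,
    charpoly_diagonal]

end Pool.Agent.P.MP_3c2f8c_gt.Ex
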