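import Pool.Agent.P.MP_3c2f8c_gt.Ex.Mt.Part
import Pool.Agent.P.MP_3c2f8c_gt.Ex.Mt.Part2
import Pool.Agent.P.MP_3c2f8c_gt.Ex.Mt.Spec2
import Pool.Agent.P.MP_3c2f8c_gt.Ex.Mt.Asm

/-!
Matching of regular elements.
-/

namespace Pool.Agent.P.MP_3c2f8c_gt.Ex

open Pool.Agent.Lib.CFT

theorem isConj_of_along {b b' : ℚ} {e : ∀ p : Nat.Primes, UG b ℚ_[p] ≃ₜ* UG b' ℚ_[p]}
    {γ γ₀ : UG b ℚ} {p : Nat.Primes} (h : IsConj (along e (Phi b) γ p) (along e (Phi b) γ₀ p)) :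
    IsConj (Phi b γ p) (Phi b γ₀ p) := by
  have h' := (e p).symm.toMulEquiv.toMonoidHom.map_isConj h
  have k : ∀ δ : UG b ℚ, (e p).symm.toMulEquiv.toMonoidHom (along e (Phi b) δ p) = Phi b δ p :=
    fun δ => (e p).symm_apply_apply _
  rwa [k, k] at h'

theorem matching {b b' : ℚ} (hb : Good b) (hb' : Good b') {S' : Finset Nat.Primes}
    {e : ∀ p : Nat.Primes, UG b ℚ_[p] ≃ₜ* UG b' ℚ_[p]} (he : IsLink b b' S' e) (hS : Bal b S')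
    {ρ : UG b ℝ ≃* E6} {ρ' : UG b' ℝ ≃* E6} (hρ : IsRho b ρ) (hρ' : IsRho b' ρ') :
    AdMatch (along e (Phi b)) (Phi b') (rhoQ ρ) (rhoQ ρ') (Kst b') (eps S') Reg := by
  classical
  refine adMatch_of_class (fun p => by unfold eps; split_ifs <;> simp) fun γ₀ h₀ => ?_
  obtain ⟨F, _, _, _, D, g₀, hg₀, hχ⟩ := exists_spec hb.ne h₀
  obtain ⟨P₀, a₀, hF₀⟩ := D.exists_frame hb.ne g₀ hχ
  rw [hg₀] at hF₀
  obtain ⟨η, hT, hη⟩ := hF₀.exists_eta hb hS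
  have key : ∀ γ : UG b ℚ, ∃ γ' : UG b' ℚ, IsConj (rhoQ ρ γ) (rhoQ ρ γ₀) →
      (∀ p, IsConj (along e (Phi b) γ p) (along e (Phi b) γ₀ p)) →
      ∃ (P : GL I F) (a : Aut F → I → Fˣ) (P' : GL I F) (κ : Aut F → Fˣ), Frame D b γ P a ∧
        LocTw D S' η a ∧ Frame D b' γ' P' fun s x => κ s * (η s x * a s x) := fun γ => by
    by_cases hc : IsConj (rhoQ ρ γ) (rhoQ ρ γ₀) ∧
      ∀ p, IsConj (along e (Phi b) γ p) (along e (Phi b) γ₀ p)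
    · obtain ⟨P, a, hF⟩ := hF₀.of_conj hb.ne hρ hc.1
      have hη' : LocTw D S' η a :=
        hη.transfer hb.ne hF₀ hF fun p _ => (isConj_of_along (hc.2 p)).symm
      obtain ⟨γ', P', κ, hF'⟩ := exists_partner hb.ne hb' he hF hT hη'
      exact ⟨γ', fun _ _ => ⟨P, a, P', κ, hF, hη', hF'⟩⟩
    · exact ⟨1, fun h1 h2 => absurd ⟨h1, h2⟩ hc⟩
  choose f hf using key
  refine ⟨f, fun γ h1 h2 => ?_, fun γ₁ γ₂ h1 h2 h3 h4 hc => ?_⟩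
  · obtain ⟨P, a, P', κ, hF, hη', hF'⟩ := hf γ h1 h2
    exact mat_of_frames hb.ne hb'.ne he hρ hρ' hF hη' hF'
  · obtain ⟨P₁, a₁, P₁', κ₁, hF₁, -, hF₁'⟩ := hf γ₁ h1 h2
    obtain ⟨P₂, a₂, P₂', κ₂, hF₂, -, hF₂'⟩ := hf γ₂ h3 h4
    obtain ⟨t, ht, hcoh⟩ := hF₁'.coh_of_isConj hb'.ne hF₂' hc
    refine hF₁.isConj_of_coh hb.ne hF₂ ht (fun s => κ₂ s * (κ₁ s)⁻¹) fun s x => ?_
    have h := hcoh s x
    refine mul_left_cancel (a := κ₁ s * η s x) ?_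
    calc κ₁ s * η s x * (a₁ s x * t x) = κ₁ s * (η s x * a₁ s x) * t x := by ac_rfl
      _ = κ₂ s * (η s x * a₂ s x) * gact s (t ((D.w s)⁻¹ x)) := h
      _ = (κ₁ s * (κ₁ s)⁻¹) * (κ₂ s * (η s x * a₂ s x) * gact s (t ((D.w s)⁻¹ x))) := by
          rw [mul_inv_cancel, one_mul]
      _ = _ := by ac_rfl

end Pool.Agent.P.MP_3c2f8c_gt.Ex
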