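import Pool.Agent.P.MP_3c2f8c_gt.Ex.Mt.LocF
import Pool.Agent.P.MP_3c2f8c_gt.Ex.Mt.Eta2
import Pool.Agent.P.MP_3c2f8c_gt.Ex.HP.Main

/-! Ex-Mt-Part: the partner of a regular element. -/

namespace Pool.Agent.P.MP_3c2f8c_gt.Ex

open Matrix Polynomial Pool.Agent.Lib.CFT
open scoped TensorProduct

variable {F : Type} [Field F] [NumberField F]

namespace PartAux

theorem inT_mul {A : Type} [CommGroup A] {x y : I → A} (hx : InT x) (hy : InT y) :
    InT (x * y) := by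
  obtain ⟨ν, hx⟩ := hx
  obtain ⟨μ, hy⟩ := hy
  refine ⟨ν * μ, fun a b h => ?_⟩
  rw [← hx a b h, ← hy a b h]
  simp only [Pi.mul_apply]
  ac_rfl

theorem map_mul' (s : Aut F) (A B : Matrix I I F) : (A * B).map s = A.map s * B.map s :=
  Matrix.map_mul (f := s.toRingEquiv.toRingHom)

theorem map_dg (s : Aut F) (x : I → Fˣ) : (dg x).map s = dg fun a => gact s (x a) :=
  dg_map s.toRingEquiv.toRingHom x

theorem map_pm (s : Aut F) (w : Equiv.Perm I) : (pm F w).map s = pm F w :=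
  pm_map s.toRingEquiv.toRingHom w

omit [NumberField F] in
theorem dg_scal (k : Fˣ) (x : I → Fˣ) : (dg fun a => k * x a) = k.1 • dg x := by
  rw [← Matrix.one_mul (dg x), ← smul_mul_assoc, ← dg_const, ← dg_mul]
  rfl

theorem comm (D : Spec F) (s : Aut F) (x : I → Fˣ) :
    dg x * pm F (D.w s) * (dg D.lam).map s = dg D.lam * (dg x * pm F (D.w s)) := by
  have e : ((fun a => gact s (D.lam a)) ∘ ⇑(D.w s)⁻¹) = D.lam := funext fun a =>
    Units.ext (by simp [gact_val, D.hw])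
  rw [map_dg, Matrix.mul_assoc, pm_dg, e, ← Matrix.mul_assoc, ← Matrix.mul_assoc, ← dg_mul,
    ← dg_mul, mul_comm x]

end PartAux

variable [IsGalois ℚ F] {D : Spec F} {b b' : ℚ} {S' : Finset Nat.Primes}
  {e : ∀ p : Nat.Primes, UG b ℚ_[p] ≃ₜ* UG b' ℚ_[p]} {γ : UG b ℚ} {P : GL I F}
  {a η : Aut F → I → Fˣ}

theorem exists_partner (hb : b ≠ 0) (hb' : Good b') (he : IsLink b b' S' e) (h : Frame D b γ P a)
    (hT : ∀ s, InT (η s)) (hη : LocTw D S' η a) :
    ∃ (γ' : UG b' ℚ) (P' : GL I F) (κ : Aut F → Fˣ),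
      Frame D b' γ' P' fun s x => κ s * (η s x * a s x) := by
  obtain ⟨g, g', c, m, L⟩ := exists_locFr hb hb'.ne he h hη
  choose ψ hψ using fun s => exists_dg_pm ((η * a) s) (D.w s)
  obtain ⟨θ, ⟨ν, hθ⟩, hc⟩ := hasse hb' D.j D.ix D.hix D.isAlb ψ
    (fun s => by
      obtain ⟨μ, hμ⟩ := (PartAux.inT_mul (hT s) (h.inT hb s)).sim (supp_eT (lam := D.lam))
      exact ⟨_, hψ s ▸ hμ.mul (D.sim_pm s)⟩)
    (fun s t => by
      obtain ⟨κ, hκ⟩ := hη.cocycle s t
      have hb0 : ((b : F) ^ (2 * D.cy s t)) ≠ 0 := pow_ne_zero _ (by exact_mod_cast hb)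
      refine ⟨(κ * Units.mk0 _ hb0).1, ?_⟩
      rw [hψ, hψ, hψ, PartAux.map_mul', PartAux.map_dg, PartAux.map_pm, Matrix.mul_assoc,
        ← Matrix.mul_assoc (pm F _), pm_dg, Matrix.mul_assoc, ← pm_mul, ← map_mul,
        ← Matrix.mul_assoc, ← dg_mul, ← smul_mul_assoc, ← PartAux.dg_scal]
      congr 2
      funext x
      apply Units.ext
      have h1 := congrArg Units.val (hκ x)
      have h2 := h.cocycle hb s t x
      simp only [Units.val_mul, gact_val, Pi.mul_apply, Function.comp_apply, map_mul,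
        Units.val_mk0] at h1 ⊢
      linear_combination ((a s x).1 * s (a t ((D.w s)⁻¹ x)).1) * h1 + (κ.1 * (η (s * t) x).1) * h2)
    g g' c L.sim L.sim' (fun p s => by rw [hψ]; exact L.coc p s) (fun s => by
      rw [hψ]; exact L.coc' s)
  choose κ hκ using hc
  have κ0 : ∀ s, κ s ≠ 0 := fun s e0 => by
    have := hκ s
    rw [e0, zero_smul, ← Units.val_mul] at this
    exact Units.ne_zero _ this
  have coc : ∀ s : Aut F, ph b' F ^ D.ix s * θ.1.map s =
      θ.1 * (dg (fun x => (Units.mk0 _ (κ0 s))⁻¹ * (η s x * a s x)) * pm F (D.w s)) := fun s => by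
    rw [PartAux.dg_scal, smul_mul_assoc, mul_smul_comm]
    have := hκ s
    rw [hψ] at this
    change θ.1 * (dg (fun x => η s x * a s x) * _) = _ at this
    rw [this, smul_smul, Units.val_inv_eq_inv_val, Units.val_mk0, inv_mul_cancel₀ (κ0 s), one_smul]
  obtain ⟨ν', rfl⟩ := hθ.isUnit (isAlb_nJ F)
  obtain ⟨μ, hμ⟩ := D.inT.sim (supp_eT (lam := D.lam))
  obtain ⟨γ', hγ⟩ := D.descend₀ (b := b') (θ * dgU D.lam * θ⁻¹) ⟨_, (hθ.mul hμ).mul hθ.inv⟩
    fun s => by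
      have e1 : θ.1.map s * (θ⁻¹).1.map s = 1 := by
        rw [← PartAux.map_mul', Units.mul_inv]
        simp
      have e2 : ph b' F ^ D.ix s = ph b' F ^ D.ix s * θ.1.map s * (θ⁻¹).1.map s := by
        rw [Matrix.mul_assoc, e1, Matrix.mul_one]
      change _ * (θ.1 * dg D.lam * (θ⁻¹).1).map s = θ.1 * dg D.lam * (θ⁻¹).1 * _
      conv_rhs => rw [e2, coc]
      rw [PartAux.map_mul', PartAux.map_mul', ← Matrix.mul_assoc, ← Matrix.mul_assoc, coc,
        Matrix.mul_assoc θ.1, PartAux.comm]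
      simp only [Matrix.mul_assoc, Units.inv_mul_cancel_left]
  refine ⟨QuotientGroup.mk γ', θ, fun s => (Units.mk0 _ (κ0 s))⁻¹, ⟨γ', rfl, ?_⟩, ⟨_, hθ⟩, coc⟩
  rw [hγ, ← Units.val_mul, inv_mul_cancel_right]
  rfl

end Pool.Agent.P.MP_3c2f8c_gt.Ex
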