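import Pool.Agent.P.MP_3c2f8c_gt.Ex.Mt.Tor
import Pool.Agent.P.MP_3c2f8c_gt.Ex.Al.B1

/-! Ex-Mt-Solve: Albert pairs supported on the triples. -/

namespace Pool.Agent.P.MP_3c2f8c_gt.Ex

open Matrix Polynomial Pool.Agent.Lib.CFT
open scoped TensorProduct

variable {K : Type} [Field K] [CharZero K] {n m : T3 K}

namespace SolveAux

/-- The list of the 45 triples. -/
def LT : List (ℕ × ℕ × ℕ) := [
  (0, 1, 2), (0, 3, 10), (0, 4, 7), (0, 5, 8), (1, 11, 18), (3, 11, 19), (4, 15, 19),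
  (4, 18, 23), (5, 16, 19), (5, 18, 24), (7, 11, 20), (7, 16, 25), (7, 17, 24), (8, 11, 21),
  (9, 15, 24), (10, 17, 22), (10, 18, 26), (0, 6, 9), (1, 12, 15), (1, 13, 16), (1, 14, 17),
  (2, 19, 26), (7, 12, 26), (2, 20, 23), (8, 13, 26), (2, 21, 24), (6, 12, 21), (10, 15, 20),
  (3, 12, 23), (10, 16, 21), (3, 13, 24), (9, 16, 23), (6, 13, 20), (4, 14, 21), (4, 13, 22),
  (3, 14, 25), (5, 12, 22), (5, 14, 20), (8, 15, 25), (8, 17, 23), (9, 14, 26), (9, 11, 22),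
  (6, 17, 19), (6, 18, 25), (2, 22, 25)]

theorem solve {A : Type} [AddCommGroup A] (w : ℕ → ℕ → A)
    (r0 : w 0 1 + w 3 11 + w 10 18 = w 0 3 + w 1 11 + w 2 19)
    (r1 : w 0 1 + w 4 15 + w 7 12 = w 0 4 + w 1 12 + w 2 19)
    (r2 : w 0 1 + w 4 18 + w 7 11 = w 0 4 + w 1 11 + w 2 20)
    (r3 : w 0 1 + w 5 16 + w 8 13 = w 0 5 + w 1 13 + w 2 19)
    (r4 : w 0 1 + w 5 18 + w 8 11 = w 0 5 + w 1 11 + w 2 21)
    (r5 : w 0 1 + w 6 12 + w 9 15 = w 0 6 + w 1 12 + w 2 21)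
    (r6 : w 0 3 + w 4 15 + w 7 11 = w 0 4 + w 3 11 + w 10 15)
    (r7 : w 0 3 + w 4 18 + w 7 12 = w 0 4 + w 3 12 + w 10 18)
    (r8 : w 0 3 + w 5 16 + w 8 11 = w 0 5 + w 3 11 + w 10 16)
    (r9 : w 0 3 + w 5 18 + w 8 13 = w 0 5 + w 3 13 + w 10 18)
    (r10 : w 0 3 + w 6 12 + w 9 16 = w 0 6 + w 3 12 + w 10 16)
    (r11 : w 0 3 + w 6 13 + w 9 15 = w 0 6 + w 3 13 + w 10 15)
    (r12 : w 0 4 + w 1 14 + w 2 21 = w 0 1 + w 4 14 + w 7 17)
    (r13 : w 0 4 + w 3 13 + w 10 17 = w 0 3 + w 4 13 + w 7 17)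
    (r14 : w 0 4 + w 3 14 + w 10 16 = w 0 3 + w 4 14 + w 7 16)
    (r15 : w 0 4 + w 5 12 + w 8 13 = w 0 5 + w 4 13 + w 7 12)
    (r16 : w 0 4 + w 5 14 + w 8 11 = w 0 5 + w 4 14 + w 7 11)
    (r17 : w 0 4 + w 5 16 + w 8 15 = w 0 5 + w 4 15 + w 7 16)
    (r18 : w 0 4 + w 5 18 + w 8 17 = w 0 5 + w 4 18 + w 7 17)
    (r19 : w 0 4 + w 6 12 + w 9 14 = w 0 6 + w 4 14 + w 7 12)
    (r20 : w 0 4 + w 6 13 + w 9 11 = w 0 6 + w 4 13 + w 7 11)
    (r21 : w 0 4 + w 6 17 + w 9 15 = w 0 6 + w 4 15 + w 7 17)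
    (r22 : w 0 4 + w 6 18 + w 9 16 = w 0 6 + w 4 18 + w 7 16)
    (r23 : w 0 5 + w 1 12 + w 2 22 = w 0 1 + w 5 12 + w 8 15) :
    ∃ X : ℕ → A, ∀ t ∈ LT, w t.1 t.2.1 = X t.1 + X t.2.1 + X t.2.2 := by
  obtain ⟨x2, h0_1⟩ : ∃ x, w 0 1 = 0 + 0 + x :=
    ⟨w 0 1 - 0 - 0, by abel⟩
  obtain ⟨x10, h0_3⟩ : ∃ x, w 0 3 = 0 + 0 + x :=
    ⟨w 0 3 - 0 - 0, by abel⟩
  obtain ⟨x7, h0_4⟩ : ∃ x, w 0 4 = 0 + 0 + x :=
    ⟨w 0 4 - 0 - 0, by abel⟩
  obtain ⟨x8, h0_5⟩ : ∃ x, w 0 5 = 0 + 0 + x :=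
    ⟨w 0 5 - 0 - 0, by abel⟩
  obtain ⟨x18, h1_11⟩ : ∃ x, w 1 11 = 0 + 0 + x :=
    ⟨w 1 11 - 0 - 0, by abel⟩
  obtain ⟨x19, h3_11⟩ : ∃ x, w 3 11 = 0 + 0 + x :=
    ⟨w 3 11 - 0 - 0, by abel⟩
  obtain ⟨x15, h4_15⟩ : ∃ x, w 4 15 = 0 + x + x19 :=
    ⟨w 4 15 - 0 - x19, by abel⟩
  obtain ⟨x23, h4_18⟩ : ∃ x, w 4 18 = 0 + x18 + x :=
    ⟨w 4 18 - 0 - x18, by abel⟩
  obtain ⟨x16, h5_16⟩ : ∃ x, w 5 16 = 0 + x + x19 :=
    ⟨w 5 16 - 0 - x19, by abel⟩
  obtain ⟨x24, h5_18⟩ : ∃ x, w 5 18 = 0 + x18 + x :=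
    ⟨w 5 18 - 0 - x18, by abel⟩
  obtain ⟨x20, h7_11⟩ : ∃ x, w 7 11 = x7 + 0 + x :=
    ⟨w 7 11 - x7 - 0, by abel⟩
  obtain ⟨x25, h7_16⟩ : ∃ x, w 7 16 = x7 + x16 + x :=
    ⟨w 7 16 - x7 - x16, by abel⟩
  obtain ⟨x17, h7_17⟩ : ∃ x, w 7 17 = x7 + x + x24 :=
    ⟨w 7 17 - x7 - x24, by abel⟩
  obtain ⟨x21, h8_11⟩ : ∃ x, w 8 11 = x8 + 0 + x :=
    ⟨w 8 11 - x8 - 0, by abel⟩
  obtain ⟨x9, h9_15⟩ : ∃ x, w 9 15 = x + x15 + x24 :=
    ⟨w 9 15 - x15 - x24, by abel⟩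
  obtain ⟨x22, h10_17⟩ : ∃ x, w 10 17 = x10 + x17 + x :=
    ⟨w 10 17 - x10 - x17, by abel⟩
  obtain ⟨x26, h10_18⟩ : ∃ x, w 10 18 = x10 + x18 + x :=
    ⟨w 10 18 - x10 - x18, by abel⟩
  obtain ⟨x6, h0_6⟩ : ∃ x, w 0 6 = 0 + x + x9 :=
    ⟨w 0 6 - 0 - x9, by abel⟩
  obtain ⟨x12, h1_12⟩ : ∃ x, w 1 12 = 0 + x + x15 :=
    ⟨w 1 12 - 0 - x15, by abel⟩
  obtain ⟨x13, h1_13⟩ : ∃ x, w 1 13 = 0 + x + x16 :=
    ⟨w 1 13 - 0 - x16, by abel⟩
  obtain ⟨x14, h1_14⟩ : ∃ x, w 1 14 = 0 + x + x17 :=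
    ⟨w 1 14 - 0 - x17, by abel⟩
  have h2_19 : w 2 19 = x2 + x19 + x26 := by
    linear_combination (norm := abel) -r0 - h0_3 - h1_11 + h0_1 + h3_11 + h10_18
  have h7_12 : w 7 12 = x7 + x12 + x26 := by
    linear_combination (norm := abel) r1 - h0_1 - h4_15 + h0_4 + h1_12 + h2_19
  have h2_20 : w 2 20 = x2 + x20 + x23 := by
    linear_combination (norm := abel) -r2 - h0_4 - h1_11 + h0_1 + h4_18 + h7_11
  have h8_13 : w 8 13 = x8 + x13 + x26 := by
    linear_combination (norm := abel) r3 - h0_1 - h5_16 + h0_5 + h1_13 + h2_19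
  have h2_21 : w 2 21 = x2 + x21 + x24 := by
    linear_combination (norm := abel) -r4 - h0_5 - h1_11 + h0_1 + h5_18 + h8_11
  have h6_12 : w 6 12 = x6 + x12 + x21 := by
    linear_combination (norm := abel) r5 - h0_1 - h9_15 + h0_6 + h1_12 + h2_21
  have h10_15 : w 10 15 = x10 + x15 + x20 := by
    linear_combination (norm := abel) -r6 - h0_4 - h3_11 + h0_3 + h4_15 + h7_11
  have h3_12 : w 3 12 = 0 + x12 + x23 := by
    linear_combination (norm := abel) -r7 - h0_4 - h10_18 + h0_3 + h4_18 + h7_12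
  have h10_16 : w 10 16 = x10 + x16 + x21 := by
    linear_combination (norm := abel) -r8 - h0_5 - h3_11 + h0_3 + h5_16 + h8_11
  have h3_13 : w 3 13 = 0 + x13 + x24 := by
    linear_combination (norm := abel) -r9 - h0_5 - h10_18 + h0_3 + h5_18 + h8_13
  have h9_16 : w 9 16 = x9 + x16 + x23 := by
    linear_combination (norm := abel) r10 - h0_3 - h6_12 + h0_6 + h3_12 + h10_16
  have h6_13 : w 6 13 = x6 + x13 + x20 := by
    linear_combination (norm := abel) r11 - h0_3 - h9_15 + h0_6 + h3_13 + h10_15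
  have h4_14 : w 4 14 = 0 + x14 + x21 := by
    linear_combination (norm := abel) -r12 - h0_1 - h7_17 + h0_4 + h1_14 + h2_21
  have h4_13 : w 4 13 = 0 + x13 + x22 := by
    linear_combination (norm := abel) -r13 - h0_3 - h7_17 + h0_4 + h3_13 + h10_17
  have h3_14 : w 3 14 = 0 + x14 + x25 := by
    linear_combination (norm := abel) r14 - h0_4 - h10_16 + h0_3 + h4_14 + h7_16
  have h5_12 : w 5 12 = 0 + x12 + x22 := by
    linear_combination (norm := abel) r15 - h0_4 - h8_13 + h0_5 + h4_13 + h7_12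
  have h5_14 : w 5 14 = 0 + x14 + x20 := by
    linear_combination (norm := abel) r16 - h0_4 - h8_11 + h0_5 + h4_14 + h7_11
  have h8_15 : w 8 15 = x8 + x15 + x25 := by
    linear_combination (norm := abel) r17 - h0_4 - h5_16 + h0_5 + h4_15 + h7_16
  have h8_17 : w 8 17 = x8 + x17 + x23 := by
    linear_combination (norm := abel) r18 - h0_4 - h5_18 + h0_5 + h4_18 + h7_17
  have h9_14 : w 9 14 = x9 + x14 + x26 := by
    linear_combination (norm := abel) r19 - h0_4 - h6_12 + h0_6 + h4_14 + h7_12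
  have h9_11 : w 9 11 = x9 + 0 + x22 := by
    linear_combination (norm := abel) r20 - h0_4 - h6_13 + h0_6 + h4_13 + h7_11
  have h6_17 : w 6 17 = x6 + x17 + x19 := by
    linear_combination (norm := abel) r21 - h0_4 - h9_15 + h0_6 + h4_15 + h7_17
  have h6_18 : w 6 18 = x6 + x18 + x25 := by
    linear_combination (norm := abel) r22 - h0_4 - h9_16 + h0_6 + h4_18 + h7_16
  have h2_22 : w 2 22 = x2 + x22 + x25 := by
    linear_combination (norm := abel) r23 - h0_5 - h1_12 + h0_1 + h5_12 + h8_15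
  refine ⟨fun k => [0, 0, x2, 0, 0, 0, x6, x7, x8, x9, x10, 0, x12, x13,
    x14, x15, x16, x17, x18, x19, x20, x21, x22, x23, x24, x25, x26].getD k 0, ?_⟩
  simp only [LT, List.forall_mem_cons, List.not_mem_nil, false_imp_iff, implies_true, and_true]
  exact ⟨h0_1, h0_3, h0_4, h0_5, h1_11, h3_11, h4_15, h4_18, h5_16, h5_18, h7_11, h7_16,
    h7_17, h8_11, h9_15, h10_17, h10_18, h0_6, h1_12, h1_13, h1_14, h2_19, h7_12, h2_20,
    h8_13, h2_21, h6_12, h10_15, h3_12, h10_16, h3_13, h9_16, h6_13, h4_14, h4_13, h3_14,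
    h5_12, h5_14, h8_15, h8_17, h9_14, h9_11, h6_17, h6_18, h2_22⟩

/-- The pairs `a, b` and `a', b'` lie in the same triple. -/
def Same (a b a' b' : I) : Prop := Adj a b ∧
  ((a' = a ∧ b' = b) ∨ (a' = b ∧ b' = a) ∨ (a' = a ∧ b' = thd a b) ∨ (a' = thd a b ∧ b' = a) ∨
    (a' = b ∧ b' = thd a b) ∨ (a' = thd a b ∧ b' = b))

instance (a b a' b' : I) : Decidable (Same a b a' b') := inferInstanceAs (Decidable (_ ∧ _))

theorem cover : ∀ a b, Adj a b → ∃ t ∈ LT, Same a b (dec t.1) (dec t.2.1) ∧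
    ({enc a, enc b, enc (thd a b)} : Multiset ℕ) = {t.1, t.2.1, t.2.2} := by decide +kernel

theorem Same.eq {A : Type} {u : I → I → A} (h1 : ∀ a b, Adj a b → u b a = u a b)
    (h2 : ∀ a b, Adj a b → u a (thd a b) = u a b) {a b a' b' : I} (h : Same a b a' b') :
    u a' b' = u a b := by
  obtain ⟨h, e⟩ := h
  obtain ⟨s1, s2, -⟩ := thd_spec a b h
  have s3 := (thd_spec b a h.symm).2.1
  have e1 := h2 b a h.symm
  rw [s1] at s3 e1
  rcases e with ⟨rfl, rfl⟩ | ⟨rfl, rfl⟩ | ⟨rfl, rfl⟩ | ⟨rfl, rfl⟩ | ⟨rfl, rfl⟩ | ⟨rfl, rfl⟩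
  · rfl
  · exact h1 _ _ h
  · exact h2 _ _ h
  · rw [h1 _ _ s2, h2 _ _ h]
  · rw [e1, h1 _ _ h]
  · rw [h1 _ _ s3, e1, h1 _ _ h]

/-- The corner of a trihedral pair. -/
def Cond (a b c d : I) : Prop := Adj a b ∧ Adj c d ∧ Adj a c ∧ Adj b d ∧ ¬ Adj a d ∧
  ¬ Tr a b c ∧ ¬ Tr a b d ∧ ¬ Tr a c d ∧ ¬ Tr b c d ∧ Adj (thd a c) (thd b d) ∧
  Adj (thd a b) (thd c d) ∧ thd (thd a c) (thd b d) = thd (thd a b) (thd c d) ∧
  sg a b * sg c d * sg (thd a c) (thd b d) = -(sg a c * sg b d * sg (thd a b) (thd c d))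

instance (a b c d : I) : Decidable (Cond a b c d) := inferInstanceAs (Decidable (_ ∧ _))

omit [CharZero K] in
theorem row (hn : Supp n) {a b : I} (h : Adj a b) :
    n a b = n a b (thd a b) • (Pi.single (thd a b) 1 : I → K) := by
  funext c
  by_cases hc : c = thd a b
  · subst hc
    simp
  · rw [hn a b c fun h => hc h.2]
    simp [hc]

omit [CharZero K] in
theorem row' (hn : Supp n) {a b : I} (h : ¬ Adj a b) : n a b = 0 :=
  funext fun c => hn a b c fun h' => h h'.1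

end SolveAux

open SolveAux

theorem Supp.mul_eq_one (h : IsAlb n m) (hn : Supp n) (hm : Supp m) {a b : I} (hab : Adj a b) :
    n a b (thd a b) * m a b (thd a b) = 1 := by
  classical
  have idem : ∀ b, Adj a b → n a b (thd a b) * m a b (thd a b) ≠ 1 →
      n a b (thd a b) * m a b (thd a b) = 0 := fun b hab h1 => by
    obtain ⟨-, s2, s3, -⟩ := thd_spec a b hab
    have e := congrFun (f4_iff_single.1 h.f4 a a b (thd a b)) a
    rw [row' hn (not_adj_self a), row hn hab, row hn s2, s3] at e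
    simp only [crs_zero_left, crs_smul_left, crs_smul_right, Pi.add_apply, Pi.smul_apply,
      crs_single, smul_eq_mul, Pi.zero_apply, zero_smul, Pi.single_eq_same, mul_one,
      zero_add] at e
    rw [← h.sym.2 a b, h.sym'.2 (thd a b), h.sym'.1 (thd a b), ← h.sym'.2 a b, h.sym'.2 b,
      h.sym'.1 b] at e
    refine mul_left_cancel₀ (sub_ne_zero.2 h1) ?_
    linear_combination (m a b (thd a b) / 2) * e
  have t := h.tr a a
  rw [if_pos rfl] at t
  have t2 : ∑ b ∈ Finset.univ.filter fun b => Adj a b,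
      ((if n a b (thd a b) * m a b (thd a b) = 1 then 0 else 1 : ℕ) : K) = 0 := by
    have t3 : ∑ b ∈ Finset.univ.filter fun b => Adj a b, (1 : K) = 10 := by simp [card_adj]
    rw [← sub_self (10 : K)]
    nth_rewrite 1 [← t3]
    rw [← t, Finset.sum_filter, Finset.sum_filter, ← Finset.sum_sub_distrib]
    refine Finset.sum_congr rfl fun b _ => ?_
    split_ifs with h1 h2
    · rw [Finset.sum_eq_single (thd a b) (fun c _ hc => by rw [hn a b c fun h => hc h.2, zero_mul])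
        (by simp), h2]
      simp
    · rw [Finset.sum_eq_single (thd a b) (fun c _ hc => by rw [hn a b c fun h => hc h.2, zero_mul])
        (by simp), idem b h1 h2]
      simp
    · simp [row' hn h1]
  rw [← Nat.cast_sum, Nat.cast_eq_zero, Finset.sum_eq_zero_iff] at t2
  have := t2 b (by simpa using hab)
  by_contra hne
  simp [hne] at this

theorem Supp.exists_dg (h : IsAlb n m) (hn : Supp n) (hm : Supp m) :
    ∃ x : I → Kˣ, n = (nZ K).pull (dg x) := by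
  classical
  have sq : ∀ a b, (sg a b : K) * sg a b = 1 := fun a b => by exact_mod_cast sg_sq a b
  have ne : ∀ a b, Adj a b → n a b (thd a b) * sg a b ≠ 0 := fun a b hab =>
    mul_ne_zero (left_ne_zero_of_mul_eq_one (hn.mul_eq_one h hm hab))
      (left_ne_zero_of_mul_eq_one (sq a b))
  obtain ⟨u, hu⟩ : ∃ u : I → I → Additive Kˣ, ∀ a b, Adj a b →
      (u a b).toMul.1 = n a b (thd a b) * sg a b :=
    ⟨fun a b => if hab : Adj a b then Additive.ofMul (Units.mk0 _ (ne a b hab)) else 0,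
      fun a b hab => by simp [hab]⟩
  have u1 : ∀ a b, Adj a b → u b a = u a b := fun a b hab => Additive.toMul.injective <|
    Units.ext <| by
      obtain ⟨s1, -, -, s4, -⟩ := thd_spec a b hab
      rw [hu a b hab, hu b a hab.symm, s1, s4, h.sym.1]
  have u2 : ∀ a b, Adj a b → u a (thd a b) = u a b := fun a b hab => Additive.toMul.injective <|
    Units.ext <| by
      obtain ⟨-, s2, s3, -, s5⟩ := thd_spec a b hab
      rw [hu a b hab, hu a _ s2, s3, s5, h.sym.2]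
  have tri : ∀ a b c d, Cond a b c d →
      u a b + u c d + u (thd a c) (thd b d) = u a c + u b d + u (thd a b) (thd c d) := by
    rintro a b c d ⟨h1, h2, h3, h4, h5, h6, h7, h8, h9, h10, h11, h12, h13⟩
    refine Additive.toMul.injective (Units.ext ?_)
    simp only [toMul_add, Units.val_mul, hu _ _ h1, hu _ _ h2, hu _ _ h3, hu _ _ h4, hu _ _ h10,
      hu _ _ h11]
    have e := congrFun (f4_iff_single.1 h.f4 a b c d) (thd (thd a b) (thd c d))
    rw [hn _ _ _ h6, hn _ _ _ h7, hn _ _ _ h8, hn _ _ _ h9, row' hn h5, row hn h1, row hn h2,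
      row hn h3, row hn h4] at e
    simp only [crs_zero_left, crs_smul_left, crs_smul_right, Pi.add_apply, Pi.smul_apply,
      crs_single, smul_eq_mul, Pi.zero_apply, zero_smul, add_zero] at e
    have e1 := hn.mul_eq_one h hm h10
    have e2 := hn.mul_eq_one h hm h11
    have e3 : (sg a b : K) * sg c d * sg (thd a c) (thd b d) =
      -(sg a c * sg b d * sg (thd a b) (thd c d)) := by exact_mod_cast h13
    rw [h12] at e1 ⊢
    generalize thd (thd a b) (thd c d) = z at *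
    linear_combination (n a b (thd a b) * n c d (thd c d) * n (thd a c) (thd b d) z) * e3 +
      (sg a c * sg b d * sg (thd a b) (thd c d)) *
        (n a b (thd a b) * n c d (thd c d) * n (thd a c) (thd b d) z * e2 +
          n a c (thd a c) * n b d (thd b d) * n (thd a b) (thd c d) z * e1 -
          n (thd a c) (thd b d) z * n (thd a b) (thd c d) z * e)
  have rel : ∀ a b c d : ℕ, ∀ {p1 q1 p2 q2 p3 q3 p4 q4 p5 q5 p6 q6 : ℕ},
      Cond (dec a) (dec b) (dec c) (dec d) ∧ Same (dec a) (dec b) (dec p1) (dec q1) ∧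
      Same (dec c) (dec d) (dec p2) (dec q2) ∧
      Same (thd (dec a) (dec c)) (thd (dec b) (dec d)) (dec p3) (dec q3) ∧
      Same (dec a) (dec c) (dec p4) (dec q4) ∧ Same (dec b) (dec d) (dec p5) (dec q5) ∧
      Same (thd (dec a) (dec b)) (thd (dec c) (dec d)) (dec p6) (dec q6) →
      u (dec p1) (dec q1) + u (dec p2) (dec q2) + u (dec p3) (dec q3) =
        u (dec p4) (dec q4) + u (dec p5) (dec q5) + u (dec p6) (dec q6) := by
    rintro a b c d p1 q1 p2 q2 p3 q3 p4 q4 p5 q5 p6 q6 ⟨h0, h1, h2, h3, h4, h5, h6⟩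
    rw [h1.eq u1 u2, h2.eq u1 u2, h3.eq u1 u2, h4.eq u1 u2, h5.eq u1 u2, h6.eq u1 u2]
    exact tri _ _ _ _ h0
  obtain ⟨X, hX⟩ := solve (fun i j => u (dec i) (dec j))
    (rel 0 1 3 11 (by decide +kernel)) (rel 0 1 4 15 (by decide +kernel))
    (rel 0 1 4 18 (by decide +kernel)) (rel 0 1 5 16 (by decide +kernel))
    (rel 0 1 5 18 (by decide +kernel)) (rel 0 1 6 12 (by decide +kernel))
    (rel 0 3 4 19 (by decide +kernel)) (rel 0 3 4 23 (by decide +kernel))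
    (rel 0 3 5 19 (by decide +kernel)) (rel 0 3 5 24 (by decide +kernel))
    (rel 0 3 6 12 (by decide +kernel)) (rel 0 3 6 13 (by decide +kernel))
    (rel 0 4 1 14 (by decide +kernel)) (rel 0 4 3 13 (by decide +kernel))
    (rel 0 4 3 14 (by decide +kernel)) (rel 0 4 5 22 (by decide +kernel))
    (rel 0 4 5 14 (by decide +kernel)) (rel 0 4 5 19 (by decide +kernel))
    (rel 0 4 5 18 (by decide +kernel)) (rel 0 4 6 21 (by decide +kernel))
    (rel 0 4 6 13 (by decide +kernel)) (rel 0 4 6 19 (by decide +kernel))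
    (rel 0 4 6 18 (by decide +kernel)) (rel 0 5 1 12 (by decide +kernel))
  refine ⟨fun a => (X (enc a)).toMul, ?_⟩
  funext a b c
  rw [pull_dg, nZ_eq]
  split_ifs with ht
  · obtain ⟨hab, rfl⟩ := ht
    obtain ⟨t, ht, hs, hm⟩ := cover a b hab
    have e := hX t ht
    have e' := congrArg (fun s => (s.map X).sum) hm
    simp only [Multiset.insert_eq_cons, Multiset.map_cons, Multiset.sum_cons,
      Multiset.map_singleton, Multiset.sum_singleton, ← add_assoc] at e'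
    rw [hs.eq u1 u2, ← e'] at e
    have e2 := hu a b hab
    rw [e, toMul_add, toMul_add, Units.val_mul, Units.val_mul] at e2
    rw [e2]
    linear_combination -n a b (thd a b) * sq a b
  · rw [hn a b c ht, zero_mul]

end Pool.Agent.P.MP_3c2f8c_gt.Ex
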