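import Pool.Agent.P.MP_3c2f8c_gt.Ex.Mt.Solve
import Pool.Agent.P.MP_3c2f8c_gt.Ex.Al.B2

/-! Ex-Mt-Solve2: the support of an invariant tensor. -/

namespace Pool.Agent.P.MP_3c2f8c_gt.Ex

open Matrix Polynomial Pool.Agent.Lib.CFT
open scoped TensorProduct

variable {K : Type} [Field K] [CharZero K] {n m : T3 K}

omit [CharZero K] in
theorem Solve2Aux.prod_eq {x : I → Kˣ} {ν : K} (hx : Sim n n (dg x) ν) {a b c : I}
    (h : n a b c ≠ 0) : (x a).1 * (x b).1 * (x c).1 = ν := by
  have e := congrFun (congrFun (congrFun (sim_iff_pull.1 hx) a) b) c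
  rw [pull_dg] at e
  exact mul_right_cancel₀ h (by simpa only [Pi.smul_apply, smul_eq_mul, mul_comm] using e)

theorem sum_val (h : IsAlb n m) {x : I → Kˣ} {ν : Kˣ} (hx : Sim n n (dg x) ν.1)
    (v : Kˣ →* Multiplicative ℝ) : ∑ a, (v (x a)).toAdd = 9 * (v ν).toAdd := by
  refine sub_eq_zero.1 ((Module.forall_dual_apply_eq_zero_iff ℚ _).1 fun f => ?_)
  have hd : Der n (diagonal fun a => ((f (v (x a)).toAdd : ℚ) : K)) (f (v ν).toAdd : ℚ) := by
    refine der_iff_single.2 fun a b d => ?_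
    simp only [diagonal_apply, Finset.sum_add_distrib, mul_ite, mul_zero, Finset.sum_ite_eq',
      Finset.mem_univ, if_true]
    by_cases e : n a b d = 0
    · simp only [e, zero_mul, mul_zero, add_zero]
    · rw [← (Units.ext (Solve2Aux.prod_eq hx e) : x a * x b * x d = ν), map_mul v, map_mul v, toAdd_mul,
        toAdd_mul, map_add, map_add]
      push_cast
      ring
  have ht := hd.trace h
  rw [trace_diagonal] at ht
  have e : (9 : ℝ) * (v ν).toAdd = (9 : ℚ) • (v ν).toAdd := by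
    rw [Rat.smul_def, Rat.cast_ofNat]
  rw [map_sub, map_sum, e, map_smul, smul_eq_mul, sub_eq_zero]
  exact_mod_cast ht

theorem supp_of_norm (h : IsAlb n m) {x : I → Kˣ} {ν : K} (hx : Sim n n (dg x) ν)
    (v : K →+* PadicAlgCl 13) {c : ℕ} {r : ℝ} (hc : 0 < c) (hr : 0 < r)
    (hv : ∀ a, ‖v (x a).1‖ = r * (13 : ℝ) ^ ((c : ℤ) * lv a)) : Supp n ∧ Supp m := by
  obtain ⟨ν, rfl⟩ := Sim.isUnit h (g := dgU x) hx
  have np : ∀ u : Kˣ, 0 < ‖v u.1‖ := fun u => norm_pos_iff.2 ((map_ne_zero v).2 u.ne_zero)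
  let w : Kˣ →* Multiplicative ℝ :=
    { toFun := fun u => Multiplicative.ofAdd (Real.log ‖v u.1‖)
      map_one' := by simp
      map_mul' := fun u u' => by
        rw [← ofAdd_add, Units.val_mul, map_mul, norm_mul, Real.log_mul (np u).ne' (np u').ne'] }
  have hw : ∀ a, (w (x a)).toAdd = Real.log r + c * lv a * Real.log 13 := fun a => by
    change Real.log ‖v (x a).1‖ = _
    rw [hv, Real.log_mul hr.ne' (by positivity), Real.log_zpow]
    push_cast
    rfl
  have hs := sum_val h hx w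
  have h9 : ∑ a, (lv a : ℝ) = 9 := by exact_mod_cast sum_lv
  simp only [hw, Finset.sum_add_distrib, ← Finset.sum_mul, ← Finset.mul_sum, h9, Finset.sum_const,
    Finset.card_univ, Fintype.card_sum, Fintype.card_prod, Fintype.card_fin, nsmul_eq_mul] at hs
  have key : ∀ a b d, x a * x b * x d = ν → Tr a b d := fun a b d e => by
    rw [← e, map_mul w, map_mul w, toAdd_mul, toAdd_mul, hw, hw, hw] at hs
    have h1 : (0 : ℝ) < c * Real.log 13 := mul_pos (Nat.cast_pos.2 hc) (Real.log_pos (by norm_num))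
    have h2 : ((lv a + lv b + lv d : ℤ) : ℝ) = 1 := mul_left_cancel₀ h1.ne' (by
      push_cast at hs ⊢
      linear_combination (-1 / 9 : ℝ) * hs)
    exact (lv_sum_iff a b d).1 (by exact_mod_cast h2)
  have hm : Sim m m (dg x⁻¹) (ν⁻¹).1 := by
    have := Sim.dag h h (g := dgU x) hx
    rwa [dag_val, show ((dgU x)⁻¹).1 = dg x⁻¹ from rfl, dg, diagonal_transpose] at this
  refine ⟨fun a b d hn => by_contra fun e => hn (key a b d (Units.ext (Solve2Aux.prod_eq hx e))),
    fun a b d hn => by_contra fun e => hn (key a b d (inv_injective ?_))⟩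
  rw [mul_inv, mul_inv]
  exact Units.ext (Solve2Aux.prod_eq hm e)

end Pool.Agent.P.MP_3c2f8c_gt.Ex
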