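import Pool.Agent.P.MP_3c2f8c_gt.Ex.Mt.Base
import Pool.Agent.P.MP_3c2f8c_gt.Ex.Mt.Solve2
import Pool.Agent.P.MP_3c2f8c_gt.Ex.Gl.Nu
import Pool.Agent.Lib.CFT.Tr1

/-! Ex-Mt-Spec: spectral data and frames exist. -/

namespace Pool.Agent.P.MP_3c2f8c_gt.Ex

open Matrix Polynomial Pool.Agent.Lib.CFT
open scoped TensorProduct

variable {F : Type} [Field F] [NumberField F]


namespace SpecAux

theorem norm_lt (D : Spec F) {a b : I} (h : lv a < lv b) :
    ‖D.v (D.lam a).1‖ < ‖D.v (D.lam b).1‖ := by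
  rw [D.norm, D.norm]
  refine mul_lt_mul_of_pos_left ?_ D.r_pos
  refine zpow_lt_zpow_right₀ (by norm_num) ?_
  exact mul_lt_mul_of_pos_left h (by exact_mod_cast D.c_pos)

theorem norm_ne (D : Spec F) {a b : I} (h : a ≠ b) :
    ‖D.v (D.lam a).1‖ ≠ ‖D.v (D.lam b).1‖ := by
  rcases lt_or_gt_of_ne (lv_injective.ne h) with h1 | h1
  · exact (norm_lt D h1).ne
  · exact (norm_lt D h1).ne'

theorem sig_cube : (Cub.sig : Cub ℚ ≃+* Cub ℚ) ^ 3 = 1 :=
  RingEquiv.ext fun x => Cub.sig_sig_sig x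

theorem sig_mod {i k : ℕ}
    (h : ((Cub.sig : Cub ℚ ≃+* Cub ℚ) ^ i) Cub.eta = ((Cub.sig : Cub ℚ ≃+* Cub ℚ) ^ k) Cub.eta) :
    i % 3 = k % 3 := by
  rw [pow_eq_pow_mod i sig_cube, pow_eq_pow_mod k sig_cube] at h
  have hi : i % 3 < 3 := Nat.mod_lt _ (by norm_num)
  have hk : k % 3 < 3 := Nat.mod_lt _ (by norm_num)
  generalize i % 3 = i' at h hi ⊢
  generalize k % 3 = k' at h hk ⊢
  have e0 : (((Cub.sig : Cub ℚ ≃+* Cub ℚ) ^ 0) Cub.eta).c1 = 1 := rfl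
  have e1 : (((Cub.sig : Cub ℚ ≃+* Cub ℚ) ^ 1) Cub.eta).c1 = 0 := by
    rw [pow_one]; simp [Cub.eta]
  have e2 : (((Cub.sig : Cub ℚ ≃+* Cub ℚ) ^ 2) Cub.eta).c1 = -1 := by
    rw [pow_two]
    show (Cub.sig (Cub.sig (Cub.eta : Cub ℚ))).c1 = -1
    simp [Cub.eta]
  have h1 := congrArg Cub.c1 h
  interval_cases i' <;> interval_cases k' <;>
    first | rfl | (simp only [e0, e1, e2] at h1; norm_num at h1)

end SpecAux

theorem Spec.sq_ne (D : Spec F) (a b : I) (h : a ≠ b) : (D.lam a).1 ^ 2 ≠ (D.lam b).1 ^ 2 := by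
  intro h2
  have h3 := congrArg (fun x => ‖D.v x‖) h2
  simp only [map_pow, norm_pow] at h3
  exact SpecAux.norm_ne D h ((pow_left_inj₀ (norm_nonneg _) (norm_nonneg _) two_ne_zero).1 h3)

theorem Spec.lam_ne (D : Spec F) (a b : I) (h : a ≠ b) : (D.lam a).1 ≠ (D.lam b).1 :=   fun h2 => D.sq_ne a b h (by rw [h2])

theorem Spec.sum_ne (D : Spec F) : ∑ a, (D.lam a).1 ≠ 0 := by
  intro h
  obtain ⟨a₀, -, ha₀⟩ := Finset.exists_max_image Finset.univ lv ⟨.inl 0, Finset.mem_univ _⟩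
  have h1 := congrArg D.v h
  rw [map_sum, map_zero, ← Finset.add_sum_erase _ _ (Finset.mem_univ a₀),
    add_eq_zero_iff_eq_neg] at h1
  have hne : (Finset.univ.erase a₀).Nonempty := by
    by_cases h0 : a₀ = .inl 0
    · exact ⟨.inl 1, Finset.mem_erase.2 ⟨by rw [h0]; decide, Finset.mem_univ _⟩⟩
    · exact ⟨.inl 0, Finset.mem_erase.2 ⟨Ne.symm h0, Finset.mem_univ _⟩⟩
  obtain ⟨a, ha, hle⟩ := IsUltrametricDist.exists_norm_finsetSum_le_of_nonempty hne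
    (fun a => D.v (D.lam a).1)
  have h2 : lv a < lv a₀ :=
    lt_of_le_of_ne (ha₀ a (Finset.mem_univ _)) (lv_injective.ne (Finset.mem_erase.1 ha).1)
  have h3 := SpecAux.norm_lt D h2
  rw [h1, norm_neg] at h3
  exact absurd hle (not_le.2 h3)

theorem Spec.ix_add (D : Spec F) (s t : Aut F) : D.ix s + D.ix t = D.ix (s * t) + 3 * D.cy s t := by
  have h1 := D.hix (s * t) Cub.eta
  rw [AlgEquiv.mul_apply, D.hix, D.hix] at h1
  have h2 := D.j.injective h1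
  have h3 : ((Cub.sig : Cub ℚ ≃+* Cub ℚ) ^ (D.ix s + D.ix t)) Cub.eta =
      ((Cub.sig : Cub ℚ ≃+* Cub ℚ) ^ D.ix (s * t)) Cub.eta := by
    rw [pow_add]
    exact h2
  have h4 := SpecAux.sig_mod h3
  have h5 := D.ix_lt (s * t)
  unfold Spec.cy
  omega

theorem Spec.ix_eq_zero (D : Spec F) (s : Aut F) : D.ix s = 0 ↔ ∀ x, s (D.j x) = D.j x := by
  constructor
  · intro h x
    rw [D.hix, h]
    rfl
  · intro h
    have h1 := D.hix s Cub.eta
    rw [h] at h1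
    have h2 := SpecAux.sig_mod (i := 0) (D.j.injective h1)
    have h3 := D.ix_lt s
    omega

theorem Spec.exists_ix [IsGalois ℚ F] (D : Spec F) : ∃ s, D.ix s = 1 := by
  by_contra hcon
  have h1 : ∀ s, D.ix s = 0 := by
    intro s
    have h2 := D.ix_add s s
    have h3 := D.ix_lt s
    have h4 := D.ix_lt (s * s)
    have h5 : D.ix s ≠ 1 := fun h => hcon ⟨s, h⟩
    have h6 : D.ix (s * s) ≠ 1 := fun h => hcon ⟨_, h⟩
    unfold Spec.cy at h2
    omega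
  obtain ⟨q, hq⟩ := (isFix_top (M := F) (D.j Cub.eta)).1
    fun s _ => (D.ix_eq_zero s).1 (h1 s) _
  have h7 : D.j (Cub.C q) = algebraMap ℚ F q := by
    rw [← RingHom.comp_apply, eq_ratCast, eq_ratCast]
  have h8 : (0 : ℚ) = 1 := congrArg Cub.c1 (D.j.injective (h7.trans hq))
  exact zero_ne_one h8

theorem Spec.exists_fix [IsGalois ℚ F] (D : Spec F) :
    ∃ N : Subgroup (Aut F), IsFix D.j N ∧ ∀ s, s ∈ N ↔ D.ix s = 0 := by
  refine ⟨D.j.toRatAlgHom.fieldRange.fixingSubgroup, fun x => ?_, fun s => ?_⟩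
  · have h1 := IsGalois.fixedField_fixingSubgroup D.j.toRatAlgHom.fieldRange
    constructor
    · intro h
      have h2 : x ∈ IntermediateField.fixedField D.j.toRatAlgHom.fieldRange.fixingSubgroup :=
        (IntermediateField.mem_fixedField_iff _ _).2 h
      rw [h1] at h2
      exact h2
    · rintro ⟨y, rfl⟩ s hs
      exact (IntermediateField.mem_fixingSubgroup_iff _ _).1 hs _ ⟨y, rfl⟩
  · rw [D.ix_eq_zero, IntermediateField.mem_fixingSubgroup_iff]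
    constructor
    · intro h x
      exact h _ ⟨x, rfl⟩
    · rintro h _ ⟨x, rfl⟩
      exact h x

theorem Spec.lam_mem (D : Spec F) : D.lam ∈ D.Tor := ⟨D.inT, D.hw⟩

theorem Spec.isAlb (D : Spec F) : IsAlb (eT D.lam) (eT' D.lam) := isAlb_eT D.inT D.sq_ne

theorem Spec.sim_pm (D : Spec F) (s : Aut F) :
    Sim ((eT D.lam).map s) (eT D.lam) (pm F (D.w s)) 1 := by
  rw [sim_iff_pull, one_smul]
  funext a b c
  rw [pull_pm]
  exact (eT_perm (s : F →+* F) (D.adj s) (D.hw s) a b c).symm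

theorem Spec.map_gt (D : Spec F) {b : ℚ} (g : Gt b ℚ) (s : Aut F) :
    ph b F ^ D.ix s * (g.1.1.map D.j).map s = g.1.1.map D.j * ph b F ^ D.ix s := by
  have h1 := congrArg D.j.mapMatrix (Gt.comm_pow g (D.ix s))
  rw [map_mul, map_mul, map_pow] at h1
  simp only [RingHom.mapMatrix_apply, ph_map] at h1
  rw [h1]
  congr 1
  ext x y
  exact D.hix s _

end Pool.Agent.P.MP_3c2f8c_gt.Ex
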