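import Pool.Agent.P.MP_3c2f8c_gt.Ex.Mt.Spec

/-! Ex-Mt-SpecF: frames exist. -/

namespace Pool.Agent.P.MP_3c2f8c_gt.Ex

open Matrix Polynomial Pool.Agent.Lib.CFT
open scoped TensorProduct

variable {F : Type} [Field F] [NumberField F]

theorem exists_eigenbasis {K : Type} [Field K] (g : Matrix I I K) (l : I → Kˣ)
    (hl : ∀ a b, a ≠ b → (l a).1 ≠ (l b).1) (h : g.charpoly = ∏ a, (X - C (l a).1)) :
    ∃ P : GL I K, g * P.1 = P.1 * dg l := by
  have h1 : ∀ a, ∃ v, Module.End.HasEigenvector (toLin' g) (l a).1 v := fun a => by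
    refine Module.End.HasEigenvalue.exists_hasEigenvector ?_
    rw [Module.End.hasEigenvalue_iff_isRoot_charpoly, charpoly_toLin', h, IsRoot, eval_prod]
    exact Finset.prod_eq_zero (Finset.mem_univ a) (by simp)
  choose v hv using h1
  have h2 := Module.End.eigenvectors_linearIndependent' (toLin' g) (fun a => (l a).1)
    (fun a b e => by_contra fun hab => hl a b hab e) v hv
  obtain ⟨P, hP⟩ := (linearIndependent_cols_iff_isUnit (A := (Matrix.of v)ᵀ)).1 h2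
  refine ⟨P, ?_⟩
  rw [hP]
  ext i a
  rw [dg, mul_diagonal, mul_comm]
  exact congrFun (hv a).apply_eq_smul i

namespace SpecFAux

theorem supp {K : Type} [Field K] [CharZero K] {G : Matrix I I K} {ν : K}
    (hG : Sim (nJ K) (nJ K) G ν) {P : GL I K} {l : I → Kˣ} (hP : G * P.1 = P.1 * dg l)
    (v : K →+* PadicAlgCl 13) {c : ℕ} {r : ℝ} (hc : 0 < c) (hr : 0 < r)
    (hv : ∀ a, ‖v (l a).1‖ = r * (13 : ℝ) ^ ((c : ℤ) * lv a)) :
    ∃ m, IsAlb ((nJ K).pull P.1) m ∧ Sim ((nJ K).pull P.1) ((nJ K).pull P.1) (dg l) ν ∧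
      Supp ((nJ K).pull P.1) ∧ Supp m := by
  have h1 := (isAlb_nJ K).pull P
  have h2 : Sim ((nJ K).pull P.1) ((nJ K).pull P.1) (dg l) ν := fun x y z => by
    simp only [tri_pull, mulVec_mulVec, ← hP]
    simp only [← mulVec_mulVec]
    exact hG _ _ _
  exact ⟨_, h1, h2, supp_of_norm h1 h2 v hc hr hv⟩

theorem sim_map {K : Type} [Field K] {b : ℚ} (hb : b ≠ 0) (g : Gt b ℚ) (j : Cub ℚ →+* K) :
    Sim (nJ K) (nJ K) (g.1.1.map j) (j (Cub.C (Gt.nu g))) := by
  simpa only [nJ_map] using (Gt.sim hb g).map j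

theorem conj {G : Type} [Group G] {φ g g' P P' L L' W : G} (h1 : φ * g' = g * φ)
    (h2 : g' * P' = P' * L') (h3 : W * L' = L * W) (h4 : g * P = P * L) :
    P⁻¹ * φ * P' * W⁻¹ * L = L * (P⁻¹ * φ * P' * W⁻¹) := by
  have e1 : L = P⁻¹ * g * P := by rw [mul_assoc, h4, inv_mul_cancel_left]
  have e2 : W⁻¹ * L = L' * W⁻¹ := by
    rw [inv_mul_eq_iff_eq_mul, ← mul_assoc, h3, mul_inv_cancel_right]
  rw [mul_assoc _ W⁻¹, e2, ← mul_assoc, mul_assoc _ P', ← h2, ← mul_assoc, mul_assoc _ φ, h1, e1]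
  simp only [mul_assoc, mul_inv_cancel_left]

end SpecFAux

theorem Spec.exists_frame (D : Spec F) {b : ℚ} (hb : b ≠ 0) (g : Gt b ℚ)
    (h : (g.1.1.map D.j).charpoly = ∏ a, (X - C (D.lam a).1)) :
    ∃ P a, Frame D b (QuotientGroup.mk g) P a := by
  obtain ⟨P₀, hP₀⟩ := exists_eigenbasis _ D.lam D.lam_ne h
  obtain ⟨m, h1, -, h2, h3⟩ :=
    SpecFAux.supp (SpecFAux.sim_map hb g D.j) hP₀ D.v D.c_pos D.r_pos D.norm
  obtain ⟨x, hx⟩ := h2.exists_dg h1 h3
  obtain ⟨y, hy, -⟩ := exists_eT D.inT D.sq_ne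
  obtain ⟨P, hP⟩ : ∃ P : GL I F, P.1 = P₀.1 * dg (x⁻¹ * y) := ⟨P₀ * dgU (x⁻¹ * y), rfl⟩
  have eig : g.1.1.map D.j * P.1 = P.1 * dg D.lam := by
    rw [hP, ← Matrix.mul_assoc, hP₀, Matrix.mul_assoc, Matrix.mul_assoc, ← dg_mul, ← dg_mul,
      mul_comm D.lam]
  have sim : Sim (eT D.lam) (nJ F) P.1 1 := fun u v w => by
    simp only [hP, ← mulVec_mulVec]
    rw [← tri_pull, hx, hy, tri_pull, tri_pull, one_mul]
    simp only [mulVec_mulVec, ← dg_mul, mul_inv_cancel_left]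
  obtain ⟨φ, hφ⟩ := exists_phU hb F
  have coc : ∀ s : Aut F, ∃ t : I → Fˣ,
      ph b F ^ D.ix s * P.1.map s = P.1 * (dg t * pm F (D.w s)) := fun s => by
    obtain ⟨W, hW⟩ := exists_dg_pm (1 : I → Fˣ) (D.w s)
    rw [dg_one, Matrix.one_mul] at hW
    have e1 : (dg D.lam).map (s : F →+* F) = dg (D.lam ∘ D.w s) := by
      rw [dg_map]
      exact congrArg dg (funext fun a => Units.ext (D.hw s a))
    have e2 := SpecFAux.conj (φ := φ ^ D.ix s) (g := glmap D.j g.1)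
      (g' := glmap (s : F →+* F) (glmap D.j g.1)) (P := P) (P' := glmap (s : F →+* F) P)
      (L := dgU D.lam) (L' := dgU (D.lam ∘ D.w s)) (W := W)
      (Units.ext (by
        rw [Units.val_mul, Units.val_mul, Units.val_pow_eq_pow_val, hφ]
        exact D.map_gt g s))
      (Units.ext (by
        have e3 := congrArg (fun X : Matrix I I F => X.map (s : F →+* F)) eig
        simp only [Matrix.map_mul, e1] at e3
        exact e3))
      (Units.ext (by
        change W.1 * dg (D.lam ∘ D.w s) = dg D.lam * W.1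
        rw [hW, pm_dg]
        congr 2
        funext a
        simp))
      (Units.ext eig)
    obtain ⟨t, ht⟩ := exists_dg_of_commute (l := D.lam)
      (fun a c hac => (sub_ne_zero.2 (D.lam_ne a c hac)).isUnit) _ (congrArg Units.val e2)
    refine ⟨t, ?_⟩
    rw [← ht, ← hW, ← hφ, ← Units.val_mul, ← Units.val_mul, inv_mul_cancel_right, mul_assoc,
      mul_inv_cancel_left, Units.val_mul, Units.val_pow_eq_pow_val]
    rfl
  choose a ha using coc
  exact ⟨P, a, ⟨g, rfl, eig⟩, ⟨1, sim⟩, ha⟩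

end Pool.Agent.P.MP_3c2f8c_gt.Ex
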