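import Pool.Agent.P.MP_3c2f8c_gt.Ex.Mt.Dg

/-! Ex-Mt-Tor: the diagonal torus and its character lattice. -/

namespace Pool.Agent.P.MP_3c2f8c_gt.Ex

open Matrix Polynomial Pool.Agent.Lib.CFT
open scoped TensorProduct

variable {A B : Type} [CommGroup A] [CommGroup B] {d d' : I → A}

namespace TorAux

theorem uniq : ∀ a b c, Adj a b → Adj a c → Adj b c → c = thd a b := by decide +kernel

/-- The step at which a weight is reached from the six free weights. -/
def rk (a : I) : ℕ :=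
  [0, 0, 1, 0, 0, 0, 18, 3, 4, 15, 2, 0, 19, 20, 21, 7, 9, 13, 5, 6, 11, 14, 16, 8, 10, 12, 17].getD
    (enc a) 0

theorem rk_spec : ∀ a, (∃ i, a = wb i) ∨
    ∃ b c, rk b < rk a ∧ rk c < rk a ∧ Adj b c ∧ a = thd b c := by decide +kernel

theorem ind {S : I → Prop} (h0 : ∀ i, S (wb i)) (h1 : ∀ a b, Adj a b → S a → S b → S (thd a b))
    (a : I) : S a := by
  induction hn : rk a using Nat.strong_induction_on generalizing a with
  | _ n ih =>
    rcases rk_spec a with ⟨i, rfl⟩ | ⟨b, c, hb, hc, hbc, rfl⟩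
    · exact h0 i
    · exact h1 b c hbc (ih _ (hn ▸ hb) b rfl) (ih _ (hn ▸ hc) c rfl)

theorem prod_wt (x : Fin 7 → A) (a b : I) (h : Adj a b) :
    (∏ i, x i ^ wt a i) * (∏ i, x i ^ wt b i) * ∏ i, x i ^ wt (thd a b) i = x 6 := by
  rw [← Finset.prod_mul_distrib, ← Finset.prod_mul_distrib]
  simp only [← _root_.zpow_add, wt_tr a b h]
  rw [Finset.prod_eq_single 6]
  · simp
  · intro j _ hj
    simp [hj]
  · simp

end TorAux

theorem InT.mul (h : InT d) (h' : InT d') : InT (d * d') := by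
  obtain ⟨ν, h⟩ := h
  obtain ⟨μ, h'⟩ := h'
  refine ⟨ν * μ, fun a b hab => ?_⟩
  rw [← h a b hab, ← h' a b hab]
  simp only [Pi.mul_apply]
  ac_rfl

theorem InT.inv (h : InT d) : InT d⁻¹ := by
  obtain ⟨ν, h⟩ := h
  refine ⟨ν⁻¹, fun a b hab => ?_⟩
  rw [← h a b hab]
  simp only [Pi.inv_apply, mul_inv]

theorem InT.pow (h : InT d) (k : ℕ) : InT (d ^ k) := by
  obtain ⟨ν, h⟩ := h
  refine ⟨ν ^ k, fun a b hab => ?_⟩
  rw [← h a b hab]
  simp only [Pi.pow_apply, mul_pow]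

theorem inT_const (z : A) : InT fun _ : I => z := ⟨z * z * z, fun _ _ _ => rfl⟩

theorem InT.map (h : InT d) (f : A →* B) : InT (f ∘ d) := by
  obtain ⟨ν, h⟩ := h
  refine ⟨f ν, fun a b hab => ?_⟩
  rw [← h a b hab]
  simp only [Function.comp_apply, map_mul]

theorem thd_perm {w : Equiv.Perm I} (hw : ∀ a b, Adj (w a) (w b) ↔ Adj a b) {a b : I}
    (h : Adj a b) : thd (w a) (w b) = w (thd a b) := by
  have h1 := thd_spec a b h
  have h2 := thd_spec b a h.symm
  refine (TorAux.uniq _ _ _ ((hw a b).2 h) ((hw _ _).2 h1.2.1) ((hw _ _).2 ?_)).symm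
  rw [← h1.1]
  exact h2.2.1

theorem tr_perm {w : Equiv.Perm I} (hw : ∀ a b, Adj (w a) (w b) ↔ Adj a b) (a b c : I) :
    Tr (w a) (w b) (w c) ↔ Tr a b c := by
  unfold Tr
  rw [hw]
  refine and_congr_right fun h => ?_
  rw [thd_perm hw h]
  exact w.injective.eq_iff

theorem InT.perm (h : InT d) {w : Equiv.Perm I} (hw : ∀ a b, Adj (w a) (w b) ↔ Adj a b) :
    InT (d ∘ w) := by
  obtain ⟨ν, h⟩ := h
  refine ⟨ν, fun a b hab => ?_⟩
  have h1 := h (w a) (w b) ((hw a b).2 hab)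
  rw [thd_perm hw hab] at h1
  exact h1

/-- A point of the torus is determined by six coordinates and the multiplier. -/
theorem eq_prod_wt {ν : A} (h : ∀ a b, Adj a b → d a * d b * d (thd a b) = ν) (a : I) :
    d a = (∏ i : Fin 6, d (wb i) ^ wt a i.castSucc) * ν ^ wt a 6 := by
  have hx : ∀ a, (∏ i : Fin 7, (Fin.snoc (fun i => d (wb i)) ν : Fin 7 → A) i ^ wt a i) =
      (∏ i : Fin 6, d (wb i) ^ wt a i.castSucc) * ν ^ wt a 6 := by
    intro a
    rw [Fin.prod_univ_castSucc]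
    simp only [Fin.snoc_castSucc, Fin.snoc_last]
    rfl
  rw [← hx]
  refine TorAux.ind (S := fun a => d a =
    ∏ i : Fin 7, (Fin.snoc (fun i => d (wb i)) ν : Fin 7 → A) i ^ wt a i) ?_ ?_ a
  · intro i
    simp only [wt_wb]
    rw [Finset.prod_eq_single i.castSucc]
    · simp
    · intro j _ hj
      simp [hj]
    · simp
  · intro a b hab ha hb
    have h1 := TorAux.prod_wt (Fin.snoc (fun i => d (wb i)) ν : Fin 7 → A) a b hab
    have h2 : (Fin.snoc (fun i => d (wb i)) ν : Fin 7 → A) 6 = ν := rfl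
    rw [h2, ← ha, ← hb] at h1
    exact mul_left_cancel ((h a b hab).trans h1.symm)

theorem inT_prod_wt (x : Fin 7 → A) (a b : I) (h : Adj a b) :
    (∏ i, x i ^ wt a i) * (∏ i, x i ^ wt b i) * ∏ i, x i ^ wt (thd a b) i = x 6 := TorAux.prod_wt x a b h

end Pool.Agent.P.MP_3c2f8c_gt.Ex
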